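import Mathlib

/-!
The non-cutoff Boltzmann equation in dimension `d = 2`, with `ℝ²` written as `ℂ` and the unit
circle parametrised by the angle `α ∈ (-π, π)`.
-/

open MeasureTheory Set Metric

noncomputable section

namespace Pool.Agent.Boltzmann2

/-- Post-collisional velocity `v' = (v + w)/2 + |v - w| σ/2` (here `w` is `v_*`). -/
def vPrime (v w σ : ℂ) : ℂ := (v + w) / 2 + ((‖v - w‖ / 2 : ℝ) : ℂ) * σ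

/-- Post-collisional velocity `v'_* = (v + w)/2 - |v - w| σ/2` (here `w` is `v_*`). -/
def vPrimeStar (v w σ : ℂ) : ℂ := (v + w) / 2 - ((‖v - w‖ / 2 : ℝ) : ℂ) * σ

/-- `cos θ = ((v - w)/|v - w|) · σ`. -/
def cosTheta (v w σ : ℂ) : ℝ := inner ℝ (v - w) σ / ‖v - w‖

/-- The collision integrand `(f(v'_*) f(v') - f(w) f(v)) |v - w|^γ b(cos θ)` at `p = (w, α)`,
with `σ = e^{iα}`. -/
def collisionIntegrand (γ : ℝ) (b : ℝ → ℝ) (f : ℂ → ℝ) (v : ℂ) (p : ℂ × ℝ) : ℝ :=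
  (f (vPrimeStar v p.1 (Complex.exp (p.2 * Complex.I))) *
      f (vPrime v p.1 (Complex.exp (p.2 * Complex.I))) - f p.1 * f v) *
    (‖v - p.1‖ ^ γ * b (cosTheta v p.1 (Complex.exp (p.2 * Complex.I))))

/-- The Boltzmann collision operator `𝒬(f,f)(v)`, the integral over `w ∈ ℝ²` and the angle
`α ∈ (-π, π)` of `σ`. -/
def collisionOp (γ : ℝ) (b : ℝ → ℝ) (f : ℂ → ℝ) (v : ℂ) : ℝ :=
  ∫ w : ℂ, ∫ α in Ioo (-Real.pi) Real.pi, collisionIntegrand γ b f v (w, α)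

/-- The assumptions on the parameters and on the angular kernel, for `d = 2`. -/
def Admissible (s γ c : ℝ) (b : ℝ → ℝ) : Prop :=
  0 < s ∧ s < 1 ∧ -2 < γ ∧ 0 ≤ γ + 2 * s ∧ γ + 2 * s ≤ 2 ∧ 1 ≤ c ∧ Measurable b ∧
  ∀ θ ∈ Ioc 0 Real.pi,
    c⁻¹ * |Real.sin (θ / 2)| ^ (-(1 : ℝ) - 2 * s) ≤ b (Real.cos θ) ∧
    b (Real.cos θ) ≤ c * |Real.sin (θ / 2)| ^ (-(1 : ℝ) - 2 * s)

/-- `f` as a function of the point `(t, x, v)`. -/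
def joint (f : ℝ → ℂ → ℂ → ℝ) (p : ℝ × ℂ × ℂ) : ℝ := f p.1 p.2.1 p.2.2

/-- Classical solutions on `[-1,0] × B_1 × ℝ²`: `f` is `C^∞` in `(t,x,v)` on an open
neighbourhood of this set and nonnegative on it, all its derivatives decay faster than any power
of `|v|`, uniformly for `(t,x)` in `[-1,0] × B_1`, the collision integral converges absolutely,
and the Boltzmann equation holds pointwise. -/
structure IsClassicalSolution (γ : ℝ) (b : ℝ → ℝ) (f : ℝ → ℂ → ℂ → ℝ) : Prop where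
  smooth : ∃ U : Set (ℝ × ℂ × ℂ), IsOpen U ∧
    (Icc (-1 : ℝ) 0 ×ˢ ball (0 : ℂ) 1 ×ˢ (univ : Set ℂ)) ⊆ U ∧
    ContDiffOn ℝ (⊤ : ℕ∞) (joint f) U
  nonneg : ∀ t ∈ Icc (-1 : ℝ) 0, ∀ x ∈ ball (0 : ℂ) 1, ∀ v, 0 ≤ f t x v
  decay : ∀ n q : ℕ, ∃ C : ℝ, ∀ t ∈ Icc (-1 : ℝ) 0, ∀ x ∈ ball (0 : ℂ) 1, ∀ v,
    (1 + ‖v‖) ^ q * ‖iteratedFDeriv ℝ n (joint f) (t, x, v)‖ ≤ C
  integrable : ∀ t ∈ Icc (-1 : ℝ) 0, ∀ x ∈ ball (0 : ℂ) 1, ∀ v,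
    Integrable (collisionIntegrand γ b (f t x) v)
      ((volume : Measure ℂ).prod (volume.restrict (Ioo (-Real.pi) Real.pi)))
  equation : ∀ t ∈ Icc (-1 : ℝ) 0, ∀ x ∈ ball (0 : ℂ) 1, ∀ v,
    deriv (fun τ => f τ x v) t + fderiv ℝ (fun y => f t y v) x v = collisionOp γ b (f t x) v

/-- Hypothesis (H) on `(-1,0] × B_1`: `m₀ ≤ M ≤ M₀`, `E ≤ E₀` and `H ≤ H₀` there, for the
mass, energy and entropy densities. -/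
def HydroBounds (m₀ M₀ E₀ H₀ : ℝ) (f : ℝ → ℂ → ℂ → ℝ) : Prop :=
  ∀ t ∈ Ioc (-1 : ℝ) 0, ∀ x ∈ ball (0 : ℂ) 1,
    m₀ ≤ ∫ v, f t x v ∧ ∫ v, f t x v ≤ M₀ ∧ ∫ v, f t x v * ‖v‖ ^ 2 ≤ E₀ ∧
    ∫ v, f t x v * Real.log (f t x v) ≤ H₀

/-- The interior estimate of the question for derivatives of order `k` and the weight
`(1+|v|)^q`, for the kernel `|v - w|^γ b(cos θ)`: for all `m₀ > 0`, `M₀`, `E₀`, `H₀` and all bounds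
`N_r` (used when `γ ≤ 0`) there is `C` with
`(1+|v|)^q |D^k f| ≤ C` on `(-1/2,0] × B_{1/2} × ℝ²` for all classical solutions with (H) and
`(1+|v|)^r f(-1,x,v) ≤ N_r`. -/
def InteriorEstimate (γ : ℝ) (b : ℝ → ℝ) (k : ℕ) (q : ℝ) : Prop :=
  ∀ m₀ M₀ E₀ H₀ : ℝ, 0 < m₀ → ∀ N : ℝ → ℝ, ∃ C : ℝ, ∀ f : ℝ → ℂ → ℂ → ℝ,
    IsClassicalSolution γ b f → HydroBounds m₀ M₀ E₀ H₀ f →
    (γ ≤ 0 → ∀ r, 0 ≤ r → ∀ x ∈ ball (0 : ℂ) 1, ∀ v, (1 + ‖v‖) ^ r * f (-1) x v ≤ N r) →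
    ∀ t ∈ Ioc (-(1 / 2) : ℝ) 0, ∀ x ∈ ball (0 : ℂ) (1 / 2), ∀ v,
      (1 + ‖v‖) ^ q * ‖iteratedFDeriv ℝ k (joint f) (t, x, v)‖ ≤ C

/-- The weaker interior estimate in which the constant may depend on all `N_r` for every `γ`,
that is, the bounds `(1+|v|)^r f(-1,x,v) ≤ N_r` on `B_1 × ℝ²` are imposed for `γ > 0` as well. -/
def InteriorEstimateN (γ : ℝ) (b : ℝ → ℝ) (k : ℕ) (q : ℝ) : Prop :=
  ∀ m₀ M₀ E₀ H₀ : ℝ, 0 < m₀ → ∀ N : ℝ → ℝ, ∃ C : ℝ, ∀ f : ℝ → ℂ → ℂ → ℝ,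
    IsClassicalSolution γ b f → HydroBounds m₀ M₀ E₀ H₀ f →
    (∀ r, 0 ≤ r → ∀ x ∈ ball (0 : ℂ) 1, ∀ v, (1 + ‖v‖) ^ r * f (-1) x v ≤ N r) →
    ∀ t ∈ Ioc (-(1 / 2) : ℝ) 0, ∀ x ∈ ball (0 : ℂ) (1 / 2), ∀ v,
      (1 + ‖v‖) ^ q * ‖iteratedFDeriv ℝ k (joint f) (t, x, v)‖ ≤ C

end Pool.Agent.Boltzmann2
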