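import Pool.Agent.MP_08d8de_an.QFam
import Pool.Agent.MP_08d8de_an.Defs

/-! From the `σ`-form of the collision operator to the `(z, θ)`-form. -/

open MeasureTheory Set Filter Topology
open scoped Real ENNReal

noncomputable section

namespace Pool.MP08d8de

open Pool.Agent.Boltzmann2

/-- The collision measure with kernel `|z|^{-2s} b(cos θ)`. -/
def muB (s : ℝ) (b : ℝ → ℝ) : Measure (ℂ × ℝ) :=
  prodM.withDensity (fun p => ENNReal.ofReal (‖p.1‖ ^ (-(2 * s)) * b (Real.cos p.2)))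

lemma ae_angle : ∀ᵐ p : ℂ × ℝ ∂prodM, p.2 ∈ Ioo (-π) π ∧ p.2 ≠ 0 := by
  have h1 : ∀ᵐ θ : ℝ ∂(volume.restrict (Ioo (-π) π)), θ ∈ Ioo (-π) π ∧ θ ≠ 0 := by
    have h2 : ∀ᵐ θ : ℝ ∂(volume.restrict (Ioo (-π) π)), θ ∈ Ioo (-π) π :=
      ae_restrict_mem measurableSet_Ioo
    have h3 : ∀ᵐ θ : ℝ ∂(volume.restrict (Ioo (-π) π)), θ ≠ 0 := by
      apply ae_restrict_of_ae
      simp [ae_iff]
    filter_upwards [h2, h3] with θ a b
    exact ⟨a, b⟩
  exact (Measure.quasiMeasurePreserving_snd (μ := (volume : Measure ℂ))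
    (ν := volume.restrict (Ioo (-π) π))).ae h1

lemma adm_b_bounds {s γ c : ℝ} {b : ℝ → ℝ} (h : Admissible s γ c b) {θ : ℝ}
    (hθ : θ ∈ Ioo (-π) π) (h0 : θ ≠ 0) :
    0 ≤ b (Real.cos θ) ∧ b (Real.cos θ) ≤ c * Sang s θ := by
  obtain ⟨hs0, hs1, hγ, hγ1, hγ2, hc, hbm, hb⟩ := h
  have habs : |θ| ∈ Ioc 0 π := ⟨abs_pos.2 h0, abs_le.2 ⟨hθ.1.le, hθ.2.le⟩⟩
  obtain ⟨h1, h2⟩ := hb |θ| habs
  rw [Real.cos_abs] at h1 h2
  have h3 : |Real.sin (|θ| / 2)| = |Real.sin (θ / 2)| := by
    rcases abs_cases θ with ⟨h, _⟩ | ⟨h, _⟩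
    · rw [h]
    · rw [h, neg_div, Real.sin_neg, abs_neg]
  rw [h3] at h1 h2
  constructor
  · refine le_trans ?_ h1
    positivity
  · unfold Sang
    rw [show -(1 + 2 * s) = -1 - 2 * s by ring]
    exact h2

lemma muB_dom {s γ c : ℝ} {b : ℝ → ℝ} (h : Admissible s γ c b) : DomM s (muB s b) := by
  have hc : 1 ≤ c := h.2.2.2.2.2.1
  refine ⟨c, by linarith, ?_⟩
  unfold muB muK
  have hmk := measurable_kern s
  rw [← withDensity_smul _ (by fun_prop)]
  apply withDensity_mono
  filter_upwards [ae_angle] with p hp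
  obtain ⟨h1, h2⟩ := adm_b_bounds h hp.1 hp.2
  rw [Pi.smul_apply, smul_eq_mul, ← ENNReal.ofReal_mul (by linarith)]
  apply ENNReal.ofReal_le_ofReal
  rw [kern_eq]
  have h3 : 0 ≤ ‖p.1‖ ^ (-(2 * s)) := by positivity
  calc _ ≤ ‖p.1‖ ^ (-(2 * s)) * (c * Sang s p.2) := mul_le_mul_of_nonneg_left h2 h3
    _ = _ := by ring

/-! ### Rotation of the angle -/

lemma periodic_exp (Φ : ℂ → ℝ) :
    Function.Periodic (fun α : ℝ => Φ (Complex.exp (α * Complex.I))) (2 * π) := by
  intro α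
  simp only
  congr 1
  push_cast
  rw [add_mul, Complex.exp_add, Complex.exp_two_pi_mul_I, mul_one]

lemma rot_integral (Φ : ℂ → ℝ) {u : ℂ} (hu : ‖u‖ = 1) :
    ∫ α in Ioo (-π) π, Φ (Complex.exp (α * Complex.I)) =
      ∫ θ in Ioo (-π) π, Φ (u * Complex.exp (θ * Complex.I)) := by
  have hπ := Real.pi_pos
  have hexp : Complex.exp (u.arg * Complex.I) = u := by
    have := Complex.norm_mul_exp_arg_mul_I u
    rwa [hu, Complex.ofReal_one, one_mul] at this
  have h1 : ∀ θ : ℝ, Φ (u * Complex.exp (θ * Complex.I)) =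
      (fun α : ℝ => Φ (Complex.exp (α * Complex.I))) (θ + u.arg) := by
    intro θ
    simp only
    congr 1
    push_cast
    rw [add_mul, Complex.exp_add, hexp, mul_comm]
  simp_rw [h1]
  rw [← integral_Ioc_eq_integral_Ioo, ← integral_Ioc_eq_integral_Ioo,
    ← intervalIntegral.integral_of_le (by linarith), ← intervalIntegral.integral_of_le (by linarith),
    intervalIntegral.integral_comp_add_right (fun α : ℝ => Φ (Complex.exp (α * Complex.I)))]
  have h2 := (periodic_exp Φ).intervalIntegral_add_eq (-π) (-π + u.arg)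
  rw [show -π + 2 * π = π by ring, show -π + u.arg + 2 * π = π + u.arg by ring] at h2
  exact h2

lemma rot_integrable (Φ : ℂ → ℝ) {u : ℂ} (hu : ‖u‖ = 1)
    (h : Integrable (fun θ : ℝ => Φ (u * Complex.exp (θ * Complex.I)))
      (volume.restrict (Ioo (-π) π))) :
    Integrable (fun α : ℝ => Φ (Complex.exp (α * Complex.I))) (volume.restrict (Ioo (-π) π)) := by
  have hπ := Real.pi_pos
  have hexp : Complex.exp (u.arg * Complex.I) = u := by
    have := Complex.norm_mul_exp_arg_mul_I u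
    rwa [hu, Complex.ofReal_one, one_mul] at this
  have h1 : (fun θ : ℝ => Φ (u * Complex.exp (θ * Complex.I))) =
      fun θ => (fun α : ℝ => Φ (Complex.exp (α * Complex.I))) (θ + u.arg) := by
    ext θ
    simp only
    congr 1
    push_cast
    rw [add_mul, Complex.exp_add, hexp, mul_comm]
  rw [h1] at h
  have h2 : IntervalIntegrable (fun θ => (fun α : ℝ => Φ (Complex.exp (α * Complex.I)))
      (θ + u.arg)) volume (-π) π := by
    rw [intervalIntegrable_iff_integrableOn_Ioo_of_le (by linarith)]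
    exact h
  have h3 := h2.comp_add_right (-u.arg)
  simp only [neg_add_cancel_right, sub_neg_eq_add] at h3
  have h4 : IntervalIntegrable (fun α : ℝ => Φ (Complex.exp (α * Complex.I))) volume
      (-π + u.arg) (-π + u.arg + 2 * π) := by
    rw [show -π + u.arg + 2 * π = π + u.arg by ring]
    exact h3
  have h5 := (periodic_exp Φ).intervalIntegrable (by positivity) h4 (-π) π
  rw [intervalIntegrable_iff_integrableOn_Ioo_of_le (by linarith)] at h5
  exact h5

/-- the `σ`-form integrand as a function of `σ` -/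
def CI (γ : ℝ) (b : ℝ → ℝ) (f : ℂ → ℝ) (v w σ : ℂ) : ℝ :=
  (f (vPrimeStar v w σ) * f (vPrime v w σ) - f w * f v) * (‖v - w‖ ^ γ * b (cosTheta v w σ))

/-- the `(z, θ)`-form difference -/
def Dz (f : ℂ → ℝ) (v : ℂ) (p : ℂ × ℝ) : ℝ :=
  f (v + aa p.2 * p.1) * f (v + bb p.2 * p.1) - f (v + p.1) * f v

lemma CI_eq (γ : ℝ) (b : ℝ → ℝ) (f : ℂ → ℝ) {v w : ℂ} (hw : w ≠ v) (θ : ℝ) :
    CI γ b f v w ((v - w) / (‖v - w‖ : ℂ) * Complex.exp (θ * Complex.I)) =
      (‖w - v‖ ^ γ * b (Real.cos θ)) * Dz f v (w - v, θ) := by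
  have hne : v - w ≠ 0 := sub_ne_zero.2 hw.symm
  have hn : (‖v - w‖ : ℂ) ≠ 0 := by
    rw [Ne, Complex.ofReal_eq_zero, norm_eq_zero]; exact hne
  have hn' : ‖v - w‖ ≠ 0 := norm_ne_zero_iff.2 hne
  set e := Complex.exp (θ * Complex.I) with he
  have h1 : vPrime v w ((v - w) / (‖v - w‖ : ℂ) * e) = v + bb θ * (w - v) := by
    unfold vPrime bb
    push_cast
    rw [← he]
    field_simp
    ring
  have h2 : vPrimeStar v w ((v - w) / (‖v - w‖ : ℂ) * e) = v + aa θ * (w - v) := by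
    unfold vPrimeStar aa
    push_cast
    rw [← he]
    field_simp
    ring
  have h3 : cosTheta v w ((v - w) / (‖v - w‖ : ℂ) * e) = Real.cos θ := by
    unfold cosTheta
    have h4 : inner ℝ (v - w) ((v - w) / (‖v - w‖ : ℂ) * e) = ‖v - w‖ * Real.cos θ := by
      rw [Complex.inner]
      have h5 : (starRingEnd ℂ) (v - w) * ((v - w) / (‖v - w‖ : ℂ) * e) =
          (‖v - w‖ : ℂ) * e := by
        have h6 : (starRingEnd ℂ) (v - w) * (v - w) = (‖v - w‖ : ℂ) ^ 2 := by
          rw [mul_comm, Complex.mul_conj, Complex.normSq_eq_norm_sq]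
          push_cast; rfl
        rw [div_mul_eq_mul_div, mul_div_assoc', ← mul_assoc, h6]
        field_simp
      rw [mul_comm, h5, Complex.re_ofReal_mul, he, Complex.exp_ofReal_mul_I_re]
    rw [h4, mul_div_assoc, mul_comm, div_mul_cancel₀ _ hn']
  unfold CI Dz
  rw [h1, h2, h3, norm_sub_rev w v]
  simp only [add_sub_cancel]
  ring

theorem bridge {s γ c : ℝ} {b : ℝ → ℝ} (h : Admissible s γ c b) {f : ℂ → ℝ} (hf : Measurable f)
    (v : ℂ) (hint : Integrable (Dz f v) (muB s b)) :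
    Integrable (collisionIntegrand (-(2 * s)) b f v)
      ((volume : Measure ℂ).prod (volume.restrict (Ioo (-π) π))) ∧
    collisionOp (-(2 * s)) b f v = ∫ p, Dz f v p ∂(muB s b) := by
  have hbm : Measurable b := h.2.2.2.2.2.2.1
  set q : ℂ × ℝ → ℝ := fun p => (‖p.1‖ ^ (-(2 * s)) * b (Real.cos p.2)) * Dz f v p with hq
  have hdm : Measurable (fun p : ℂ × ℝ =>
      ENNReal.ofReal (‖p.1‖ ^ (-(2 * s)) * b (Real.cos p.2))) := by fun_prop
  have hae : (fun p : ℂ × ℝ => (ENNReal.ofReal (‖p.1‖ ^ (-(2 * s)) * b (Real.cos p.2))).toReal •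
      Dz f v p) =ᵐ[prodM] q := by
    filter_upwards [ae_angle] with p hp
    have h1 := (adm_b_bounds h hp.1 hp.2).1
    rw [ENNReal.toReal_ofReal (by positivity)]
    rfl
  have hqi : Integrable q prodM := by
    unfold muB at hint
    rw [integrable_withDensity_iff_integrable_smul' hdm
      (Eventually.of_forall fun p => ENNReal.ofReal_lt_top)] at hint
    exact hint.congr hae
  have hqv : ∫ p, Dz f v p ∂(muB s b) = ∫ p, q p ∂prodM := by
    unfold muB
    rw [integral_withDensity_eq_integral_toReal_smul hdm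
      (Eventually.of_forall fun p => ENNReal.ofReal_lt_top)]
    exact integral_congr_ae hae
  have hne : ∀ᵐ w : ℂ, w ≠ v := by simp [ae_iff]
  have hu : ∀ w : ℂ, w ≠ v → ‖(v - w) / (‖v - w‖ : ℂ)‖ = 1 := by
    intro w hw
    rw [norm_div, Complex.norm_real, norm_norm, div_self]
    exact norm_ne_zero_iff.2 (sub_ne_zero.2 hw.symm)
  -- inner integrals
  have hin : ∀ w : ℂ, w ≠ v → ∀ Ψ : ℝ → ℝ,
      ∫ α in Ioo (-π) π, Ψ (collisionIntegrand (-(2 * s)) b f v (w, α)) =
        ∫ θ in Ioo (-π) π, Ψ (q (w - v, θ)) := by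
    intro w hw Ψ
    have h1 := rot_integral (fun σ => Ψ (CI (-(2 * s)) b f v w σ)) (hu w hw)
    simp only [CI_eq (-(2 * s)) b f hw] at h1
    exact h1
  have hqi1 := (integrable_prod_iff hqi.1).1 hqi
  have hmp := measurePreserving_sub_right (volume : Measure ℂ) v
  have hmeas : AEStronglyMeasurable (collisionIntegrand (-(2 * s)) b f v)
      ((volume : Measure ℂ).prod (volume.restrict (Ioo (-π) π))) := by
    apply Measurable.aestronglyMeasurable
    unfold collisionIntegrand vPrime vPrimeStar cosTheta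
    fun_prop
  constructor
  · rw [integrable_prod_iff hmeas]
    constructor
    · have h1 : ∀ᵐ w : ℂ, Integrable (fun θ => q (w - v, θ)) (volume.restrict (Ioo (-π) π)) :=
        hmp.quasiMeasurePreserving.ae hqi1.1
      filter_upwards [h1, hne] with w h2 hw
      have h3 := rot_integrable (fun σ => CI (-(2 * s)) b f v w σ) (hu w hw) (by
        simp only [CI_eq (-(2 * s)) b f hw]
        exact h2)
      exact h3
    · have h1 : Integrable (fun w : ℂ => ∫ θ in Ioo (-π) π, ‖q (w - v, θ)‖) := by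
        exact (hmp.integrable_comp hqi1.2.1).2 hqi1.2
      refine h1.congr ?_
      filter_upwards [hne] with w hw
      exact (hin w hw (fun r => ‖r‖)).symm
  · rw [hqv, integral_prod _ hqi]
    unfold collisionOp
    have h1 : ∫ w : ℂ, ∫ α in Ioo (-π) π, collisionIntegrand (-(2 * s)) b f v (w, α) =
        ∫ w : ℂ, ∫ θ in Ioo (-π) π, q (w - v, θ) := by
      apply integral_congr_ae
      filter_upwards [hne] with w hw
      exact hin w hw id
    rw [h1]
    exact integral_sub_right_eq_self (fun z => ∫ θ in Ioo (-π) π, q (z, θ)) v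

end Pool.MP08d8de
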