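import Pool.Agent.MP_08d8de_an.Reg4

/-! Gaussian data and their analytic bounds. -/

open MeasureTheory Set Filter Topology
open scoped Real ContDiff

noncomputable section

namespace Pool.MP08d8de

/-- The 1D Gaussian `e^{-4x^2}`. -/
def ug (x : ℝ) : ℝ := Real.exp (-(4 * x ^ 2))

def ugC (z : ℂ) : ℂ := Complex.exp (-(4 * z ^ 2))

lemma contDiff_ug : ContDiff ℝ ∞ ug := by unfold ug; fun_prop

lemma differentiable_ugC : Differentiable ℂ ugC := by unfold ugC; fun_prop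

lemma contDiff_ugC : ContDiff ℂ ∞ ugC := by unfold ugC; fun_prop

lemma iteratedDeriv_ug (n : ℕ) (x : ℝ) : ((iteratedDeriv n ug x : ℝ) : ℂ) =
    iteratedDeriv n ugC (x : ℂ) := by
  induction n generalizing x with
  | zero =>
    simp only [iteratedDeriv_zero]
    unfold ug ugC
    push_cast
    rfl
  | succ n ih =>
    have h1 : HasDerivAt (iteratedDeriv n ugC) (iteratedDeriv (n + 1) ugC (x : ℂ)) (x : ℂ) := by
      have hd : Differentiable ℂ (iteratedDeriv n ugC) :=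
        contDiff_ugC.differentiable_iteratedDeriv n (by exact_mod_cast ENat.natCast_lt_top n)
      rw [iteratedDeriv_succ]
      exact (hd _).hasDerivAt
    have h2 := h1.comp_ofReal
    have h3 : HasDerivAt (iteratedDeriv n ug) (iteratedDeriv (n + 1) ug x) x := by
      have hd : Differentiable ℝ (iteratedDeriv n ug) :=
        contDiff_ug.differentiable_iteratedDeriv n (by exact_mod_cast ENat.natCast_lt_top n)
      rw [iteratedDeriv_succ]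
      exact (hd _).hasDerivAt
    have h4 := h3.ofReal_comp
    have h5 : (fun y : ℝ => ((iteratedDeriv n ug y : ℝ) : ℂ)) =
        fun y : ℝ => iteratedDeriv n ugC (y : ℂ) := by ext1 y; exact ih y
    rw [h5] at h4
    exact h4.unique h2

lemma ug_bound (n : ℕ) (x : ℝ) : ‖iteratedFDeriv ℝ n ug x‖ ≤
    Real.exp 16 * ((n.factorial : ℝ) / 2 ^ n) * Real.exp (-(2 * x ^ 2)) := by
  rw [norm_iteratedFDeriv_eq_norm_iteratedDeriv]
  have h1 : ‖iteratedDeriv n ug x‖ = ‖iteratedDeriv n ugC (x : ℂ)‖ := by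
    rw [← iteratedDeriv_ug, Complex.norm_real]
  rw [h1]
  have h2 := Complex.norm_iteratedDeriv_le_of_forall_mem_sphere_norm_le (c := (x : ℂ)) (R := 2)
    (C := Real.exp 16 * Real.exp (-(2 * x ^ 2))) (f := ugC) n (by norm_num)
    differentiable_ugC.diffContOnCl ?_
  · refine h2.trans (le_of_eq ?_)
    ring
  · intro z hz
    rw [mem_sphere_iff_norm] at hz
    unfold ugC
    rw [Complex.norm_exp, ← Real.exp_add]
    apply Real.exp_le_exp.2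
    have h3 : (z - x).re ^ 2 + (z - x).im ^ 2 = 4 := by
      have := Complex.sq_norm (z - x)
      rw [hz, Complex.normSq_apply] at this
      nlinarith
    simp only [Complex.sub_re, Complex.ofReal_re, Complex.sub_im, Complex.ofReal_im, sub_zero] at h3
    have h4 : (-(4 * z ^ 2)).re = -(4 * (z.re ^ 2 - z.im ^ 2)) := by
      simp [pow_two, Complex.mul_re]
    rw [h4]
    nlinarith [sq_nonneg (z.re + (z.re - x)), sq_nonneg (2 * z.re - x)]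

/-- Polynomially corrected analytic bound, with spatial profile `W`. -/
def PB (a : ℝ) (k : ℕ) (W : ℝ × ℂ → ℝ) (f : ℝ × ℂ → ℝ) : Prop :=
  ContDiff ℝ ∞ f ∧ ∀ n x, ‖iteratedFDeriv ℝ n f x‖ ≤
    a * ((n.factorial : ℝ) / 2 ^ n) * ((n : ℝ) + 1) ^ k * W x

lemma PB.mul {a b : ℝ} {k l : ℕ} {W W' f g : ℝ × ℂ → ℝ} (ha : 0 ≤ a) (hb : 0 ≤ b)
    (hW : ∀ x, 0 ≤ W x) (hW' : ∀ x, 0 ≤ W' x) (hf : PB a k W f) (hg : PB b l W' g) :
    PB (a * b) (k + l + 1) (fun x => W x * W' x) (fun x => f x * g x) := by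
  refine ⟨hf.1.mul hg.1, fun n x => ?_⟩
  refine (norm_iteratedFDeriv_mul_le hf.1 hg.1 x (by exact_mod_cast le_top)).trans ?_
  have hWx := hW x
  have hWx' := hW' x
  have h1 : ∀ i ∈ Finset.range (n + 1), (n.choose i : ℝ) * ‖iteratedFDeriv ℝ i f x‖ *
      ‖iteratedFDeriv ℝ (n - i) g x‖ ≤
      a * b * ((n.factorial : ℝ) / 2 ^ n) * ((n : ℝ) + 1) ^ (k + l) * (W x * W' x) := by
    intro i hi
    have hi' : i ≤ n := Nat.lt_succ_iff.1 (Finset.mem_range.1 hi)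
    have hc : (n.choose i : ℝ) * (i.factorial : ℝ) * ((n - i).factorial : ℝ) =
        (n.factorial : ℝ) := by
      exact_mod_cast Nat.choose_mul_factorial_mul_factorial hi'
    have hp : (2 : ℝ) ^ i * 2 ^ (n - i) = 2 ^ n := by rw [← pow_add, Nat.add_sub_cancel' hi']
    have e1 : ((i : ℝ) + 1) ^ k ≤ ((n : ℝ) + 1) ^ k := by
      have : (i : ℝ) ≤ n := by exact_mod_cast hi'
      gcongr
    have e2 : (((n - i : ℕ) : ℝ) + 1) ^ l ≤ ((n : ℝ) + 1) ^ l := by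
      have : ((n - i : ℕ) : ℝ) ≤ n := by exact_mod_cast Nat.sub_le _ _
      gcongr
    calc _ ≤ (n.choose i : ℝ) * (a * ((i.factorial : ℝ) / 2 ^ i) * ((i : ℝ) + 1) ^ k * W x) *
          (b * (((n - i).factorial : ℝ) / 2 ^ (n - i)) * (((n - i : ℕ) : ℝ) + 1) ^ l * W' x) := by
          apply mul_le_mul _ (hg.2 _ _) (norm_nonneg _) (by positivity)
          exact mul_le_mul_of_nonneg_left (hf.2 _ _) (by positivity)
      _ ≤ (n.choose i : ℝ) * (a * ((i.factorial : ℝ) / 2 ^ i) * ((n : ℝ) + 1) ^ k * W x) *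
          (b * (((n - i).factorial : ℝ) / 2 ^ (n - i)) * ((n : ℝ) + 1) ^ l * W' x) := by
          gcongr
      _ = a * b * (((n.choose i : ℝ) * (i.factorial : ℝ) * ((n - i).factorial : ℝ)) /
          (2 ^ i * 2 ^ (n - i))) * ((n : ℝ) + 1) ^ (k + l) * (W x * W' x) := by
          rw [pow_add]
          field_simp
      _ = _ := by rw [hc, hp]
  refine (Finset.sum_le_sum h1).trans (le_of_eq ?_)
  rw [Finset.sum_const, Finset.card_range, nsmul_eq_mul]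
  push_cast
  ring

/-- 1D Gaussians of a coordinate of norm at most one. -/
lemma PB.gauss (L : (ℝ × ℂ) →L[ℝ] ℝ) (hL : ‖L‖ ≤ 1) (c : ℝ) :
    PB (Real.exp 16) 0 (fun x => Real.exp (-(2 * (L x - c) ^ 2))) (fun x => ug (L x - c)) := by
  have h1 : ContDiff ℝ ∞ (fun y : ℝ => ug (y - c)) := contDiff_ug.comp (contDiff_id.sub contDiff_const)
  refine ⟨h1.comp L.contDiff, fun n x => ?_⟩
  refine (norm_iteratedFDeriv_comp_clm_le L hL h1 n x).trans ?_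
  have h2 : iteratedFDeriv ℝ n (fun y : ℝ => ug (y - c)) (L x) = iteratedFDeriv ℝ n ug (L x - c) := by
    rw [iteratedFDeriv_comp_sub]
  rw [h2, pow_zero, mul_one]
  exact ug_bound n _

lemma exists_pow_bound (k : ℕ) : ∃ C : ℝ, 0 ≤ C ∧ ∀ n : ℕ, ((n : ℝ) + 1) ^ k ≤ C * 2 ^ n := by
  have h := tendsto_pow_const_div_const_pow_of_one_lt k (show (1 : ℝ) < 2 by norm_num)
  obtain ⟨C, hC⟩ := h.bddAbove_range
  refine ⟨2 * |C|, by positivity, fun n => ?_⟩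
  have h1 : ((n + 1 : ℕ) : ℝ) ^ k / 2 ^ (n + 1) ≤ C := hC ⟨n + 1, rfl⟩
  rw [div_le_iff₀ (by positivity)] at h1
  push_cast at h1
  calc _ ≤ C * 2 ^ (n + 1) := h1
    _ ≤ |C| * 2 ^ (n + 1) := by gcongr; exact le_abs_self C
    _ = _ := by ring

/-- coordinate functionals -/
def Lx : (ℝ × ℂ) →L[ℝ] ℝ := ContinuousLinearMap.fst ℝ ℝ ℂ
def Lr : (ℝ × ℂ) →L[ℝ] ℝ := Complex.reCLM.comp (ContinuousLinearMap.snd ℝ ℝ ℂ)
def Li : (ℝ × ℂ) →L[ℝ] ℝ := Complex.imCLM.comp (ContinuousLinearMap.snd ℝ ℝ ℂ)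

lemma norm_Lx : ‖Lx‖ ≤ 1 := ContinuousLinearMap.norm_fst_le ℝ ℝ ℂ
lemma norm_Lr : ‖Lr‖ ≤ 1 := by
  refine (ContinuousLinearMap.opNorm_comp_le _ _).trans ?_
  have h1 := ContinuousLinearMap.norm_snd_le ℝ ℝ ℂ
  have h2 : ‖Complex.reCLM‖ ≤ 1 := Complex.reCLM_norm.le
  nlinarith [norm_nonneg (ContinuousLinearMap.snd ℝ ℝ ℂ), norm_nonneg Complex.reCLM]
lemma norm_Li : ‖Li‖ ≤ 1 := by
  refine (ContinuousLinearMap.opNorm_comp_le _ _).trans ?_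
  have h1 := ContinuousLinearMap.norm_snd_le ℝ ℝ ℂ
  have h2 : ‖Complex.imCLM‖ ≤ 1 := Complex.imCLM_norm.le
  nlinarith [norm_nonneg (ContinuousLinearMap.snd ℝ ℝ ℂ), norm_nonneg Complex.imCLM]

/-- Unnormalised background and beam. -/
def gbg (x : ℝ × ℂ) : ℝ := ug (Lr x - 0) * ug (Li x - 0)
def gbeam (R : ℝ) (x : ℝ × ℂ) : ℝ := ug (Lx x - R / 4) * (ug (Lr x - R) * ug (Li x - 0))

lemma gbg_eq (x : ℝ × ℂ) : gbg x = Real.exp (-(4 * ‖x.2‖ ^ 2)) := by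
  unfold gbg ug Lr Li
  rw [← Real.exp_add, Complex.sq_norm, Complex.normSq_apply]
  simp
  ring

lemma gbeam_eq (R : ℝ) (x : ℝ × ℂ) :
    gbeam R x = Real.exp (-(4 * ((x.1 - R / 4) ^ 2 + ‖x.2 - R‖ ^ 2))) := by
  unfold gbeam ug Lr Li Lx
  rw [← Real.exp_add, ← Real.exp_add, Complex.sq_norm, Complex.normSq_apply]
  simp
  ring

/-- The initial datum (per unit of `ε`). -/
def gin0 (P : ℕ) (R : ℝ) (x : ℝ × ℂ) : ℝ := gbg x + (R ^ P)⁻¹ * gbeam R x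

lemma gin0_smooth (P : ℕ) (R : ℝ) : ContDiff ℝ ∞ (gin0 P R) := by
  have h : ∀ (L : (ℝ × ℂ) →L[ℝ] ℝ) (c : ℝ), ContDiff ℝ ∞ (fun x => ug (L x - c)) := fun L c =>
    contDiff_ug.comp (L.contDiff.sub contDiff_const)
  unfold gin0 gbg gbeam
  exact ((h _ _).mul (h _ _)).add (contDiff_const.mul ((h _ _).mul ((h _ _).mul (h _ _))))

lemma gin0_pos {P : ℕ} {R : ℝ} (hR : 0 < R) (x : ℝ × ℂ) : 0 < gin0 P R x := by
  unfold gin0
  rw [gbg_eq, gbeam_eq]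
  positivity

/-- The background profile is bounded by the weight. -/
lemma bg_le_wt (P : ℕ) : ∃ C : ℝ, 0 ≤ C ∧ ∀ κ : ℝ, κ ≤ 1 → ∀ v : ℂ,
    Real.exp (-(2 * ‖v‖ ^ 2)) ≤ C * wt P κ v := by
  obtain ⟨C, hC0, hC⟩ := exp_poly_bound one_pos P
  refine ⟨C, hC0, fun κ hκ v => ?_⟩
  have h1 := hC ‖v‖ (norm_nonneg v)
  unfold wt J
  have h2 : Real.exp (-(2 * ‖v‖ ^ 2)) = Real.exp (-(1 * ‖v‖ ^ 2)) * Real.exp (-(1 * ‖v‖ ^ 2)) := by
    rw [← Real.exp_add]; congr 1; ring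
  have h3 : Real.exp (-(1 * ‖v‖ ^ 2)) ≤ Real.exp (-(κ * ‖v‖ ^ 2)) := by
    apply Real.exp_le_exp.2
    nlinarith [sq_nonneg ‖v‖]
  have h4 : Real.exp (-(1 * ‖v‖ ^ 2)) ≤ C * ((1 + ‖v‖) ^ P)⁻¹ := by
    rw [← div_eq_mul_inv, le_div_iff₀ (by positivity)]
    linarith
  calc _ = Real.exp (-(1 * ‖v‖ ^ 2)) * Real.exp (-(1 * ‖v‖ ^ 2)) := h2
    _ ≤ (C * ((1 + ‖v‖) ^ P)⁻¹) * Real.exp (-(κ * ‖v‖ ^ 2)) := by gcongr
    _ = _ := by ring

lemma beam_le_wt (P : ℕ) : ∃ C : ℝ, 0 ≤ C ∧ ∀ R : ℝ, 2 ≤ R → ∀ v : ℂ,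
    (R ^ P)⁻¹ * Real.exp (-(2 * ‖v - R‖ ^ 2)) ≤ C * wt P (1 / R ^ 2) v := by
  obtain ⟨C, hC0, hC⟩ := exp_poly_bound one_pos P
  refine ⟨2 ^ P * Real.exp 2 * C, by positivity, fun R hR v => ?_⟩
  set d := ‖v - R‖ with hd
  have hd0 : 0 ≤ d := norm_nonneg _
  have h1 := hC d hd0
  have hv : ‖v‖ ≤ R + d := by
    calc ‖v‖ = ‖(v - R) + R‖ := by ring_nf
      _ ≤ ‖v - R‖ + ‖(R : ℂ)‖ := norm_add_le _ _
      _ = R + d := by
        rw [Complex.norm_real, Real.norm_eq_abs, abs_of_nonneg (by linarith)]; ring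
  have hR0 : 0 < R := by linarith
  have h2 : (1 + ‖v‖) ^ P ≤ R ^ P * (2 ^ P * (1 + d) ^ P) := by
    rw [← mul_pow, ← mul_pow]
    apply pow_le_pow_left₀ (by positivity)
    nlinarith [mul_nonneg (show (0 : ℝ) ≤ R - 1 by linarith) hd0]
  have h3 : Real.exp (1 / R ^ 2 * ‖v‖ ^ 2) ≤ Real.exp 2 * Real.exp (d ^ 2) := by
    rw [← Real.exp_add]
    apply Real.exp_le_exp.2
    have h4 : ‖v‖ ^ 2 ≤ 2 * R ^ 2 + 2 * d ^ 2 := by
      nlinarith [norm_nonneg v, sq_nonneg (R - d)]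
    have h5 : 1 / R ^ 2 * ‖v‖ ^ 2 ≤ 1 / R ^ 2 * (2 * R ^ 2 + 2 * d ^ 2) := by gcongr
    have h6 : 1 / R ^ 2 * (2 * R ^ 2 + 2 * d ^ 2) = 2 + 2 * d ^ 2 / R ^ 2 := by
      field_simp
    have h7 : 2 * d ^ 2 / R ^ 2 ≤ d ^ 2 := by
      rw [div_le_iff₀ (by positivity)]
      nlinarith [sq_nonneg d, mul_nonneg (sq_nonneg d) (show (0 : ℝ) ≤ R ^ 2 - 2 by nlinarith)]
    linarith
  unfold wt J
  have hE := Real.exp_pos (1 / R ^ 2 * ‖v‖ ^ 2)
  rw [Real.exp_neg (1 / R ^ 2 * ‖v‖ ^ 2)]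
  have h8 : Real.exp (-(2 * d ^ 2)) * Real.exp (d ^ 2) = Real.exp (-(1 * d ^ 2)) := by
    rw [← Real.exp_add]; congr 1; ring
  have goal : Real.exp (-(2 * d ^ 2)) * ((1 + ‖v‖) ^ P * Real.exp (1 / R ^ 2 * ‖v‖ ^ 2)) ≤
      R ^ P * (2 ^ P * Real.exp 2 * C) := by
    calc _ ≤ Real.exp (-(2 * d ^ 2)) * ((R ^ P * (2 ^ P * (1 + d) ^ P)) *
          (Real.exp 2 * Real.exp (d ^ 2))) := by gcongr
      _ = R ^ P * (2 ^ P * Real.exp 2 * ((1 + d) ^ P * (Real.exp (-(2 * d ^ 2)) *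
          Real.exp (d ^ 2)))) := by ring
      _ ≤ _ := by rw [h8]; gcongr
  have hRP : 0 < R ^ P := by positivity
  have hvP : 0 < (1 + ‖v‖) ^ P := by positivity
  rw [← sub_nonneg]
  have e : 2 ^ P * Real.exp 2 * C * (((1 + ‖v‖) ^ P)⁻¹ * (Real.exp (1 / R ^ 2 * ‖v‖ ^ 2))⁻¹) -
      (R ^ P)⁻¹ * Real.exp (-(2 * d ^ 2)) =
      (R ^ P * (2 ^ P * Real.exp 2 * C) -
        Real.exp (-(2 * d ^ 2)) * ((1 + ‖v‖) ^ P * Real.exp (1 / R ^ 2 * ‖v‖ ^ 2))) *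
      ((R ^ P)⁻¹ * (((1 + ‖v‖) ^ P)⁻¹ * (Real.exp (1 / R ^ 2 * ‖v‖ ^ 2))⁻¹)) := by
    field_simp
  rw [e]
  apply mul_nonneg (by linarith) (by positivity)

/-- **The datum satisfies the analytic bound uniformly in `R`.** -/
theorem gin0_bound (P : ℕ) : ∃ C : ℝ, 0 < C ∧ ∀ R : ℝ, 2 ≤ R → ∀ n x,
    ‖iteratedFDeriv ℝ n (gin0 P R) x‖ ≤ C * Nn 1 n * wt P (1 / R ^ 2) x.2 := by
  obtain ⟨C1, hC10, hC1⟩ := bg_le_wt P
  obtain ⟨C2, hC20, hC2⟩ := beam_le_wt P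
  obtain ⟨C3, hC30, hC3⟩ := exists_pow_bound 4
  set E := Real.exp 16 with hE
  have hE0 : 0 < E := Real.exp_pos _
  have hbg : PB (E * E) (0 + 0 + 1) _ gbg :=
    PB.mul hE0.le hE0.le (fun x => (Real.exp_pos _).le) (fun x => (Real.exp_pos _).le)
      (PB.gauss Lr norm_Lr 0) (PB.gauss Li norm_Li 0)
  have hbeam : ∀ R, PB (E * (E * E)) (0 + (0 + 0 + 1) + 1) _ (gbeam R) := fun R =>
    PB.mul hE0.le (by positivity) (fun x => (Real.exp_pos _).le)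
      (fun x => mul_nonneg (Real.exp_pos _).le (Real.exp_pos _).le)
      (PB.gauss Lx norm_Lx (R / 4))
      (PB.mul hE0.le hE0.le (fun x => (Real.exp_pos _).le) (fun x => (Real.exp_pos _).le)
      (PB.gauss Lr norm_Lr R) (PB.gauss Li norm_Li 0))
  refine ⟨E * E * C3 * C1 + E * (E * E) * C3 * C2 + 1, by positivity, fun R hR n x => ?_⟩
  have hκ : 1 / R ^ 2 ≤ 1 := by
    rw [div_le_one (by positivity)]; nlinarith
  have hw := wt_pos P (1 / R ^ 2) x.2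
  have hfac : (0 : ℝ) < n.factorial := by positivity
  -- the key scalar inequality
  have hk : ∀ j : ℕ, j ≤ 2 → ((n.factorial : ℝ) / 2 ^ n) * ((n : ℝ) + 1) ^ j ≤ C3 * Nn 1 n := by
    intro j hj
    unfold Nn
    have h1 : ((n : ℝ) + 1) ^ j ≤ ((n : ℝ) + 1) ^ 2 :=
      pow_le_pow_right₀ (by linarith [show (0 : ℝ) ≤ n by positivity]) hj
    have h2 := hC3 n
    rw [one_pow, inv_one, mul_one, div_mul_eq_mul_div, div_le_iff₀ (by positivity)]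
    have h3 : C3 * ((n.factorial : ℝ) / ((n : ℝ) + 1) ^ 2) * 2 ^ n =
        (n.factorial : ℝ) * (C3 * 2 ^ n) / ((n : ℝ) + 1) ^ 2 := by ring
    rw [h3, le_div_iff₀ (by positivity)]
    calc _ ≤ (n.factorial : ℝ) * ((n : ℝ) + 1) ^ 2 * ((n : ℝ) + 1) ^ 2 := by gcongr
      _ = (n.factorial : ℝ) * ((n : ℝ) + 1) ^ 4 := by ring
      _ ≤ _ := by gcongr
  have hN := Nn_pos one_pos n
  have e0 : iteratedFDeriv ℝ n (gin0 P R) x = iteratedFDeriv ℝ n gbg x +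
      (R ^ P)⁻¹ • iteratedFDeriv ℝ n (gbeam R) x := by
    have h0 : ContDiff ℝ ∞ (fun x => (R ^ P)⁻¹ • gbeam R x) :=
      (contDiff_const (c := (R ^ P)⁻¹)).smul (hbeam R).1
    have h1 : ContDiffAt ℝ n (fun x => (R ^ P)⁻¹ • gbeam R x) x := contDiffAt_nat h0 n x
    have h2 : gin0 P R = gbg + fun x => (R ^ P)⁻¹ • gbeam R x := by ext y; rfl
    rw [h2, iteratedFDeriv_add_apply (contDiffAt_nat hbg.1 n x) h1]
    congr 1
    exact iteratedFDeriv_const_smul_apply (a := (R ^ P)⁻¹) (contDiffAt_nat (hbeam R).1 n x)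
  rw [e0]
  refine (norm_add_le _ _).trans ?_
  rw [norm_smul, Real.norm_eq_abs, abs_of_pos (by positivity)]
  have hb1 := hbg.2 n x
  have hb2 := (hbeam R).2 n x
  have w1 : Real.exp (-(2 * (Lr x - 0) ^ 2)) * Real.exp (-(2 * (Li x - 0) ^ 2)) ≤
      C1 * wt P (1 / R ^ 2) x.2 := by
    refine le_trans (le_of_eq ?_) (hC1 _ hκ x.2)
    rw [← Real.exp_add, Complex.sq_norm, Complex.normSq_apply]
    unfold Lr Li
    simp
    ring
  have w2 : (R ^ P)⁻¹ * (Real.exp (-(2 * (Lx x - R / 4) ^ 2)) *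
      (Real.exp (-(2 * (Lr x - R) ^ 2)) * Real.exp (-(2 * (Li x - 0) ^ 2)))) ≤
      C2 * wt P (1 / R ^ 2) x.2 := by
    refine le_trans ?_ (hC2 R hR x.2)
    have h1 : Real.exp (-(2 * (Lr x - R) ^ 2)) * Real.exp (-(2 * (Li x - 0) ^ 2)) =
        Real.exp (-(2 * ‖x.2 - R‖ ^ 2)) := by
      rw [← Real.exp_add, Complex.sq_norm, Complex.normSq_apply]
      unfold Lr Li
      simp
      ring
    rw [h1]
    have h2 : Real.exp (-(2 * (Lx x - R / 4) ^ 2)) ≤ 1 := Real.exp_le_one_iff.2 (by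
      have := sq_nonneg (Lx x - R / 4); linarith)
    have h3 := Real.exp_pos (-(2 * ‖x.2 - (R : ℂ)‖ ^ 2))
    gcongr
    nlinarith
  have k1 := hk 1 (by norm_num)
  have k2 := hk 2 le_rfl
  calc _ ≤ (E * E) * ((n.factorial : ℝ) / 2 ^ n) * ((n : ℝ) + 1) ^ (0 + 0 + 1) *
        (Real.exp (-(2 * (Lr x - 0) ^ 2)) * Real.exp (-(2 * (Li x - 0) ^ 2))) +
        (R ^ P)⁻¹ * (E * (E * E) * ((n.factorial : ℝ) / 2 ^ n) *
          ((n : ℝ) + 1) ^ (0 + (0 + 0 + 1) + 1) * (Real.exp (-(2 * (Lx x - R / 4) ^ 2)) *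
      (Real.exp (-(2 * (Lr x - R) ^ 2)) * Real.exp (-(2 * (Li x - 0) ^ 2))))) := by
        gcongr
    _ = (E * E) * (((n.factorial : ℝ) / 2 ^ n) * ((n : ℝ) + 1) ^ 1) *
        (Real.exp (-(2 * (Lr x - 0) ^ 2)) * Real.exp (-(2 * (Li x - 0) ^ 2))) +
        (E * (E * E)) * (((n.factorial : ℝ) / 2 ^ n) * ((n : ℝ) + 1) ^ 2) *
        ((R ^ P)⁻¹ * (Real.exp (-(2 * (Lx x - R / 4) ^ 2)) *
      (Real.exp (-(2 * (Lr x - R) ^ 2)) * Real.exp (-(2 * (Li x - 0) ^ 2))))) := by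
        norm_num
        ring
    _ ≤ (E * E) * (C3 * Nn 1 n) * (C1 * wt P (1 / R ^ 2) x.2) +
        (E * (E * E)) * (C3 * Nn 1 n) * (C2 * wt P (1 / R ^ 2) x.2) := by
        gcongr
    _ = (E * E * C3 * C1 + E * (E * E) * C3 * C2) * (Nn 1 n * wt P (1 / R ^ 2) x.2) := by ring
    _ ≤ (E * E * C3 * C1 + E * (E * E) * C3 * C2 + 1) * (Nn 1 n * wt P (1 / R ^ 2) x.2) := by
        apply mul_le_mul_of_nonneg_right (by linarith) (by positivity)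
    _ = _ := by ring

end Pool.MP08d8de
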