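import Pool.Agent.MP_08d8de_an.Positivity

/-! Minimum principle: positivity of the solution. -/

open MeasureTheory Set Filter Topology
open scoped Real ENNReal ContDiff Nat

noncomputable section

namespace Pool.MP08d8de

/-- Lower bound of the collision operator near a negative minimum of `F = g/ω`. -/
lemma QQ_lower {s : ℝ} (hs0 : 0 < s) (hs1 : s < 1 / 2) {ν : Measure (ℂ × ℝ)}
    (hν : DomM s ν) {k L M0 : ℝ} (hk : 0 < k) (hL : 0 < L)
    (hM0 : 0 < M0) :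
    ∃ C1 C2 : ℝ, 0 ≤ C1 ∧ 0 ≤ C2 ∧ ∀ (σ : ℂ →L[ℝ] (ℝ × ℂ)) (F g : ℝ × ℂ → ℝ) (x : ℝ × ℂ) (m δ : ℝ),
      (∀ w, pr2 (σ w) = w) → (∀ y, |F y| ≤ M0) → (∀ y w, |F (y + σ w) - F y| ≤ L * ‖w‖) →
      (∀ y, g y = om k y.2 * F y) → 0 < m → 0 < δ → δ ≤ m → (∀ y, -m ≤ F y) → F x ≤ -m + δ →
      Integrable (fun p => qker σ g g p x) ν →
      -(om k x.2 * (C1 * m + C2 * δ ^ (1 - 2 * s))) ≤ QQ ν σ g g x := by
  have homm : Measurable (om k) := by unfold om; fun_prop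
  obtain ⟨C, hC0, hC⟩ := int_min' hs0 hs1 hν hL homm (fun v => (om_pos k v).le) (om_integrable hk)
  refine ⟨2 * (C * (2 * M0) ^ (1 - 2 * s)), M0 * C, by positivity, by positivity, ?_⟩
  intro σ F g x m δ hσ hF hLip hg hm hδ hδm hFm hFx hint
  obtain ⟨hI1, hB1⟩ := hC (2 * M0) (by positivity) x.2
  obtain ⟨hI2, hB2⟩ := hC δ hδ x.2
  have hox := om_pos k x.2
  have hprσ : ∀ (y : ℝ × ℂ) (w : ℂ), (y + σ w).2 = y.2 + w := by
    intro y w
    have := hσ w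
    show y.2 + (σ w).2 = _
    congr 1
  have hpt : ∀ p : ℂ × ℝ, -(om k x.2 * (2 * m * (om k (x.2 + p.1) *
      min (2 * M0) (L * (‖p.1‖ * |p.2|))) + M0 * (om k (x.2 + p.1) *
      min δ (L * (‖p.1‖ * |p.2|))))) ≤ qker σ g g p x := by
    rintro ⟨z, θ⟩
    simp only
    have hbz : ‖bb θ * z‖ ≤ ‖z‖ * |θ| := by
      rw [norm_mul]
      have := norm_bb_le θ
      nlinarith [norm_nonneg z, abs_nonneg θ]
    have hq : qker σ g g (z, θ) x = om k x.2 * om k (x.2 + z) *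
        (F (x + σ (aa θ * z)) * F (x + σ (bb θ * z)) - F (x + σ z) * F x) := by
      unfold qker
      simp only
      rw [hg, hg, hg, hg, hprσ, hprσ, hprσ]
      have := om_collision k θ x.2 z
      linear_combination (F (x + σ (aa θ * z)) * F (x + σ (bb θ * z))) * this
    rw [hq]
    set Fa := F (x + σ (aa θ * z))
    set Fb := F (x + σ (bb θ * z))
    set Fz := F (x + σ z)
    have h1 : |Fb - F x| ≤ L * (‖z‖ * |θ|) :=
      (hLip x _).trans (mul_le_mul_of_nonneg_left hbz hL.le)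
    have h2 : |Fa - Fz| ≤ L * (‖z‖ * |θ|) := by
      have e : x + σ (aa θ * z) = (x + σ z) + σ (-(bb θ * z)) := by
        have ha : aa θ = 1 - bb θ := by rw [← aa_add_bb θ]; ring
        rw [ha, add_assoc, ← map_add]
        congr 2; ring
      have := hLip (x + σ z) (-(bb θ * z))
      rw [norm_neg, ← e] at this
      exact this.trans (mul_le_mul_of_nonneg_left hbz hL.le)
    have h1' : |Fb - F x| ≤ 2 * M0 := by
      have := abs_sub Fb (F x)
      linarith [hF (x + σ (bb θ * z)), hF x]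
    have h2' : |Fa - Fz| ≤ 2 * M0 := by
      have := abs_sub Fa Fz
      linarith [hF (x + σ (aa θ * z)), hF (x + σ z)]
    set r1 := min (2 * M0) (L * (‖z‖ * |θ|)) with hr1
    set r2 := min δ (L * (‖z‖ * |θ|)) with hr2
    have k1 : |Fb - F x| ≤ r1 := le_min h1' h1
    have k2 : |Fa - Fz| ≤ r1 := le_min h2' h2
    have hr10 : 0 ≤ r1 := (abs_nonneg _).trans k1
    have hr20 : 0 ≤ r2 := le_min hδ.le ((abs_nonneg _).trans h1)
    have hFa : -m ≤ Fa := hFm _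
    have hFa' : |Fa| ≤ M0 := hF _
    have hFx' : |F x| ≤ m := by
      rw [abs_le]
      exact ⟨hFm x, by linarith⟩
    -- first product
    have A1 : -(m * r1 + M0 * r2) ≤ Fa * (Fb - F x) := by
      rcases le_total 0 (Fb - F x) with hsgn | hsgn
      · have : Fb - F x ≤ r1 := (le_abs_self _).trans k1
        have h3 : -m * (Fb - F x) ≤ Fa * (Fb - F x) := mul_le_mul_of_nonneg_right hFa hsgn
        have h4 : m * (Fb - F x) ≤ m * r1 := mul_le_mul_of_nonneg_left this hm.le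
        have h5 : 0 ≤ M0 * r2 := by positivity
        linarith
      · have h3 : |Fb - F x| ≤ r2 := by
          apply le_min _ h1
          rw [abs_of_nonpos hsgn]
          have : -m ≤ Fb := hFm _
          linarith
        have h4 : |Fa * (Fb - F x)| ≤ M0 * r2 := by
          rw [abs_mul]
          exact mul_le_mul hFa' h3 (abs_nonneg _) hM0.le
        have h5 := neg_abs_le (Fa * (Fb - F x))
        have h6 : 0 ≤ m * r1 := by positivity
        linarith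
    have A2 : -(m * r1) ≤ F x * (Fa - Fz) := by
      have h4 : |F x * (Fa - Fz)| ≤ m * r1 := by
        rw [abs_mul]
        exact mul_le_mul hFx' k2 (abs_nonneg _) hm.le
      have h5 := neg_abs_le (F x * (Fa - Fz))
      linarith
    have A3 : -(2 * m * r1 + M0 * r2) ≤ Fa * Fb - Fz * F x := by nlinarith
    have ho := om_pos k (x.2 + z)
    have A4 := mul_le_mul_of_nonneg_left A3 (mul_pos hox ho).le
    calc _ = om k x.2 * om k (x.2 + z) * -(2 * m * r1 + M0 * r2) := by ring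
      _ ≤ _ := A4
  have hIB : Integrable (fun p : ℂ × ℝ => -(om k x.2 * (2 * m * (om k (x.2 + p.1) *
      min (2 * M0) (L * (‖p.1‖ * |p.2|))) + M0 * (om k (x.2 + p.1) *
      min δ (L * (‖p.1‖ * |p.2|)))))) ν :=
    (((hI1.const_mul (2 * m)).add (hI2.const_mul M0)).const_mul (om k x.2)).neg
  have h := integral_mono hIB hint hpt
  refine le_trans ?_ h
  rw [integral_neg, integral_const_mul, integral_add (hI1.const_mul (2 * m)) (hI2.const_mul M0),
    integral_const_mul, integral_const_mul]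
  apply neg_le_neg
  apply mul_le_mul_of_nonneg_left _ hox.le
  nlinarith

variable {ν : Measure (ℂ × ℝ)} {P : ℕ} {κ a K : ℝ} {g : ℝ → ℝ × ℂ → ℝ}

lemma norm_fderiv_exp_sq_le (k : ℝ) (hk : 0 ≤ k) (x : ℝ × ℂ) :
    DifferentiableAt ℝ (fun x : ℝ × ℂ => Real.exp (k * ‖x.2‖ ^ 2)) x ∧
    ‖fderiv ℝ (fun x : ℝ × ℂ => Real.exp (k * ‖x.2‖ ^ 2)) x‖ ≤
      Real.exp (k * ‖x.2‖ ^ 2) * (2 * k * ‖x.2‖) := by
  have h0 : HasFDerivAt (fun v : ℂ => ‖v‖ ^ 2) (2 • innerSL ℝ x.2) x.2 :=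
    (hasStrictFDerivAt_norm_sq x.2).hasFDerivAt
  have h1 : HasFDerivAt (fun x : ℝ × ℂ => ‖x.2‖ ^ 2)
      ((2 • innerSL ℝ x.2).comp (ContinuousLinearMap.snd ℝ ℝ ℂ)) x :=
    h0.comp x (ContinuousLinearMap.snd ℝ ℝ ℂ).hasFDerivAt
  have h2 := (h1.const_mul k).exp
  refine ⟨h2.differentiableAt, ?_⟩
  rw [h2.fderiv, norm_smul, Real.norm_eq_abs, abs_of_pos (Real.exp_pos _)]
  apply mul_le_mul_of_nonneg_left _ (Real.exp_pos _).le
  rw [norm_smul, Real.norm_eq_abs, abs_of_nonneg hk]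
  have h3 : ‖((2 • innerSL ℝ x.2).comp (ContinuousLinearMap.snd ℝ ℝ ℂ))‖ ≤ 2 * ‖x.2‖ := by
    refine (ContinuousLinearMap.opNorm_comp_le _ _).trans ?_
    have h4 : ‖(2 • innerSL ℝ x.2 : ℂ →L[ℝ] ℝ)‖ ≤ 2 * ‖x.2‖ := by
      refine (norm_nsmul_le).trans ?_
      rw [innerSL_apply_norm]
      norm_num
    have h5 := ContinuousLinearMap.norm_snd_le ℝ ℝ ℂ
    have h6 := norm_nonneg (2 • innerSL ℝ x.2 : ℂ →L[ℝ] ℝ)
    nlinarith [norm_nonneg (ContinuousLinearMap.snd ℝ ℝ ℂ)]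
  nlinarith

/-- Lipschitz bound for `F = g/ω`. -/
lemma F_lip (hP : 1 ≤ P) (hκ0 : 0 < κ) (hg : HF P κ a g) {t : ℝ} (ht : t ∈ Icc (-1 : ℝ) 0)
    (y : ℝ × ℂ) (w : ℂ) :
    |g t (y + sig t w) * Real.exp (κ / 2 * ‖(y + sig t w).2‖ ^ 2) -
      g t y * Real.exp (κ / 2 * ‖y.2‖ ^ 2)| ≤ (2 * (κ * a + a * Nn (5 / 8) 1)) * ‖w‖ := by
  have ha := hg.nonneg
  set F : ℝ × ℂ → ℝ := fun x => g t x * Real.exp (κ / 2 * ‖x.2‖ ^ 2) with hF
  have hgd : ∀ x, DifferentiableAt ℝ (g t) x := fun x =>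
    ((hg.smooth t).differentiable (by simp)) x
  have hFd : ∀ x, DifferentiableAt ℝ F x := fun x =>
    (hgd x).mul (norm_fderiv_exp_sq_le (κ / 2) (by positivity) x).1
  have hFb : ∀ x, ‖fderiv ℝ F x‖ ≤ κ * a + a * Nn (5 / 8) 1 := by
    intro x
    obtain ⟨hd, hb⟩ := norm_fderiv_exp_sq_le (κ / 2) (by positivity) x
    have e : fderiv ℝ F x = g t x • fderiv ℝ (fun x : ℝ × ℂ => Real.exp (κ / 2 * ‖x.2‖ ^ 2)) x +
        Real.exp (κ / 2 * ‖x.2‖ ^ 2) • fderiv ℝ (g t) x := fderiv_mul (hgd x) hd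
    rw [e]
    refine (norm_add_le _ _).trans ?_
    rw [norm_smul, norm_smul, Real.norm_eq_abs, Real.norm_eq_abs, abs_of_pos (Real.exp_pos _)]
    have h1 := hg.abs_le t x
    have h2 : ‖fderiv ℝ (g t) x‖ ≤ a * Nn (5 / 8) 1 * wt P κ x.2 := by
      have := hg.bound t 1 x
      rw [norm_iteratedFDeriv_one] at this
      refine this.trans ?_
      have h3 := Nn_le_unif t 1
      have h4 := wt_pos P κ x.2
      show a * Nn (rad t) 1 * wt P κ x.2 ≤ _
      gcongr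
    have h5 : wt P κ x.2 * Real.exp (κ / 2 * ‖x.2‖ ^ 2) ≤ J P x.2 := by
      unfold wt
      rw [mul_assoc, ← Real.exp_add]
      have : Real.exp (-(κ * ‖x.2‖ ^ 2) + κ / 2 * ‖x.2‖ ^ 2) ≤ 1 := by
        apply Real.exp_le_one_iff.2
        nlinarith [mul_nonneg hκ0.le (sq_nonneg ‖x.2‖)]
      have := J_pos P x.2
      nlinarith
    have h6 : J P x.2 * ‖x.2‖ ≤ 1 := by
      unfold J
      rw [inv_mul_le_iff₀ (by positivity), mul_one]
      calc ‖x.2‖ ≤ (1 + ‖x.2‖) ^ 1 := by rw [pow_one]; linarith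
        _ ≤ (1 + ‖x.2‖) ^ P := pow_le_pow_right₀ (by linarith [norm_nonneg x.2]) hP
    have h7 := J_le_one P x.2
    have hw := wt_pos P κ x.2
    have hex := Real.exp_pos (κ / 2 * ‖x.2‖ ^ 2)
    have hN := Nn_pos (show (0 : ℝ) < 5 / 8 by norm_num) 1
    calc _ ≤ (a * wt P κ x.2) * (Real.exp (κ / 2 * ‖x.2‖ ^ 2) * (2 * (κ / 2) * ‖x.2‖)) +
          Real.exp (κ / 2 * ‖x.2‖ ^ 2) * (a * Nn (5 / 8) 1 * wt P κ x.2) := by
          gcongr
      _ = κ * a * ((wt P κ x.2 * Real.exp (κ / 2 * ‖x.2‖ ^ 2)) * ‖x.2‖) +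
          a * Nn (5 / 8) 1 * (wt P κ x.2 * Real.exp (κ / 2 * ‖x.2‖ ^ 2)) := by ring
      _ ≤ κ * a * (J P x.2 * ‖x.2‖) + a * Nn (5 / 8) 1 * J P x.2 := by gcongr
      _ ≤ κ * a * 1 + a * Nn (5 / 8) 1 * 1 := by gcongr
      _ = _ := by ring
  have h := Convex.norm_image_sub_le_of_norm_fderiv_le (𝕜 := ℝ) (f := F) (s := univ)
    (fun x _ => hFd x) (fun x _ => hFb x) convex_univ (mem_univ y) (mem_univ (y + sig t w))
  rw [Real.norm_eq_abs] at h
  refine h.trans ?_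
  rw [add_sub_cancel_left]
  have h1 : ‖sig t w‖ ≤ 2 * ‖w‖ := by
    refine ((sig t).le_opNorm w).trans ?_
    apply mul_le_mul_of_nonneg_right _ (norm_nonneg _)
    refine (norm_sig_le t).trans ?_
    rw [abs_of_nonpos ht.2]
    linarith [ht.1]
  have hN := Nn_pos (show (0 : ℝ) < 5 / 8 by norm_num) 1
  calc _ ≤ (κ * a + a * Nn (5 / 8) 1) * (2 * ‖w‖) := by gcongr
    _ = _ := by ring

lemma exists_small (lam C2 μ e : ℝ) (hμ : 0 < μ) {q : ℝ} (hq : 0 < q) :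
    ∃ δ : ℝ, 0 < δ ∧ δ < μ ∧ lam * δ + C2 * (δ * e) ^ q < μ := by
  have h1 : Tendsto (fun δ : ℝ => lam * δ + C2 * (δ * e) ^ q) (𝓝[>] 0) (𝓝 0) := by
    have hc : ContinuousAt (fun δ : ℝ => lam * δ + C2 * (δ * e) ^ q) 0 := by
      apply ContinuousAt.add (by fun_prop)
      apply ContinuousAt.mul continuousAt_const
      apply ContinuousAt.rpow_const (by fun_prop) (Or.inr hq.le)
    have h2 := hc.tendsto
    simp only [mul_zero, zero_mul, Real.zero_rpow hq.ne', add_zero] at h2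
    exact h2.mono_left nhdsWithin_le_nhds
  have h2 := h1.eventually_lt_const hμ
  have h3 : ∀ᶠ δ : ℝ in 𝓝[>] 0, δ < μ := by
    exact nhdsWithin_le_nhds (eventually_lt_nhds hμ)
  have h4 : ∀ᶠ δ : ℝ in 𝓝[>] 0, 0 < δ := eventually_mem_nhdsWithin
  obtain ⟨δ, h5, h6, h7⟩ := (h2.and (h3.and h4)).exists
  exact ⟨δ, h7, h6, h5⟩

/-- **Minimum principle.** -/
theorem min_principle {s : ℝ} (hs0 : 0 < s) (hs1 : s < 1 / 2) (hν : DomM s ν) (hK : KB ν P K) (hP : 1 ≤ P)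
    (hκ0 : 0 < κ) (hκ1 : κ ≤ 1) (hg : HF P κ a g)
    (hd : ∀ t ∈ Icc (-1 : ℝ) 0, ∀ x,
      HasDerivAt (fun τ => g τ x) (QQ ν (sig t) (g t) (g t) x) t)
    (h0 : ∀ x, 0 ≤ g (-1) x) : ∀ t ∈ Icc (-1 : ℝ) 0, ∀ x, 0 ≤ g t x := by
  by_contra hneg
  push Not at hneg
  obtain ⟨tn, htn, xn, hn⟩ := hneg
  have ha := hg.nonneg
  have hN := Nn_pos (show (0 : ℝ) < 5 / 8 by norm_num) 1
  set L : ℝ := 2 * (κ * a + a * Nn (5 / 8) 1) + 1 with hLdef
  have hL : 0 < L := by positivity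
  set M0 : ℝ := a + 1 with hM0def
  have hM0 : 0 < M0 := by positivity
  obtain ⟨C1, C2, hC1, hC2, hlow⟩ := QQ_lower hs0 hs1 hν (k := κ / 2) (by positivity) hL hM0
  set F : ℝ → ℝ × ℂ → ℝ := fun t x => g t x * Real.exp (κ / 2 * ‖x.2‖ ^ 2) with hF
  have hFb : ∀ t x, |F t x| ≤ a := by
    intro t x
    simp only [hF]
    rw [abs_mul, abs_of_pos (Real.exp_pos _)]
    have h1 := hg.abs_le t x
    have h5 : wt P κ x.2 * Real.exp (κ / 2 * ‖x.2‖ ^ 2) ≤ 1 := by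
      unfold wt
      rw [mul_assoc, ← Real.exp_add]
      have : Real.exp (-(κ * ‖x.2‖ ^ 2) + κ / 2 * ‖x.2‖ ^ 2) ≤ 1 := by
        apply Real.exp_le_one_iff.2
        nlinarith [mul_nonneg hκ0.le (sq_nonneg ‖x.2‖)]
      have h7 := J_pos P x.2
      have h8 := J_le_one P x.2
      have h9 := Real.exp_pos (-(κ * ‖x.2‖ ^ 2) + κ / 2 * ‖x.2‖ ^ 2)
      nlinarith
    calc _ ≤ a * wt P κ x.2 * Real.exp (κ / 2 * ‖x.2‖ ^ 2) := by gcongr
      _ = a * (wt P κ x.2 * Real.exp (κ / 2 * ‖x.2‖ ^ 2)) := by ring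
      _ ≤ a * 1 := by gcongr
      _ = a := mul_one a
  have hgF : ∀ t y, g t y = om (κ / 2) y.2 * F t y := by
    intro t y
    simp only [hF, om]
    rw [mul_comm, mul_assoc, ← Real.exp_add]
    simp
  set lam : ℝ := C1 + 1 with hlam
  have hlam0 : 0 < lam := by positivity
  set H : ℝ → ℝ × ℂ → ℝ := fun t x => Real.exp (-(lam * (t + 1))) * F t x with hH
  have hEle : ∀ t ∈ Icc (-1 : ℝ) 0, Real.exp (-(lam * (t + 1))) ≤ 1 := by
    intro t ht
    apply Real.exp_le_one_iff.2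
    nlinarith [ht.1]
  set S : Set ℝ := {r | ∃ t ∈ Icc (-1 : ℝ) 0, ∃ x, r = H t x} with hS
  have hSb : BddBelow S := by
    refine ⟨-a, ?_⟩
    rintro r ⟨t, ht, x, rfl⟩
    have h1 := hFb t x
    have h2 := hEle t ht
    have h3 := Real.exp_pos (-(lam * (t + 1)))
    have h4 : |H t x| ≤ a := by
      simp only [hH]
      rw [abs_mul, abs_of_pos h3]
      nlinarith [abs_nonneg (F t x)]
    exact (abs_le.1 h4).1
  have hSmem : H tn xn ∈ S := ⟨tn, htn, xn, rfl⟩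
  have hHneg : H tn xn < 0 := by
    simp only [hH, hF]
    apply mul_neg_of_pos_of_neg (Real.exp_pos _)
    exact mul_neg_of_neg_of_pos hn (Real.exp_pos _)
  set μ := -sInf S with hμ
  have hμ0 : 0 < μ := by
    have := csInf_le hSb hSmem
    linarith
  have hHge : ∀ t ∈ Icc (-1 : ℝ) 0, ∀ x, -μ ≤ H t x := by
    intro t ht x
    rw [hμ, neg_neg]
    exact csInf_le hSb ⟨t, ht, x, rfl⟩
  obtain ⟨δ', hδ0, hδμ, hδs⟩ := exists_small lam C2 μ (Real.exp lam) hμ0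
    (q := 1 - 2 * s) (by linarith)
  obtain ⟨r, ⟨t0, ht0, x0, rfl⟩, hr⟩ := exists_lt_of_csInf_lt (s := S) ⟨_, hSmem⟩
    (show sInf S < -μ + δ' by rw [hμ]; linarith)
  -- derivative of `H`
  have hHd : ∀ t ∈ Icc (-1 : ℝ) 0, HasDerivAt (fun τ => H τ x0)
      (-lam * H t x0 + Real.exp (-(lam * (t + 1))) *
        (QQ ν (sig t) (g t) (g t) x0 * Real.exp (κ / 2 * ‖x0.2‖ ^ 2))) t := by
    intro t ht
    have h1 : HasDerivAt (fun τ => F τ x0)
        (QQ ν (sig t) (g t) (g t) x0 * Real.exp (κ / 2 * ‖x0.2‖ ^ 2)) t :=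
      (hd t ht x0).mul_const _
    have h2 : HasDerivAt (fun τ : ℝ => Real.exp (-(lam * (τ + 1))))
        (Real.exp (-(lam * (t + 1))) * -lam) t := by
      have h3 : HasDerivAt (fun τ : ℝ => lam * (τ + 1)) lam t := by
        have := ((hasDerivAt_id t).add_const 1).const_mul lam
        simpa using this
      exact h3.neg.exp
    have h4 := h2.mul h1
    refine h4.congr_deriv ?_
    simp only [hH]
    ring
  have hcont : ContinuousOn (fun τ => H τ x0) (Icc (-1 : ℝ) 0) :=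
    fun t ht => (hHd t ht).continuousAt.continuousWithinAt
  obtain ⟨t1, ht1, hmin⟩ := isCompact_Icc.exists_isMinOn (nonempty_Icc.2 (by norm_num)) hcont
  have hH1 : H t1 x0 < -μ + δ' := (hmin ht0).trans_lt hr
  have hH1neg : H t1 x0 < 0 := by linarith
  have ht1ne : -1 < t1 := by
    rcases ht1.1.lt_or_eq with h | h
    · exact h
    · exfalso
      have : 0 ≤ H t1 x0 := by
        rw [← h]
        simp only [hH, hF]
        exact mul_nonneg (Real.exp_pos _).le (mul_nonneg (h0 x0) (Real.exp_pos _).le)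
      linarith
  -- the derivative at `t1` is nonpositive
  have hDle : -lam * H t1 x0 + Real.exp (-(lam * (t1 + 1))) *
        (QQ ν (sig t1) (g t1) (g t1) x0 * Real.exp (κ / 2 * ‖x0.2‖ ^ 2)) ≤ 0 := by
    have h1 := (hHd t1 ht1).hasDerivWithinAt (s := Iio t1)
    rw [hasDerivWithinAt_iff_tendsto_slope' (by simp)] at h1
    apply le_of_tendsto h1
    have h2 : ∀ᶠ τ in 𝓝[<] t1, τ ∈ Ioo (-1) t1 := Ioo_mem_nhdsLT ht1ne
    filter_upwards [h2] with τ hτ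
    rw [slope_def_field]
    have h3 : H t1 x0 ≤ H τ x0 := hmin ⟨hτ.1.le, hτ.2.le.trans ht1.2⟩
    apply div_nonpos_of_nonneg_of_nonpos
    · linarith
    · linarith [hτ.2]
  -- lower bound for the collision term
  set E1 := Real.exp (lam * (t1 + 1)) with hE1
  have hE1pos : 0 < E1 := Real.exp_pos _
  have hE1inv : Real.exp (-(lam * (t1 + 1))) * E1 = 1 := by
    rw [hE1, ← Real.exp_add]; simp
  have hE1ge : 1 ≤ E1 := Real.one_le_exp (by nlinarith [ht1.1])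
  have hE1le : E1 ≤ Real.exp lam := Real.exp_le_exp.2 (by nlinarith [ht1.2])
  have hFH : ∀ x, F t1 x = E1 * H t1 x := by
    intro x
    simp only [hH]
    rw [← mul_assoc, mul_comm E1, hE1inv, one_mul]
  have hlow1 := hlow (sig t1) (F t1) (g t1) x0 (μ * E1) (δ' * E1) (pr2_sig t1)
    (fun y => (hFb t1 y).trans (by rw [hM0def]; linarith))
    (fun y w => (F_lip hP hκ0 hg ht1 y w).trans (by
      apply mul_le_mul_of_nonneg_right _ (norm_nonneg _)
      rw [hLdef]; linarith))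
    (hgF t1) (by positivity) (by positivity) (by gcongr)
    (fun y => by
      rw [hFH]
      have := hHge t1 ht1 y
      nlinarith)
    (by rw [hFH]; nlinarith)
    ((HF.domInt hK hκ0.le hκ1 hg hg t1).integrable' x0)
  have hexp : om (κ / 2) x0.2 * Real.exp (κ / 2 * ‖x0.2‖ ^ 2) = 1 := by
    unfold om; rw [← Real.exp_add]; simp
  have hQ : -(C1 * (μ * E1) + C2 * (δ' * E1) ^ (1 - 2 * s)) ≤
      QQ ν (sig t1) (g t1) (g t1) x0 * Real.exp (κ / 2 * ‖x0.2‖ ^ 2) := by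
    have h1 := mul_le_mul_of_nonneg_right hlow1 (Real.exp_pos (κ / 2 * ‖x0.2‖ ^ 2)).le
    calc _ = -((om (κ / 2) x0.2 * Real.exp (κ / 2 * ‖x0.2‖ ^ 2)) *
          (C1 * (μ * E1) + C2 * (δ' * E1) ^ (1 - 2 * s))) := by rw [hexp, one_mul]
      _ = -(om (κ / 2) x0.2 * (C1 * (μ * E1) + C2 * (δ' * E1) ^ (1 - 2 * s))) *
          Real.exp (κ / 2 * ‖x0.2‖ ^ 2) := by ring
      _ ≤ _ := h1
  have hQ2 : -(C1 * μ + C2 * (δ' * Real.exp lam) ^ (1 - 2 * s)) ≤
      Real.exp (-(lam * (t1 + 1))) *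
        (QQ ν (sig t1) (g t1) (g t1) x0 * Real.exp (κ / 2 * ‖x0.2‖ ^ 2)) := by
    have h1 := mul_le_mul_of_nonneg_left hQ (Real.exp_pos (-(lam * (t1 + 1)))).le
    refine le_trans ?_ h1
    have h2 : (δ' * E1) ^ (1 - 2 * s) ≤ (δ' * Real.exp lam) ^ (1 - 2 * s) := by
      apply Real.rpow_le_rpow (by positivity) (by gcongr) (by linarith)
    have h3 : Real.exp (-(lam * (t1 + 1))) ≤ 1 := hEle t1 ht1
    have h4 : 0 < Real.exp (-(lam * (t1 + 1))) := Real.exp_pos _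
    have h5 : 0 ≤ (δ' * E1) ^ (1 - 2 * s) := by positivity
    have h6 : Real.exp (-(lam * (t1 + 1))) * (C2 * (δ' * E1) ^ (1 - 2 * s)) ≤
        C2 * (δ' * Real.exp lam) ^ (1 - 2 * s) := by
      calc _ ≤ 1 * (C2 * (δ' * Real.exp lam) ^ (1 - 2 * s)) := by gcongr
        _ = _ := one_mul _
    have h7 : Real.exp (-(lam * (t1 + 1))) * -(C1 * (μ * E1) + C2 * (δ' * E1) ^ (1 - 2 * s)) =
        -(C1 * μ * (Real.exp (-(lam * (t1 + 1))) * E1)) -
        Real.exp (-(lam * (t1 + 1))) * (C2 * (δ' * E1) ^ (1 - 2 * s)) := by ring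
    rw [h7, hE1inv]
    linarith
  have h8 : lam * (μ - δ') ≤ -lam * H t1 x0 := by nlinarith
  have : lam * (μ - δ') - C1 * μ = μ - lam * δ' := by rw [hlam]; ring
  linarith

end Pool.MP08d8de
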