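import Pool.Agent.MP_08d8de_an.Bridge
import Pool.Agent.MP_08d8de_an.Data
import Pool.Agent.MP_08d8de_an.MinPrinciple

/-! The counterexample. -/

open MeasureTheory Set Filter Topology
open scoped Real

noncomputable section

namespace Pool.MP08d8de

open Pool.Agent.Boltzmann2

/-! ### Data at the initial time -/

lemma NR_bound (r : ℝ) : ∃ N : ℝ, ∀ R : ℝ, 4 ≤ R → ∀ x : ℂ, ‖x‖ < 1 → ∀ v : ℂ,
    (1 + ‖v‖) ^ r * gin0 5 R (x.re + v.re, v) ≤ N := by
  set n := ⌈r⌉₊ with hn
  obtain ⟨C, hC0, hC⟩ := exp_poly_bound one_pos n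
  obtain ⟨C', hC'0, hC'⟩ := exp_poly_bound (show (0 : ℝ) < 1 / 4 by norm_num) n
  refine ⟨C + C' * C, fun R hR x hx v => ?_⟩
  have h1 : (1 + ‖v‖) ^ r ≤ (1 + ‖v‖) ^ n := by
    rw [← Real.rpow_natCast]
    exact Real.rpow_le_rpow_of_exponent_le (by linarith [norm_nonneg v]) (Nat.le_ceil r)
  have hg0 : 0 < gin0 5 R (x.re + v.re, v) := gin0_pos (by linarith) _
  refine (mul_le_mul_of_nonneg_right h1 hg0.le).trans ?_
  unfold gin0
  rw [gbg_eq, gbeam_eq, mul_add]
  simp only
  set d := ‖v - R‖ with hd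
  have hd0 : 0 ≤ d := norm_nonneg _
  have hR0 : 0 < R := by linarith
  have hbg : (1 + ‖v‖) ^ n * Real.exp (-(4 * ‖v‖ ^ 2)) ≤ C := by
    refine le_trans ?_ (hC ‖v‖ (norm_nonneg v))
    gcongr
    norm_num
  have hv : ‖v‖ ≤ R + d := by
    calc ‖v‖ = ‖(v - R) + R‖ := by ring_nf
      _ ≤ ‖v - R‖ + ‖(R : ℂ)‖ := norm_add_le _ _
      _ = R + d := by
        rw [Complex.norm_real, Real.norm_eq_abs, abs_of_nonneg hR0.le]; ring
  have h2 : (1 + ‖v‖) ^ n ≤ (1 + R) ^ n * (1 + d) ^ n := by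
    rw [← mul_pow]
    apply pow_le_pow_left₀ (by positivity)
    nlinarith
  have hB : (v.re - R) ^ 2 ≤ d ^ 2 := by
    have := Complex.abs_re_le_norm (v - R)
    rw [Complex.sub_re, Complex.ofReal_re] at this
    exact sq_le_sq' (by linarith [neg_abs_le (v.re - R)]) ((le_abs_self _).trans this)
  have hxre : -1 < x.re := by
    have := Complex.abs_re_le_norm x
    have h3 := neg_abs_le x.re
    linarith
  have h3 : -(4 * ((x.re + v.re - R / 4) ^ 2 + d ^ 2)) ≤ -(1 * d ^ 2) + -(1 / 4 * R ^ 2) := by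
    have h4 : R / 2 ≤ x.re + 3 * R / 4 := by linarith
    have h5 : (R / 2) ^ 2 ≤ (x.re + 3 * R / 4) ^ 2 := pow_le_pow_left₀ (by positivity) h4 2
    nlinarith [sq_nonneg ((x.re + v.re - R / 4) + (v.re - R)), sq_nonneg d]
  have hbeam : (1 + ‖v‖) ^ n * ((R ^ 5)⁻¹ *
      Real.exp (-(4 * ((x.re + v.re - R / 4) ^ 2 + d ^ 2)))) ≤ C' * C := by
    have hRinv : (R ^ 5)⁻¹ ≤ 1 := inv_le_one_of_one_le₀ (one_le_pow₀ (by linarith))
    calc _ ≤ ((1 + R) ^ n * (1 + d) ^ n) * (1 *
          Real.exp (-(1 * d ^ 2) + -(1 / 4 * R ^ 2))) := by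
          gcongr
      _ = ((1 + R) ^ n * Real.exp (-(1 / 4 * R ^ 2))) * ((1 + d) ^ n * Real.exp (-(1 * d ^ 2))) := by
          rw [Real.exp_add]; ring
      _ ≤ C' * C := mul_le_mul (hC' R hR0.le) (hC d hd0) (by positivity) hC'0
  linarith

/-! ### Embedding of the planar variables -/

/-- `(t, x, v) ↦ (t, (Re x, v))`. -/
def Emb : (ℝ × ℂ × ℂ) →L[ℝ] ℝ × (ℝ × ℂ) :=
  (ContinuousLinearMap.fst ℝ ℝ (ℂ × ℂ)).prod
    ((Complex.reCLM.comp ((ContinuousLinearMap.fst ℝ ℂ ℂ).comp
      (ContinuousLinearMap.snd ℝ ℝ (ℂ × ℂ)))).prod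
      ((ContinuousLinearMap.snd ℝ ℂ ℂ).comp (ContinuousLinearMap.snd ℝ ℝ (ℂ × ℂ))))

lemma Emb_apply (p : ℝ × ℂ × ℂ) : Emb p = (p.1, (p.2.1.re, p.2.2)) := rfl

lemma norm_Emb : ‖Emb‖ ≤ 1 := by
  apply ContinuousLinearMap.opNorm_le_bound _ zero_le_one
  intro p
  rw [Emb_apply, one_mul]
  simp only [Prod.norm_def]
  apply max_le
  · exact le_max_left _ _
  · apply le_trans _ (le_max_right _ _)
    apply max_le
    · exact (Complex.abs_re_le_norm _).trans (le_max_left _ _)
    · exact le_max_right _ _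

/-- The physical function, constant in the second space variable. -/
def fsol (g : ℝ → ℝ × ℂ → ℝ) (t : ℝ) (x v : ℂ) : ℝ := phys g t (x.re, v)

lemma joint_fsol (g : ℝ → ℝ × ℂ → ℝ) : joint (fsol g) = fun p => unc (phys g) (Emb p) := by
  ext p; rfl

lemma Cls.domInt {s : ℝ} (hs0 : 0 < s) (hs1 : s < 1 / 2) {ν : Measure (ℂ × ℝ)} (hν : DomM s ν)
    {F : ℝ → ℝ × ℂ → ℝ} (hF : Cls F) (t : ℝ) :
    DomInt ν (fun p x => qker sig0 (F t) (F t) p x) := by
  obtain ⟨K, hK⟩ := hν.exists_KB hs0 hs1 (P := 3) le_rfl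
  obtain ⟨A, hA, hFA⟩ := hF 3
  have hσ : ∀ (_ : ℝ) (w : ℂ), pr2 (sig0 w) = w := fun _ w => by simp [pr2, sig0]
  exact hFA.domInt hK (σ := fun _ => sig0) continuous_const hσ le_rfl zero_le_one hFA hA hA t

lemma Dz_eq (F : ℝ × ℂ → ℝ) (y : ℝ) (v : ℂ) (p : ℂ × ℝ) :
    Dz (fun v => F (y, v)) v p = qker sig0 F F p (y, v) := by
  unfold Dz qker
  simp [sig0]

/-- The planar solutions are classical solutions. -/
theorem classical {s c : ℝ} {b : ℝ → ℝ} (hs1 : s < 1 / 2) (hadm : Admissible s (-(2 * s)) c b)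
    {g : ℝ → ℝ × ℂ → ℝ} (hg : Cls g)
    (hg' : Cls (fun t x => chi t * QQ (muB s b) (sig t) (g t) (g t) x))
    (h : ∀ t x, HasDerivAt (fun τ => g τ x) (chi t * QQ (muB s b) (sig t) (g t) (g t) x) t)
    (hpos : ∀ t ∈ Icc (-1 : ℝ) 0, ∀ x, 0 ≤ g t x) :
    IsClassicalSolution (-(2 * s)) b (fsol g) := by
  have hs0 : 0 < s := hadm.1
  have hν := muB_dom hadm
  have hF : Cls (phys g) := hg.phys
  have hAA : AA (phys g) := fun k =>
    TD.of_equation hs0 hs1 hν hF contDiff_chi (phys_deriv hg hg' h) k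
  have hbr : ∀ t x v, Integrable (Dz (fsol g t x) v) (muB s b) := by
    intro t x v
    have h1 := (Cls.domInt hs0 hs1 hν hF t).integrable' (x.re, v)
    refine h1.congr (Eventually.of_forall fun p => ?_)
    exact (Dz_eq (phys g t) x.re v p).symm
  have hmeas : ∀ t x, Measurable (fsol g t x) := by
    intro t x
    have h1 : Continuous (phys g t) := (hF.smooth t).continuous
    have h2 : Continuous (fun v : ℂ => phys g t (x.re, v)) := h1.comp (by fun_prop)
    exact h2.measurable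
  refine ⟨?_, ?_, ?_, ?_, ?_⟩
  · refine ⟨univ, isOpen_univ, subset_univ _, ?_⟩
    rw [joint_fsol]
    exact (hAA.smooth.comp Emb.contDiff).contDiffOn
  · intro t ht x _ v
    exact hpos t ht _
  · intro n q
    obtain ⟨C, hC0, hC⟩ := hAA.decay n q 1
    refine ⟨C, fun t ht x _ v => ?_⟩
    rw [joint_fsol]
    have h1 := norm_iteratedFDeriv_comp_clm_le Emb norm_Emb hAA.smooth n (t, x, v)
    have h2 := hC (Emb (t, x, v)) ⟨by rw [Emb_apply]; exact ht.1, by
      rw [Emb_apply]; exact ht.2.trans (by norm_num)⟩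
    have h3 : J q (Emb (t, x, v)).2.2 = ((1 + ‖v‖) ^ q)⁻¹ := rfl
    rw [h3] at h2
    have h4 := h1.trans h2
    have h5 : 0 < (1 + ‖v‖) ^ q := by positivity
    calc _ ≤ (1 + ‖v‖) ^ q * (C * ((1 + ‖v‖) ^ q)⁻¹) := mul_le_mul_of_nonneg_left h4 h5.le
      _ = C := by field_simp
  · intro t _ x _ v
    exact (bridge hadm (hmeas t x) v (hbr t x v)).1
  · intro t ht x _ v
    rw [(bridge hadm (hmeas t x) v (hbr t x v)).2]
    have hd := phys_deriv hg hg' h t (x.re, v)
    have hchi : chi t = 1 := chi_eq_one (by linarith [ht.1]) (by linarith [ht.2])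
    have h1 : deriv (fun τ => fsol g τ x v) t = QQ (muB s b) sig0 (phys g t) (phys g t) (x.re, v) +
        (-1) * (v.re * fderiv ℝ (phys g t) (x.re, v) (1, 0)) := by
      have h2 := hd.deriv
      rw [hchi, one_mul] at h2
      exact h2
    have h2 : fderiv ℝ (fun y : ℂ => fsol g t y v) x v =
        v.re * fderiv ℝ (phys g t) (x.re, v) (1, 0) := by
      have h3 : HasFDerivAt (fun y : ℂ => ((y.re, v) : ℝ × ℂ))
          (Complex.reCLM.prod (0 : ℂ →L[ℝ] ℂ)) x :=
        (Complex.reCLM.hasFDerivAt).prodMk (hasFDerivAt_const v x)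
      have h4 : HasFDerivAt (phys g t) (fderiv ℝ (phys g t) (x.re, v)) (x.re, v) :=
        (((hF.smooth t).differentiable (by simp)) (x.re, v)).hasFDerivAt
      have h5 : HasFDerivAt (fun y : ℂ => fsol g t y v)
          ((fderiv ℝ (phys g t) (x.re, v)).comp (Complex.reCLM.prod (0 : ℂ →L[ℝ] ℂ))) x :=
        h4.comp x h3
      rw [h5.fderiv, ContinuousLinearMap.comp_apply, ← smul_eq_mul, ← map_smul]
      congr 1
      ext1 <;> simp
    rw [h1, h2]
    have h3 : ∫ p, Dz (fsol g t x) v p ∂(muB s b) =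
        QQ (muB s b) sig0 (phys g t) (phys g t) (x.re, v) := by
      unfold QQ
      congr 1
      ext p
      exact Dz_eq (phys g t) x.re v p
    rw [h3]
    ring

lemma J5_integrable : Integrable (fun v : ℂ => J 5 v) := by
  have := integrable_one_add_norm (E := ℂ) (μ := volume) (r := 5) (by
    rw [Complex.finrank_real_complex]; norm_num)
  refine this.congr (Eventually.of_forall fun x => ?_)
  simp only [J]
  rw [Real.rpow_neg (by positivity)]
  norm_cast

lemma J5_sq_integrable : Integrable (fun v : ℂ => J 5 v * ‖v‖ ^ 2) := by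
  have h1 := integrable_one_add_norm (E := ℂ) (μ := volume) (r := 3) (by
    rw [Complex.finrank_real_complex]; norm_num)
  have hm : AEStronglyMeasurable (fun v : ℂ => J 5 v * ‖v‖ ^ 2) volume := by
    have := continuous_J 5
    exact (this.mul (by fun_prop)).aestronglyMeasurable
  refine h1.mono' hm (Eventually.of_forall fun v => ?_)
  have h2 : (1 + ‖v‖) ^ (-3 : ℝ) = ((1 + ‖v‖) ^ 3)⁻¹ := by
    rw [Real.rpow_neg (by positivity)]
    norm_cast
  rw [h2, Real.norm_eq_abs, abs_of_nonneg (mul_nonneg (J_nonneg _ _) (by positivity))]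
  unfold J
  rw [inv_mul_le_iff₀ (by positivity), ← div_eq_mul_inv, le_div_iff₀ (by positivity)]
  have h3 : ‖v‖ ^ 2 ≤ (1 + ‖v‖) ^ 2 := by gcongr; linarith
  calc ‖v‖ ^ 2 * (1 + ‖v‖) ^ 3 ≤ (1 + ‖v‖) ^ 2 * (1 + ‖v‖) ^ 3 := by gcongr
    _ = (1 + ‖v‖) ^ 5 := by ring

/-- **Main theorem.** -/
theorem not_interior {s c : ℝ} {b : ℝ → ℝ} (hs1 : s < 1 / 2)
    (hadm : Admissible s (-(2 * s)) c b) {q : ℝ} (hq : 5 < q) :
    ¬ InteriorEstimate (-(2 * s)) b 0 q := by
  have hs0 : 0 < s := hadm.1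
  have hν := muB_dom hadm
  obtain ⟨K, hK⟩ := hν.exists_KB hs0 hs1 (P := 5) (by norm_num)
  obtain ⟨C, hC0, hC⟩ := gin0_bound 5
  have hCB := CB_nonneg hK
  set B := CB 5 K with hB
  -- choice of the amplitude
  set D := 16 * B * C + 8 / 3 * B * C ^ 2 * Real.exp 4 + 2 * C + 1 with hD
  have hD1 : 1 ≤ D := by
    have : 0 ≤ 16 * B * C + 8 / 3 * B * C ^ 2 * Real.exp 4 + 2 * C := by positivity
    linarith
  set ε := D⁻¹ with hε
  have hε0 : 0 < ε := by positivity
  have hεD : ε * D = 1 := inv_mul_cancel₀ (by linarith)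
  have hc1 : 16 * B * C * ε ≤ 1 := by
    have h1 : 16 * B * C ≤ D := by
      have : 0 ≤ 8 / 3 * B * C ^ 2 * Real.exp 4 + 2 * C + 1 := by positivity
      linarith
    nlinarith
  have hc2 : 8 / 3 * B * C ^ 2 * Real.exp 4 * ε ≤ 1 := by
    have h1 : 8 / 3 * B * C ^ 2 * Real.exp 4 ≤ D := by
      have : 0 ≤ 16 * B * C + 2 * C + 1 := by positivity
      linarith
    nlinarith
  have hc3 : 2 * C * ε ≤ 1 := by
    have h1 : 2 * C ≤ D := by
      have : 0 ≤ 16 * B * C + 8 / 3 * B * C ^ 2 * Real.exp 4 + 1 := by positivity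
      linarith
    nlinarith
  have hBε : B * (ε * C) ≤ 1 / 16 := by linarith
  have hexp4 : Real.exp (-4) * Real.exp 4 = 1 := by rw [← Real.exp_add]; simp
  have hexp4' : Real.exp (-4) ≤ 1 := Real.exp_le_one_iff.2 (by norm_num)
  have hexp4p := Real.exp_pos (-4 : ℝ)
  have hsmall : 4 / 3 * (B * (ε * C) ^ 2) ≤ ε * Real.exp (-4) / 2 := by
    have h1 : 8 / 3 * B * C ^ 2 * ε ≤ Real.exp (-4) := by
      have h2 := mul_le_mul_of_nonneg_right hc2 hexp4p.le
      calc 8 / 3 * B * C ^ 2 * ε = 8 / 3 * B * C ^ 2 * ε * (Real.exp (-4) * Real.exp 4) := by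
            rw [hexp4, mul_one]
        _ = 8 / 3 * B * C ^ 2 * Real.exp 4 * ε * Real.exp (-4) := by ring
        _ ≤ 1 * Real.exp (-4) := h2
        _ = Real.exp (-4) := one_mul _
    nlinarith
  -- the family of solutions
  choose NN hNN using NR_bound
  intro hInt
  obtain ⟨Ct, hCt⟩ := hInt (ε * Real.exp (-4) / 2 * π) (∫ v : ℂ, J 5 v)
    (∫ v : ℂ, J 5 v * ‖v‖ ^ 2) 0 (by positivity) (fun r => ε * NN r)
  -- uniform lower bound
  have key : ∀ R : ℝ, 4 ≤ R → R ^ (q - 5) * (ε / 2) ≤ Ct := by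
    intro R hR
    have hR0 : 0 < R := by linarith
    set κ := 1 / R ^ 2 with hκ
    have hκ0 : 0 < κ := by positivity
    have hκ1 : κ ≤ 1 := by
      rw [hκ, div_le_one (by positivity)]; nlinarith
    set gin : ℝ × ℂ → ℝ := fun x => ε * gin0 5 R x with hgin
    have hin : HF 5 κ (ε * C) (fun _ => gin) := by
      apply HF.const
      · exact contDiff_const.mul (gin0_smooth 5 R)
      · intro n x
        have h1 : iteratedFDeriv ℝ n gin x = ε • iteratedFDeriv ℝ n (gin0 5 R) x :=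
          iteratedFDeriv_const_smul_apply (a := ε) (contDiffAt_nat (gin0_smooth 5 R) n x)
        rw [h1, norm_smul, Real.norm_eq_abs, abs_of_pos hε0]
        calc _ ≤ ε * (C * Nn 1 n * wt 5 (1 / R ^ 2) x.2) :=
              mul_le_mul_of_nonneg_left (hC R (by linarith) n x) hε0.le
          _ = _ := by ring
    set g := gsol (muB s b) gin with hgdef
    have hg : HF 5 κ (2 * (ε * C)) g := gsol_HF hK hκ0.le hκ1 hin hBε
    have hgd := gsol_deriv hK hκ0.le hκ1 hin hBε
    have hgi := gsol_init hK hκ0.le hκ1 hin hBε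
    have hgs := gsol_sub hK hκ0.le hκ1 hin hBε
    have hpos : ∀ t ∈ Icc (-1 : ℝ) 0, ∀ x, 0 ≤ g t x := by
      apply min_principle hs0 hs1 hν hK (by norm_num) hκ0 hκ1 hg
      · intro t ht x
        have h1 := hgd t x
        rw [chi_eq_one (by linarith [ht.1]) (by linarith [ht.2]), one_mul] at h1
        exact h1
      · intro x
        show 0 ≤ gsol (muB s b) gin (-1) x
        rw [hgi x]
        exact mul_nonneg hε0.le (gin0_pos hR0 x).le
    have hclsg : Cls g := Fam.toCls hκ0 (HF.locBdd _) hg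
    have hclsg' : Cls (fun t x => chi t * QQ (muB s b) (sig t) (g t) (g t) x) := by
      refine Fam.toCls hκ0 ?_ (HF.QQ hK hκ0.le hκ1 hg hg)
      exact LocBdd.of_continuous fun n => continuous_const.mul (continuous_chi.mul
        ((continuous_Nn_rad n).add (continuous_Nn_rad (n + 1))))
    have hcl : IsClassicalSolution (-(2 * s)) b (fsol g) :=
      classical hs1 hadm hclsg hclsg' hgd hpos
    -- pointwise bounds
    have hfle : ∀ t x v, fsol g t x v ≤ J 5 v := by
      intro t x v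
      have h1 := hg.abs_le t (Lam t (x.re, v))
      have h2 : (Lam t (x.re, v)).2 = v := by rw [Lam_apply]
      rw [h2] at h1
      have h3 := wt_le_J (P := 5) hκ0.le v
      have h4 := wt_pos 5 κ v
      calc fsol g t x v ≤ |fsol g t x v| := le_abs_self _
        _ ≤ 2 * (ε * C) * wt 5 κ v := h1
        _ ≤ 1 * J 5 v := by
            apply mul_le_mul _ h3 h4.le zero_le_one
            linarith
        _ = J 5 v := one_mul _
    have hf0 : ∀ t ∈ Icc (-1 : ℝ) 0, ∀ x v, 0 ≤ fsol g t x v := fun t ht x v => hpos t ht _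
    have hlow : ∀ t x v, ε * gin0 5 R (Lam t (x.re, v)) -
        4 / 3 * (B * (ε * C) ^ 2) * wt 5 κ v ≤ fsol g t x v := by
      intro t x v
      have h1 := hgs.abs_le t (Lam t (x.re, v))
      have h2 : (Lam t (x.re, v)).2 = v := by rw [Lam_apply]
      rw [h2] at h1
      have h3 := (abs_le.1 h1).1
      have h4 : fsol g t x v = gsol (muB s b) gin t (Lam t (x.re, v)) := rfl
      rw [h4]
      have h5 : gin (Lam t (x.re, v)) = ε * gin0 5 R (Lam t (x.re, v)) := rfl
      rw [h5] at h3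
      linarith
    have hcontf : ∀ t x, Continuous (fun v => fsol g t x v) := by
      intro t x
      have h1 : Continuous (phys g t) := (hclsg.phys.smooth t).continuous
      exact h1.comp (by fun_prop)
    have hfint : ∀ t ∈ Icc (-1 : ℝ) 0, ∀ x, Integrable (fun v => fsol g t x v) := by
      intro t ht x
      refine J5_integrable.mono' (hcontf t x).aestronglyMeasurable
        (Eventually.of_forall fun v => ?_)
      rw [Real.norm_eq_abs, abs_of_nonneg (hf0 t ht x v)]
      exact hfle t x v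
    have hhydro : HydroBounds (ε * Real.exp (-4) / 2 * π) (∫ v : ℂ, J 5 v)
        (∫ v : ℂ, J 5 v * ‖v‖ ^ 2) 0 (fsol g) := by
      intro t ht x _
      have ht' : t ∈ Icc (-1 : ℝ) 0 := ⟨ht.1.le, ht.2⟩
      refine ⟨?_, ?_, ?_, ?_⟩
      · have h1 : ∀ v ∈ Metric.ball (0 : ℂ) 1, ε * Real.exp (-4) / 2 ≤ fsol g t x v := by
          intro v hv
          have hv1 : ‖v‖ ≤ 1 := by
            rw [Metric.mem_ball, dist_zero_right] at hv; exact hv.le
          have h2 := hlow t x v
          have h3 : Real.exp (-4) ≤ gin0 5 R (Lam t (x.re, v)) := by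
            unfold gin0
            have h4 : 0 ≤ (R ^ 5)⁻¹ * gbeam R (Lam t (x.re, v)) := by
              rw [gbeam_eq]; positivity
            have h5 : Real.exp (-4) ≤ gbg (Lam t (x.re, v)) := by
              rw [gbg_eq, Lam_apply]
              apply Real.exp_le_exp.2
              simp only
              nlinarith [norm_nonneg v]
            linarith
          have h4 := wt_le_one (P := 5) hκ0.le v
          have h5 : 0 ≤ 4 / 3 * (B * (ε * C) ^ 2) := by positivity
          nlinarith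
        have h2 : ∫ _ in Metric.ball (0 : ℂ) 1, ε * Real.exp (-4) / 2 ≤
            ∫ v in Metric.ball (0 : ℂ) 1, fsol g t x v := by
          apply setIntegral_mono_on _ (hfint t ht' x).integrableOn measurableSet_ball h1
          exact integrableOn_const (by
            rw [Complex.volume_ball]
            simp) (by simp)
        have h3 : ∫ _ in Metric.ball (0 : ℂ) 1, ε * Real.exp (-4) / 2 =
            ε * Real.exp (-4) / 2 * π := by
          rw [setIntegral_const, Measure.real, Complex.volume_ball]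
          simp
          ring
        have h4 : ∫ v in Metric.ball (0 : ℂ) 1, fsol g t x v ≤ ∫ v, fsol g t x v :=
          setIntegral_le_integral (hfint t ht' x) (Eventually.of_forall fun v => hf0 t ht' x v)
        linarith
      · exact integral_mono (hfint t ht' x) J5_integrable (fun v => hfle t x v)
      · apply integral_mono_of_nonneg
        · exact Eventually.of_forall fun v => mul_nonneg (hf0 t ht' x v) (by positivity)
        · exact J5_sq_integrable
        · exact Eventually.of_forall fun v =>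
            mul_le_mul_of_nonneg_right (hfle t x v) (by positivity)
      · apply integral_nonpos
        intro v
        apply mul_nonpos_of_nonneg_of_nonpos (hf0 t ht' x v)
        exact Real.log_nonpos (hf0 t ht' x v) ((hfle t x v).trans (J_le_one _ _))
    have hN : -(2 * s) ≤ 0 → ∀ r, 0 ≤ r → ∀ x ∈ Metric.ball (0 : ℂ) 1, ∀ v,
        (1 + ‖v‖) ^ r * fsol g (-1) x v ≤ ε * NN r := by
      intro _ r _ x hx v
      rw [Metric.mem_ball, dist_zero_right] at hx
      have h1 : fsol g (-1) x v = ε * gin0 5 R (x.re + v.re, v) := by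
        show gsol (muB s b) gin (-1) (Lam (-1) (x.re, v)) = _
        rw [hgi, Lam_apply]
        simp [hgin]
      rw [h1]
      have h2 := hNN r R hR x hx v
      calc _ = ε * ((1 + ‖v‖) ^ r * gin0 5 R (x.re + v.re, v)) := by ring
        _ ≤ _ := mul_le_mul_of_nonneg_left h2 hε0.le
    have hest := hCt (fsol g) hcl hhydro hN (-(1 / 4)) ⟨by norm_num, by norm_num⟩ 0
      (by simp) (R : ℂ)
    rw [norm_iteratedFDeriv_zero] at hest
    have hval : ε * (R ^ 5)⁻¹ / 2 ≤ fsol g (-(1 / 4)) 0 (R : ℂ) := by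
      have h1 := hlow (-(1 / 4)) 0 (R : ℂ)
      have h2 : (R ^ 5)⁻¹ ≤ gin0 5 R (Lam (-(1 / 4)) ((0 : ℂ).re, (R : ℂ))) := by
        unfold gin0
        rw [gbg_eq, gbeam_eq, Lam_apply]
        simp only [Complex.zero_re, Complex.ofReal_re, sub_self, norm_zero]
        have h3 : -(4 * ((0 - -(1 / 4) * R - R / 4) ^ 2 + 0 ^ 2)) = 0 := by ring
        rw [h3, Real.exp_zero, mul_one]
        have h4 := Real.exp_pos (-(4 * ‖(R : ℂ)‖ ^ 2))
        linarith
      have h3 : wt 5 κ (R : ℂ) ≤ (R ^ 5)⁻¹ := by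
        refine (wt_le_J hκ0.le _).trans ?_
        unfold J
        apply inv_anti₀ (by positivity)
        rw [Complex.norm_real, Real.norm_eq_abs, abs_of_pos hR0]
        gcongr
        linarith
      have h4 : 0 ≤ 4 / 3 * (B * (ε * C) ^ 2) := by positivity
      have h5 : 4 / 3 * (B * (ε * C) ^ 2) ≤ ε / 2 := by nlinarith
      have h6 : 0 < (R ^ 5)⁻¹ := by positivity
      have h7 : 4 / 3 * (B * (ε * C) ^ 2) * wt 5 κ (R : ℂ) ≤ ε / 2 * (R ^ 5)⁻¹ :=
        mul_le_mul h5 h3 (wt_pos _ _ _).le (by positivity)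
      have h8 := mul_le_mul_of_nonneg_left h2 hε0.le
      linarith
    have hval0 : 0 ≤ fsol g (-(1 / 4)) 0 (R : ℂ) := by
      refine le_trans ?_ hval
      positivity
    have hj : ‖joint (fsol g) (-(1 / 4), 0, (R : ℂ))‖ = fsol g (-(1 / 4)) 0 (R : ℂ) := by
      show ‖fsol g (-(1 / 4)) 0 (R : ℂ)‖ = _
      rw [Real.norm_eq_abs, abs_of_nonneg hval0]
    rw [hj, Complex.norm_real, Real.norm_eq_abs, abs_of_pos hR0] at hest
    calc R ^ (q - 5) * (ε / 2) = R ^ q * (ε * (R ^ 5)⁻¹ / 2) := by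
          rw [Real.rpow_sub hR0]
          norm_cast
          field_simp
      _ ≤ (1 + R) ^ q * (ε * (R ^ 5)⁻¹ / 2) := by
          apply mul_le_mul_of_nonneg_right _ (by positivity)
          exact Real.rpow_le_rpow hR0.le (by linarith) (by linarith)
      _ ≤ (1 + R) ^ q * fsol g (-(1 / 4)) 0 (R : ℂ) := by
          apply mul_le_mul_of_nonneg_left hval (by positivity)
      _ ≤ Ct := hest
  -- contradiction as `R → ∞`
  have htend : Tendsto (fun R : ℝ => R ^ (q - 5) * (ε / 2)) atTop atTop :=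
    (tendsto_rpow_atTop (by linarith)).atTop_mul_const (by positivity)
  obtain ⟨R, hR1, hR2⟩ := ((htend.eventually_gt_atTop Ct).and (eventually_ge_atTop 4)).exists
  exact absurd (key R hR2) (not_le.2 hR1)

/-- The model kernel is admissible. -/
theorem model_admissible {s : ℝ} (hs0 : 0 < s) (hs1 : s < 1 / 2) :
    Admissible s (-(2 * s)) 1 (fun x => ((1 - x) / 2) ^ (-(1 / 2 : ℝ) - s)) := by
  refine ⟨hs0, by linarith, by linarith, by linarith, by linarith, le_rfl, by fun_prop, ?_⟩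
  intro θ _
  have h1 : (1 - Real.cos θ) / 2 = |Real.sin (θ / 2)| ^ 2 := by
    rw [sq_abs, ← normSq_bb, ← re_bb_eq, bb_re]
  have h2 : ((1 - Real.cos θ) / 2) ^ (-(1 / 2 : ℝ) - s) =
      |Real.sin (θ / 2)| ^ (-(1 : ℝ) - 2 * s) := by
    rw [h1, ← Real.rpow_natCast, ← Real.rpow_mul (abs_nonneg _)]
    congr 1
    push_cast; ring
  simp only [inv_one, one_mul]
  rw [h2]
  exact ⟨le_rfl, le_rfl⟩

end Pool.MP08d8de
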