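import Mathlib

/-!
Kernel estimates for the non-cutoff Boltzmann collision operator in dimension `d = 2`
(`ℝ² ≅ ℂ`), with `γ = -2 s` and `b(cos θ) = |sin (θ/2)|^{-1-2s}`, `0 < s < 1/2`.
-/

open MeasureTheory Set Filter Topology
open scoped Real ENNReal

noncomputable section

namespace Pool.MP08d8de

/-- `a(θ) = (1 + e^{iθ})/2`. -/
def aa (θ : ℝ) : ℂ := (1 + Complex.exp (θ * Complex.I)) / 2
/-- `b(θ) = (1 - e^{iθ})/2`. -/
def bb (θ : ℝ) : ℂ := (1 - Complex.exp (θ * Complex.I)) / 2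

lemma continuous_aa : Continuous aa := by unfold aa; fun_prop
lemma continuous_bb : Continuous bb := by unfold bb; fun_prop

lemma aa_re (θ : ℝ) : (aa θ).re = (1 + Real.cos θ) / 2 := by
  unfold aa
  rw [Complex.exp_mul_I]
  simp [Complex.cos_ofReal_re, Complex.sin_ofReal_re, Complex.cos_ofReal_im,
    Complex.sin_ofReal_im]

lemma aa_im (θ : ℝ) : (aa θ).im = Real.sin θ / 2 := by
  unfold aa
  rw [Complex.exp_mul_I]
  simp [Complex.cos_ofReal_re, Complex.sin_ofReal_re, Complex.cos_ofReal_im,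
    Complex.sin_ofReal_im]

lemma bb_re (θ : ℝ) : (bb θ).re = (1 - Real.cos θ) / 2 := by
  unfold bb
  rw [Complex.exp_mul_I]
  simp [Complex.cos_ofReal_re, Complex.sin_ofReal_re, Complex.cos_ofReal_im,
    Complex.sin_ofReal_im]

lemma bb_im (θ : ℝ) : (bb θ).im = -Real.sin θ / 2 := by
  unfold bb
  rw [Complex.exp_mul_I]
  simp [Complex.cos_ofReal_re, Complex.sin_ofReal_re, Complex.cos_ofReal_im,
    Complex.sin_ofReal_im]

lemma aa_add_bb (θ : ℝ) : aa θ + bb θ = 1 := by unfold aa bb; ring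

lemma norm_aa_sub_bb (θ : ℝ) : ‖aa θ - bb θ‖ = 1 := by
  have : aa θ - bb θ = Complex.exp (θ * Complex.I) := by unfold aa bb; ring
  rw [this, Complex.norm_exp_ofReal_mul_I]

lemma normSq_bb (θ : ℝ) : ‖bb θ‖ ^ 2 = Real.sin (θ / 2) ^ 2 := by
  rw [Complex.sq_norm, Complex.normSq_apply, bb_re, bb_im]
  have h1 : Real.cos θ = 1 - 2 * Real.sin (θ / 2) ^ 2 := by
    have := Real.cos_two_mul (θ / 2)
    rw [show 2 * (θ / 2) = θ by ring] at this
    have h2 := Real.sin_sq_add_cos_sq (θ / 2)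
    linarith
  have h3 := Real.sin_sq_add_cos_sq θ
  nlinarith

lemma norm_bb (θ : ℝ) : ‖bb θ‖ = |Real.sin (θ / 2)| := by
  rw [← abs_of_nonneg (norm_nonneg (bb θ)), ← sq_eq_sq_iff_abs_eq_abs]
  exact normSq_bb θ

lemma normSq_aa (θ : ℝ) : ‖aa θ‖ ^ 2 = Real.cos (θ / 2) ^ 2 := by
  rw [Complex.sq_norm, Complex.normSq_apply, aa_re, aa_im]
  have h1 : Real.cos θ = 2 * Real.cos (θ / 2) ^ 2 - 1 := by
    have := Real.cos_two_mul (θ / 2)
    rwa [show 2 * (θ / 2) = θ by ring] at this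
  have h3 := Real.sin_sq_add_cos_sq θ
  nlinarith

lemma norm_aa (θ : ℝ) : ‖aa θ‖ = |Real.cos (θ / 2)| := by
  rw [← abs_of_nonneg (norm_nonneg (aa θ)), ← sq_eq_sq_iff_abs_eq_abs]
  exact normSq_aa θ

lemma re_bb_eq (θ : ℝ) : (bb θ).re = ‖bb θ‖ ^ 2 := by
  rw [normSq_bb, bb_re]
  have := Real.cos_two_mul (θ / 2)
  rw [show 2 * (θ / 2) = θ by ring] at this
  have h2 := Real.sin_sq_add_cos_sq (θ / 2)
  linarith

lemma norm_bb_le (θ : ℝ) : ‖bb θ‖ ≤ |θ| / 2 := by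
  rw [norm_bb]
  calc |Real.sin (θ / 2)| ≤ |θ / 2| := Real.abs_sin_le_abs
    _ = |θ| / 2 := by rw [abs_div]; norm_num

lemma norm_bb_le_one (θ : ℝ) : ‖bb θ‖ ≤ 1 := by
  rw [norm_bb]; exact Real.abs_sin_le_one _

lemma norm_aa_le_one (θ : ℝ) : ‖aa θ‖ ≤ 1 := by
  rw [norm_aa]; exact Real.abs_cos_le_one _

lemma one_le_norm_add (θ : ℝ) : 1 ≤ ‖aa θ‖ + ‖bb θ‖ := by
  rw [← norm_aa_sub_bb θ]; exact norm_sub_le _ _

/-- Conservation of energy. -/
lemma energy (θ : ℝ) (v z : ℂ) :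
    ‖v + aa θ * z‖ ^ 2 + ‖v + bb θ * z‖ ^ 2 = ‖v‖ ^ 2 + ‖v + z‖ ^ 2 := by
  have ha : aa θ = 1 - bb θ := by rw [← aa_add_bb θ]; ring
  have hb := re_bb_eq θ
  rw [Complex.sq_norm, Complex.normSq_apply] at hb
  simp only [Complex.sq_norm, Complex.normSq_apply, ha, Complex.add_re, Complex.mul_re,
    Complex.add_im, Complex.mul_im, Complex.sub_re, Complex.sub_im, Complex.one_re, Complex.one_im]
  generalize (bb θ).re = x at *
  generalize (bb θ).im = y at *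
  have : x = x * x + y * y := hb
  have key : (2 * z.re * z.re + 2 * z.im * z.im) * (x * x + y * y - x) = 0 := by
    rw [← this]; ring
  nlinarith [key]

/-- Along the chord, energy decreases by at most `‖b z‖²/2`. -/
lemma energy_chord (θ l : ℝ) (v z : ℂ) (hl0 : 0 ≤ l) (hl1 : l ≤ 1) :
    ‖v‖ ^ 2 + ‖v + z‖ ^ 2 - ‖bb θ * z‖ ^ 2 / 2 ≤
      ‖v + (z - l * (bb θ * z))‖ ^ 2 + ‖v + l * (bb θ * z)‖ ^ 2 := by
  have hb := re_bb_eq θ
  rw [Complex.sq_norm, Complex.normSq_apply] at hb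
  simp only [Complex.sq_norm, Complex.normSq_apply, Complex.add_re, Complex.mul_re,
    Complex.add_im, Complex.mul_im, Complex.sub_re, Complex.sub_im, Complex.ofReal_re,
    Complex.ofReal_im]
  generalize (bb θ).re = x at *
  generalize (bb θ).im = y at *
  have key : (z.re * z.re + z.im * z.im) * (x * x + y * y - x) = 0 := by
    have : x = x * x + y * y := hb
    rw [← this]; ring
  have h2 : 0 ≤ (z.re * z.re + z.im * z.im) * (x * x + y * y) * (1 / 2 - 2 * l * (1 - l)) := by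
    have h3 : 0 ≤ (1 / 2 - 2 * l * (1 - l)) := by nlinarith [sq_nonneg (l - 1/2)]
    have h4 : 0 ≤ z.re * z.re + z.im * z.im := by nlinarith [sq_nonneg z.re, sq_nonneg z.im]
    have h5 : 0 ≤ x * x + y * y := by nlinarith [sq_nonneg x, sq_nonneg y]
    exact mul_nonneg (mul_nonneg h4 h5) h3
  nlinarith [key, h2]

/-- The polynomial weight. -/
def J (P : ℕ) (x : ℂ) : ℝ := ((1 + ‖x‖) ^ P)⁻¹

/-- The weight. -/
def wt (P : ℕ) (κ : ℝ) (v : ℂ) : ℝ := J P v * Real.exp (-(κ * ‖v‖ ^ 2))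

lemma J_pos (P : ℕ) (x : ℂ) : 0 < J P x := by unfold J; positivity
lemma J_nonneg (P : ℕ) (x : ℂ) : 0 ≤ J P x := (J_pos P x).le
lemma wt_pos (P : ℕ) (κ : ℝ) (x : ℂ) : 0 < wt P κ x := mul_pos (J_pos _ _) (Real.exp_pos _)

lemma J_le_one (P : ℕ) (x : ℂ) : J P x ≤ 1 := by
  unfold J
  apply inv_le_one_of_one_le₀
  exact one_le_pow₀ (by linarith [norm_nonneg x])

lemma wt_le_J {P : ℕ} {κ : ℝ} (hκ : 0 ≤ κ) (x : ℂ) : wt P κ x ≤ J P x := by
  unfold wt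
  have : Real.exp (-(κ * ‖x‖ ^ 2)) ≤ 1 := Real.exp_le_one_iff.2 (by
    have : 0 ≤ κ * ‖x‖ ^ 2 := by positivity
    linarith)
  nlinarith [J_pos P x]

lemma wt_le_one {P : ℕ} {κ : ℝ} (hκ : 0 ≤ κ) (x : ℂ) : wt P κ x ≤ 1 :=
  (wt_le_J hκ x).trans (J_le_one _ _)

lemma continuous_J (P : ℕ) : Continuous (J P) := by
  unfold J
  apply Continuous.inv₀
  · fun_prop
  · intro x; positivity

lemma continuous_wt (P : ℕ) (κ : ℝ) : Continuous (wt P κ) := by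
  unfold wt
  exact (continuous_J P).mul (by fun_prop)

/-- Peetre-type inequality. -/
lemma J_le_mul {P : ℕ} {x y : ℂ} {c : ℝ} (h : 1 + ‖y‖ ≤ c * (1 + ‖x‖)) :
    J P x ≤ c ^ P * J P y := by
  unfold J
  have hx : 0 < 1 + ‖x‖ := by positivity
  have hy : 0 < 1 + ‖y‖ := by positivity
  rw [← div_eq_mul_inv, le_div_iff₀ (by positivity), inv_mul_le_iff₀ (by positivity), ← mul_pow]
  apply pow_le_pow_left₀ hy.le
  linarith

lemma J_le_of_dist {P : ℕ} {x y : ℂ} {c : ℝ} (h : ‖y - x‖ ≤ c) :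
    J P x ≤ (1 + c) ^ P * J P y := by
  apply J_le_mul
  have : ‖y‖ ≤ ‖x‖ + ‖y - x‖ := by
    calc ‖y‖ = ‖x + (y - x)‖ := by ring_nf
      _ ≤ _ := norm_add_le _ _
  have h0 : 0 ≤ c := (norm_nonneg _).trans h
  nlinarith [norm_nonneg x]

/-- The key weight inequality. -/
lemma J_mul_J_le (P : ℕ) (θ : ℝ) (v z : ℂ) :
    J P (v + aa θ * z) * J P (v + bb θ * z) ≤
      J P v * (2 ^ P * (‖aa θ‖ ^ P * J P (v + aa θ * z) + ‖bb θ‖ ^ P * J P (v + bb θ * z))) := by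
  set A := 1 + ‖v + aa θ * z‖ with hA
  set B := 1 + ‖v + bb θ * z‖ with hB
  have hA0 : 0 < A := by positivity
  have hB0 : 0 < B := by positivity
  have hV : 1 + ‖v‖ ≤ ‖aa θ‖ * B + ‖bb θ‖ * A := by
    have h1 : (aa θ - bb θ) * v = aa θ * (v + bb θ * z) - bb θ * (v + aa θ * z) := by ring
    have h2 : ‖v‖ ≤ ‖aa θ‖ * ‖v + bb θ * z‖ + ‖bb θ‖ * ‖v + aa θ * z‖ := by
      calc ‖v‖ = ‖(aa θ - bb θ) * v‖ := by rw [norm_mul, norm_aa_sub_bb, one_mul]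
        _ = ‖aa θ * (v + bb θ * z) - bb θ * (v + aa θ * z)‖ := by rw [h1]
        _ ≤ ‖aa θ * (v + bb θ * z)‖ + ‖bb θ * (v + aa θ * z)‖ := norm_sub_le _ _
        _ = _ := by rw [norm_mul, norm_mul]
    have h3 := one_le_norm_add θ
    simp only [hA, hB]
    nlinarith
  have hVp : (1 + ‖v‖) ^ P ≤ 2 ^ P * ((‖aa θ‖ * B) ^ P + (‖bb θ‖ * A) ^ P) := by
    calc (1 + ‖v‖) ^ P ≤ (‖aa θ‖ * B + ‖bb θ‖ * A) ^ P := pow_le_pow_left₀ (by positivity) hV P
      _ ≤ 2 ^ (P - 1) * ((‖aa θ‖ * B) ^ P + (‖bb θ‖ * A) ^ P) :=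
          add_pow_le (by positivity) (by positivity) P
      _ ≤ 2 ^ P * ((‖aa θ‖ * B) ^ P + (‖bb θ‖ * A) ^ P) := by
          apply mul_le_mul_of_nonneg_right _ (by positivity)
          exact pow_le_pow_right₀ (by norm_num) (Nat.sub_le _ _)
  have e1 : J P (v + aa θ * z) = (A ^ P)⁻¹ := rfl
  have e2 : J P (v + bb θ * z) = (B ^ P)⁻¹ := rfl
  have e3 : J P v = ((1 + ‖v‖) ^ P)⁻¹ := rfl
  rw [e1, e2, e3]
  have hv0 : 0 < (1 + ‖v‖) ^ P := by positivity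
  rw [le_inv_mul_iff₀ hv0]
  have hAP : 0 < A ^ P := by positivity
  have hBP : 0 < B ^ P := by positivity
  calc (1 + ‖v‖) ^ P * ((A ^ P)⁻¹ * (B ^ P)⁻¹)
      ≤ (2 ^ P * ((‖aa θ‖ * B) ^ P + (‖bb θ‖ * A) ^ P)) * ((A ^ P)⁻¹ * (B ^ P)⁻¹) :=
        mul_le_mul_of_nonneg_right hVp (by positivity)
    _ = _ := by
        rw [mul_pow, mul_pow]
        field_simp

lemma wt_mul_wt_le {P : ℕ} {κ : ℝ} (hκ : 0 ≤ κ) (θ : ℝ) (v z : ℂ) :
    wt P κ (v + aa θ * z) * wt P κ (v + bb θ * z) ≤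
      wt P κ v * (2 ^ P * (‖aa θ‖ ^ P * J P (v + aa θ * z) + ‖bb θ‖ ^ P * J P (v + bb θ * z))) := by
  have h := J_mul_J_le P θ v z
  have hE : Real.exp (-(κ * ‖v + aa θ * z‖ ^ 2)) * Real.exp (-(κ * ‖v + bb θ * z‖ ^ 2)) ≤
      Real.exp (-(κ * ‖v‖ ^ 2)) := by
    rw [← Real.exp_add]
    apply Real.exp_le_exp.2
    have := energy θ v z
    nlinarith [mul_nonneg hκ (sq_nonneg ‖v + z‖)]
  unfold wt
  calc J P (v + aa θ * z) * Real.exp (-(κ * ‖v + aa θ * z‖ ^ 2)) *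
        (J P (v + bb θ * z) * Real.exp (-(κ * ‖v + bb θ * z‖ ^ 2)))
      = (J P (v + aa θ * z) * J P (v + bb θ * z)) *
        (Real.exp (-(κ * ‖v + aa θ * z‖ ^ 2)) * Real.exp (-(κ * ‖v + bb θ * z‖ ^ 2))) := by ring
    _ ≤ (J P v * (2 ^ P * (‖aa θ‖ ^ P * J P (v + aa θ * z) + ‖bb θ‖ ^ P * J P (v + bb θ * z)))) *
        Real.exp (-(κ * ‖v‖ ^ 2)) := by
        apply mul_le_mul h hE (by positivity)
        have := J_pos P v
        have := J_pos P (v + aa θ * z)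
        have := J_pos P (v + bb θ * z)
        positivity
    _ = _ := by ring

/-- Chord version, in the region `‖b z‖ ≤ 1/2`. -/
lemma wt_mul_wt_chord_le {P : ℕ} {κ : ℝ} (hκ : 0 ≤ κ) (hκ1 : κ ≤ 1) (θ l : ℝ) (v z : ℂ)
    (hl0 : 0 ≤ l) (hl1 : l ≤ 1) (hz : ‖bb θ * z‖ ≤ 1 / 2) :
    wt P κ (v + (z - l * (bb θ * z))) * wt P κ (v + l * (bb θ * z)) ≤
      wt P κ v * (2 * (3 / 2) ^ (2 * P) * J P (v + z)) := by
  have hn : ‖(l : ℂ) * (bb θ * z)‖ ≤ 1 / 2 := by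
    rw [norm_mul, Complex.norm_real, Real.norm_eq_abs, abs_of_nonneg hl0]
    nlinarith [norm_nonneg (bb θ * z)]
  have h1 : J P (v + (z - l * (bb θ * z))) ≤ (3 / 2) ^ P * J P (v + z) := by
    have := J_le_of_dist (P := P) (x := v + (z - l * (bb θ * z))) (y := v + z) (c := 1 / 2) (by
      rw [show v + z - (v + (z - l * (bb θ * z))) = l * (bb θ * z) by ring]
      exact hn)
    norm_num at this ⊢
    exact this
  have h2 : J P (v + l * (bb θ * z)) ≤ (3 / 2) ^ P * J P v := by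
    have := J_le_of_dist (P := P) (x := v + l * (bb θ * z)) (y := v) (c := 1 / 2) (by
      rw [show v - (v + l * (bb θ * z)) = -(l * (bb θ * z)) by ring, norm_neg]
      exact hn)
    norm_num at this ⊢
    exact this
  have hE : Real.exp (-(κ * ‖v + (z - l * (bb θ * z))‖ ^ 2)) *
      Real.exp (-(κ * ‖v + l * (bb θ * z)‖ ^ 2)) ≤ 2 * Real.exp (-(κ * ‖v‖ ^ 2)) := by
    rw [← Real.exp_add]
    have h2e : Real.exp (1 / 2) ≤ 2 := by
      have := Real.exp_one_lt_d9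
      have h3 : Real.exp (1 / 2) ^ 2 = Real.exp 1 := by
        rw [← Real.exp_nat_mul]; norm_num
      nlinarith [Real.exp_pos (1 / 2)]
    calc _ ≤ Real.exp (1 / 2 + -(κ * ‖v‖ ^ 2)) := by
          apply Real.exp_le_exp.2
          have := energy_chord θ l v z hl0 hl1
          have h5 : ‖bb θ * z‖ ^ 2 ≤ 1 := by nlinarith [norm_nonneg (bb θ * z)]
          nlinarith [mul_nonneg hκ (sq_nonneg ‖v + z‖),
            mul_nonneg hκ (sub_nonneg.2 this), mul_nonneg hκ (sub_nonneg.2 h5)]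
      _ = Real.exp (1 / 2) * Real.exp (-(κ * ‖v‖ ^ 2)) := Real.exp_add _ _
      _ ≤ _ := mul_le_mul_of_nonneg_right h2e (Real.exp_pos _).le
  unfold wt
  calc J P (v + (z - l * (bb θ * z))) * Real.exp (-(κ * ‖v + (z - l * (bb θ * z))‖ ^ 2)) *
        (J P (v + l * (bb θ * z)) * Real.exp (-(κ * ‖v + l * (bb θ * z)‖ ^ 2)))
      = (J P (v + (z - l * (bb θ * z))) * J P (v + l * (bb θ * z))) *
        (Real.exp (-(κ * ‖v + (z - l * (bb θ * z))‖ ^ 2)) *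
          Real.exp (-(κ * ‖v + l * (bb θ * z)‖ ^ 2))) := by ring
    _ ≤ (((3 / 2) ^ P * J P (v + z)) * ((3 / 2) ^ P * J P v)) *
        (2 * Real.exp (-(κ * ‖v‖ ^ 2))) := by
        apply mul_le_mul _ hE (by positivity)
        · have := J_pos P v
          have := J_pos P (v + z)
          positivity
        · exact mul_le_mul h1 h2 (J_nonneg _ _) (mul_nonneg (by positivity) (J_nonneg _ _))
    _ = _ := by rw [two_mul P, pow_add]; ring

end Pool.MP08d8de
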