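import Pool.Agent.MP_08d8de_an.Kernel

open MeasureTheory Set Filter Topology
open scoped Real ENNReal

noncomputable section

namespace Pool.MP08d8de

/-- The collision kernel `|z|^{-2s} |sin(θ/2)|^{-1-2s}`. -/
def kern (s : ℝ) (p : ℂ × ℝ) : ℝ := ‖p.1‖ ^ (-(2 * s)) * |Real.sin (p.2 / 2)| ^ (-(1 + 2 * s))

/-- The collision measure. -/
def muK (s : ℝ) : Measure (ℂ × ℝ) :=
  ((volume : Measure ℂ).prod (volume.restrict (Ioo (-π) π))).withDensity
    (fun p => ENNReal.ofReal (kern s p))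

lemma measurable_kern (s : ℝ) : Measurable (kern s) := by
  unfold kern; fun_prop

lemma kern_nonneg (s : ℝ) (p : ℂ × ℝ) : 0 ≤ kern s p := by unfold kern; positivity

/-- The majorant. -/
def Psi (P : ℕ) (v : ℂ) (p : ℂ × ℝ) : ℝ :=
  if ‖p.1‖ * |p.2| ≤ 1 then ‖p.1‖ * |p.2| * J P (v + p.1)
  else ‖aa p.2‖ ^ P * J P (v + aa p.2 * p.1) + ‖bb p.2‖ ^ P * J P (v + bb p.2 * p.1) + J P (v + p.1)

lemma measurable_J (P : ℕ) : Measurable (J P) := (continuous_J P).measurable

lemma measurable_Psi (P : ℕ) (v : ℂ) : Measurable (Psi P v) := by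
  unfold Psi
  have ha := continuous_aa.measurable
  have hb := continuous_bb.measurable
  have hJ := measurable_J P
  apply Measurable.ite
  · exact measurableSet_le (by fun_prop) (by fun_prop)
  · fun_prop
  · fun_prop

lemma Psi_nonneg (P : ℕ) (v : ℂ) (p : ℂ × ℝ) : 0 ≤ Psi P v p := by
  unfold Psi
  have := J_nonneg P (v + p.1)
  have := J_nonneg P (v + aa p.2 * p.1)
  have := J_nonneg P (v + bb p.2 * p.1)
  split_ifs <;> positivity

/-- `Psi` at nearby points. -/
lemma Psi_le_of_dist {P : ℕ} {v v' : ℂ} (h : ‖v' - v‖ ≤ 1) (p : ℂ × ℝ) :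
    Psi P v p ≤ 2 ^ P * Psi P v' p := by
  have key : ∀ w : ℂ, J P (v + w) ≤ 2 ^ P * J P (v' + w) := by
    intro w
    have := J_le_of_dist (P := P) (x := v + w) (y := v' + w) (c := 1) (by
      rw [show v' + w - (v + w) = v' - v by ring]; exact h)
    norm_num at this ⊢
    exact this
  unfold Psi
  split_ifs with hc
  · calc _ ≤ ‖p.1‖ * |p.2| * (2 ^ P * J P (v' + p.1)) :=
        mul_le_mul_of_nonneg_left (key _) (by positivity)
      _ = _ := by ring
  · calc _ ≤ ‖aa p.2‖ ^ P * (2 ^ P * J P (v' + aa p.2 * p.1)) +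
          ‖bb p.2‖ ^ P * (2 ^ P * J P (v' + bb p.2 * p.1)) + 2 ^ P * J P (v' + p.1) := by
          gcongr <;> apply key
      _ = _ := by ring

/-! ### One-dimensional integrals -/

lemma sin_half_ge {θ : ℝ} (hθ : θ ∈ Ioo (-π) π) : |θ| / π ≤ |Real.sin (θ / 2)| := by
  have hπ := Real.pi_pos
  have h := Real.mul_abs_le_abs_sin (x := θ / 2) (by
    rw [abs_div, abs_two]
    have : |θ| ≤ π := abs_le.2 ⟨hθ.1.le, hθ.2.le⟩
    linarith)
  rw [abs_div, abs_two] at h
  calc |θ| / π = 2 / π * (|θ| / 2) := by field_simp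
    _ ≤ _ := h

lemma S_le {s : ℝ} (hs0 : 0 < s) (hs1 : s < 1 / 2) {θ : ℝ} (hθ : θ ∈ Ioo (-π) π) :
    |Real.sin (θ / 2)| ^ (-(1 + 2 * s)) ≤ π ^ 2 * |θ| ^ (-(1 + 2 * s)) := by
  have hπ := Real.pi_pos
  rcases eq_or_ne θ 0 with h0 | h0
  · subst h0
    simp only [zero_div, Real.sin_zero, abs_zero]
    rw [Real.zero_rpow (by linarith)]
    simp
  · have hθp : 0 < |θ| := abs_pos.2 h0
    calc |Real.sin (θ / 2)| ^ (-(1 + 2 * s)) ≤ (|θ| / π) ^ (-(1 + 2 * s)) :=
          Real.rpow_le_rpow_of_nonpos (by positivity) (sin_half_ge hθ) (by linarith)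
      _ = π ^ (1 + 2 * s) * |θ| ^ (-(1 + 2 * s)) := by
          rw [Real.div_rpow hθp.le hπ.le, Real.rpow_neg hπ.le]
          field_simp
      _ ≤ π ^ 2 * |θ| ^ (-(1 + 2 * s)) := by
          apply mul_le_mul_of_nonneg_right _ (by positivity)
          rw [← Real.rpow_natCast]
          apply Real.rpow_le_rpow_of_exponent_le
          · linarith [Real.pi_gt_three]
          · push_cast; linarith

lemma lintegral_neg_half (f : ℝ → ℝ≥0∞) (hf : Measurable f) (hev : ∀ x, f (-x) = f x) (c : ℝ) :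
    ∫⁻ x in Iio (-c), f x = ∫⁻ x in Ioi c, f x := by
  have h := (Measure.measurePreserving_neg (volume : Measure ℝ)).setLIntegral_comp_preimage
    (s := Iio (-c)) measurableSet_Iio hf
  rw [← h]
  have : (Neg.neg ⁻¹' Iio (-c)) = Ioi c := by ext x; simp
  rw [this]
  simp [hev]

lemma lint_far {s : ℝ} (hs0 : 0 < s) (hs1 : s < 1 / 2) {c : ℝ} (hc : 0 < c) :
    ∫⁻ θ in Ioo (-π) π, {θ : ℝ | c < |θ|}.indicator
      (fun θ => ENNReal.ofReal (|Real.sin (θ / 2)| ^ (-(1 + 2 * s)))) θ ≤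
      ENNReal.ofReal (π ^ 2 / s * c ^ (-(2 * s))) := by
  have hπ := Real.pi_pos
  set f : ℝ → ℝ≥0∞ := fun θ => ENNReal.ofReal (π ^ 2 * |θ| ^ (-(1 + 2 * s))) with hf
  have hfm : Measurable f := by fun_prop
  have hset : {θ : ℝ | c < |θ|} = Iio (-c) ∪ Ioi c := by
    ext x
    simp only [mem_ofPred_eq, mem_union, mem_Iio, mem_Ioi, lt_abs]
    constructor
    · rintro (h | h)
      · right; exact h
      · left; linarith
    · rintro (h | h)
      · right; linarith
      · left; exact h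
  calc _ ≤ ∫⁻ θ in Ioo (-π) π, {θ : ℝ | c < |θ|}.indicator f θ := by
        apply setLIntegral_mono' measurableSet_Ioo
        intro θ hθ
        apply indicator_le_indicator
        exact ENNReal.ofReal_le_ofReal (S_le hs0 hs1 hθ)
    _ ≤ ∫⁻ θ, {θ : ℝ | c < |θ|}.indicator f θ := setLIntegral_le_lintegral _ _
    _ = ∫⁻ θ in {θ : ℝ | c < |θ|}, f θ := by
        rw [lintegral_indicator]
        exact measurableSet_lt measurable_const (by fun_prop)
    _ ≤ (∫⁻ θ in Iio (-c), f θ) + ∫⁻ θ in Ioi c, f θ := by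
        rw [hset]; exact lintegral_union_le _ _ _
    _ = 2 * ∫⁻ θ in Ioi c, f θ := by
        rw [lintegral_neg_half f hfm (by intro x; simp [hf]) c, two_mul]
    _ = 2 * ENNReal.ofReal (∫ θ in Ioi c, π ^ 2 * θ ^ (-(1 + 2 * s))) := by
        rw [ofReal_integral_eq_lintegral_ofReal]
        · congr 1
          apply setLIntegral_congr_fun measurableSet_Ioi
          intro x hx
          have : 0 < x := hc.trans hx
          simp only [hf, abs_of_pos this]
        · exact ((integrableOn_Ioi_rpow_of_lt (by linarith) hc).const_mul _)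
        · filter_upwards [ae_restrict_mem measurableSet_Ioi] with x hx
          have : 0 < x := hc.trans hx
          positivity
    _ = ENNReal.ofReal (π ^ 2 / s * c ^ (-(2 * s))) := by
        rw [integral_const_mul, integral_Ioi_rpow_of_lt (by linarith) hc,
          show (2 : ℝ≥0∞) = ENNReal.ofReal 2 by simp, ← ENNReal.ofReal_mul (by norm_num)]
        congr 1
        rw [show -(1 + 2 * s) + 1 = -(2 * s) by ring]
        field_simp

lemma lint_near {s : ℝ} (hs0 : 0 < s) (hs1 : s < 1 / 2) {c : ℝ} (hc : 0 < c) :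
    ∫⁻ θ in Ioo (-π) π, {θ : ℝ | |θ| ≤ c}.indicator
      (fun θ => ENNReal.ofReal (|Real.sin (θ / 2)| ^ (-(1 + 2 * s)) * |θ|)) θ ≤
      ENNReal.ofReal (2 * π ^ 2 / (1 - 2 * s) * c ^ (1 - 2 * s)) := by
  have hπ := Real.pi_pos
  set f : ℝ → ℝ≥0∞ := fun θ => ENNReal.ofReal (π ^ 2 * |θ| ^ (-(2 * s))) with hf
  have hfm : Measurable f := by fun_prop
  have hset : {θ : ℝ | |θ| ≤ c} = Icc (-c) 0 ∪ Icc 0 c := by
    ext x
    simp only [mem_ofPred_eq, mem_union, mem_Icc, abs_le]
    constructor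
    · rintro ⟨h1, h2⟩
      rcases le_total x 0 with h | h
      · left; exact ⟨h1, h⟩
      · right; exact ⟨h, h2⟩
    · rintro (h | h)
      · exact ⟨h.1, by linarith [h.2]⟩
      · exact ⟨by linarith [h.1], h.2⟩
  have hneg : ∫⁻ x in Icc (-c) 0, f x = ∫⁻ x in Icc 0 c, f x := by
    have h := (Measure.measurePreserving_neg (volume : Measure ℝ)).setLIntegral_comp_preimage
      (s := Icc (-c) 0) measurableSet_Icc hfm
    rw [← h]
    have : (Neg.neg ⁻¹' Icc (-c) 0) = Icc 0 c := by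
      ext x; simp [and_comm]
    rw [this]
    simp [hf]
  calc _ ≤ ∫⁻ θ in Ioo (-π) π, {θ : ℝ | |θ| ≤ c}.indicator f θ := by
        apply setLIntegral_mono' measurableSet_Ioo
        intro θ hθ
        apply indicator_le_indicator
        apply ENNReal.ofReal_le_ofReal
        rcases eq_or_ne θ 0 with h0 | h0
        · subst h0; simp; positivity
        · have hθp : 0 < |θ| := abs_pos.2 h0
          calc _ ≤ (π ^ 2 * |θ| ^ (-(1 + 2 * s))) * |θ| :=
                mul_le_mul_of_nonneg_right (S_le hs0 hs1 hθ) hθp.le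
            _ = π ^ 2 * |θ| ^ (-(2 * s)) := by
                rw [mul_assoc]
                congr 1
                nth_rewrite 2 [← Real.rpow_one |θ|]
                rw [← Real.rpow_add hθp]
                congr 1; ring
    _ ≤ ∫⁻ θ, {θ : ℝ | |θ| ≤ c}.indicator f θ := setLIntegral_le_lintegral _ _
    _ = ∫⁻ θ in {θ : ℝ | |θ| ≤ c}, f θ := by
        rw [lintegral_indicator]
        exact measurableSet_le (by fun_prop) measurable_const
    _ ≤ (∫⁻ θ in Icc (-c) 0, f θ) + ∫⁻ θ in Icc 0 c, f θ := by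
        rw [hset]; exact lintegral_union_le _ _ _
    _ = 2 * ∫⁻ θ in Icc 0 c, f θ := by
        rw [hneg, two_mul]
    _ = 2 * ∫⁻ θ in Ioc 0 c, f θ := by rw [restrict_Ioc_eq_restrict_Icc]
    _ = 2 * ENNReal.ofReal (∫ θ in Ioc 0 c, π ^ 2 * θ ^ (-(2 * s))) := by
        rw [ofReal_integral_eq_lintegral_ofReal]
        · congr 1
          apply setLIntegral_congr_fun measurableSet_Ioc
          intro x hx
          simp only [hf, abs_of_pos hx.1]
        · have := (intervalIntegral.intervalIntegrable_rpow' (a := 0) (b := c)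
            (r := -(2 * s)) (by linarith)).const_mul (π ^ 2)
          rwa [intervalIntegrable_iff_integrableOn_Ioc_of_le hc.le] at this
        · filter_upwards [ae_restrict_mem measurableSet_Ioc] with x hx
          have : 0 < x := hx.1
          positivity
    _ = ENNReal.ofReal (2 * π ^ 2 / (1 - 2 * s) * c ^ (1 - 2 * s)) := by
        rw [integral_const_mul, ← intervalIntegral.integral_of_le hc.le,
          integral_rpow (Or.inl (by linarith)),
          show (2 : ℝ≥0∞) = ENNReal.ofReal 2 by simp, ← ENNReal.ofReal_mul (by norm_num)]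
        congr 1
        rw [show -(2 * s) + 1 = 1 - 2 * s by ring, Real.zero_rpow (by linarith)]
        have : 1 - 2 * s ≠ 0 := by linarith
        field_simp
        ring

/-! ### Integrals over `ℂ` -/

lemma lintegral_comp_mul {c : ℂ} (hc : c ≠ 0) {F : ℂ → ℝ≥0∞} (hF : Measurable F) :
    ∫⁻ z, F (c * z) = ENNReal.ofReal ((‖c‖ ^ 2)⁻¹) * ∫⁻ z, F z := by
  have hdet : LinearMap.det (LinearMap.mulLeft ℝ c) = ‖c‖ ^ 2 := by
    have h1 : Algebra.norm ℝ c = LinearMap.det (LinearMap.mulLeft ℝ c) := rfl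
    rw [← h1, Algebra.norm_complex_apply, Complex.normSq_eq_norm_sq]
  have hne : LinearMap.det (LinearMap.mulLeft ℝ c) ≠ 0 := by
    rw [hdet]; exact pow_ne_zero _ (norm_ne_zero_iff.2 hc)
  have h := Measure.map_linearMap_addHaar_eq_smul_addHaar (volume : Measure ℂ) hne
  have h2 : ∫⁻ z, F (c * z) = ∫⁻ z, F z ∂(Measure.map (LinearMap.mulLeft ℝ c) volume) := by
    rw [lintegral_map hF]
    · rfl
    · have : Measurable (fun z : ℂ => c * z) := measurable_const_mul c
      exact this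
  rw [h2, h, lintegral_smul_measure, hdet, abs_of_nonneg (by positivity)]
  rfl

lemma lint_J {s : ℝ} (hs0 : 0 < s) (hs1 : s < 1 / 2) {P : ℕ} (hP : 3 ≤ P) :
    ∃ C : ℝ, 0 ≤ C ∧ ∀ v : ℂ, ∫⁻ u : ℂ, ENNReal.ofReal ((1 + ‖u‖ ^ (-(2 * s))) * J P (v + u)) ≤
      ENNReal.ofReal C := by
  have hfin : (Module.finrank ℝ ℂ : ℝ) < (P : ℝ) := by
    rw [Complex.finrank_real_complex]
    have : (3 : ℝ) ≤ P := by exact_mod_cast hP
    push_cast; linarith
  have hi1 : Integrable (fun x : ℂ => J P x) := by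
    have := integrable_one_add_norm (E := ℂ) (μ := volume) hfin
    refine this.congr (Eventually.of_forall fun x => ?_)
    simp only [J]
    rw [Real.rpow_neg (by positivity), Real.rpow_natCast]
  have hi2 : IntegrableOn (fun x : ℂ => ‖x‖ ^ (-(2 * s))) (Metric.ball 0 1) := by
    apply integrableOn_ball_of_norm_le_rpow (C := 1) (α := 2 * s)
      (by rw [Complex.finrank_real_complex]; norm_num)
    · rw [Complex.finrank_real_complex]; push_cast; linarith
    · refine Eventually.of_forall fun x => ?_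
      simp only [Real.norm_eq_abs, one_mul]
      rw [abs_of_nonneg (by positivity)]
    · exact Measurable.aestronglyMeasurable (by fun_prop)
  have hJint : ∀ v : ℂ, ∫⁻ u : ℂ, ENNReal.ofReal (J P (v + u)) =
      ENNReal.ofReal (∫ u, J P u) := by
    intro v
    rw [lintegral_add_left_eq_self (fun u => ENNReal.ofReal (J P u)) v,
      ofReal_integral_eq_lintegral_ofReal hi1 (Eventually.of_forall fun x => J_nonneg _ _)]
  refine ⟨2 * (∫ u, J P u) + ∫ u in Metric.ball (0 : ℂ) 1, ‖u‖ ^ (-(2 * s)), ?_, fun v => ?_⟩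
  · have h1 : 0 ≤ ∫ u, J P u := integral_nonneg fun u => J_nonneg _ _
    have h2 : 0 ≤ ∫ u in Metric.ball (0 : ℂ) 1, ‖u‖ ^ (-(2 * s)) :=
      integral_nonneg fun u => by positivity
    positivity
  have hmJ := measurable_J P
  calc ∫⁻ u : ℂ, ENNReal.ofReal ((1 + ‖u‖ ^ (-(2 * s))) * J P (v + u))
      ≤ ∫⁻ u : ℂ, (2 * ENNReal.ofReal (J P (v + u)) +
          (Metric.ball (0 : ℂ) 1).indicator (fun u => ENNReal.ofReal (‖u‖ ^ (-(2 * s)))) u) := by
        apply lintegral_mono
        intro u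
        have hJ0 := J_nonneg P (v + u)
        have hJ1 := J_le_one P (v + u)
        by_cases hu : u ∈ Metric.ball (0 : ℂ) 1
        · simp only [indicator_of_mem hu]
          rw [show (2 : ℝ≥0∞) = ENNReal.ofReal 2 by simp, ← ENNReal.ofReal_mul (by norm_num),
            ← ENNReal.ofReal_add (by positivity) (by positivity)]
          apply ENNReal.ofReal_le_ofReal
          have h0 : 0 ≤ ‖u‖ ^ (-(2 * s)) := by positivity
          nlinarith
        · simp only [indicator_of_notMem hu, add_zero]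
          rw [show (2 : ℝ≥0∞) = ENNReal.ofReal 2 by simp, ← ENNReal.ofReal_mul (by norm_num)]
          apply ENNReal.ofReal_le_ofReal
          have h1 : 1 ≤ ‖u‖ := by
            rw [Metric.mem_ball, dist_zero_right] at hu
            linarith
          have h2 : ‖u‖ ^ (-(2 * s)) ≤ 1 :=
            Real.rpow_le_one_of_one_le_of_nonpos h1 (by linarith)
          nlinarith
    _ = 2 * (∫⁻ u : ℂ, ENNReal.ofReal (J P (v + u))) +
          ∫⁻ u : ℂ in Metric.ball (0 : ℂ) 1, ENNReal.ofReal (‖u‖ ^ (-(2 * s))) := by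
        rw [lintegral_add_right _ (by
          apply Measurable.indicator _ measurableSet_ball
          fun_prop), lintegral_const_mul _ (by fun_prop), lintegral_indicator measurableSet_ball]
    _ = _ := by
        rw [hJint, ← ofReal_integral_eq_lintegral_ofReal hi2
          (Eventually.of_forall fun x => by positivity)]
        rw [show (2 : ℝ≥0∞) = ENNReal.ofReal 2 by simp, ← ENNReal.ofReal_mul (by norm_num),
            ← ENNReal.ofReal_add]
        · have h1 : 0 ≤ ∫ u, J P u := integral_nonneg fun u => J_nonneg _ _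
          positivity
        · exact integral_nonneg fun u => by positivity

/-- auxiliary notation: the angular kernel. -/
def Sang (s θ : ℝ) : ℝ := |Real.sin (θ / 2)| ^ (-(1 + 2 * s))

lemma Sang_nonneg (s θ : ℝ) : 0 ≤ Sang s θ := by unfold Sang; positivity
lemma measurable_Sang (s : ℝ) : Measurable (Sang s) := by unfold Sang; fun_prop

lemma kern_eq (s : ℝ) (p : ℂ × ℝ) : kern s p = ‖p.1‖ ^ (-(2 * s)) * Sang s p.2 := rfl

lemma ae_ne_zero : ∀ᵐ z : ℂ, z ≠ 0 := by
  simp [ae_iff]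

def T1 (s : ℝ) (P : ℕ) (v : ℂ) (p : ℂ × ℝ) : ℝ≥0∞ :=
  ENNReal.ofReal (‖p.1‖ ^ (1 - 2 * s) * J P (v + p.1)) *
    {θ : ℝ | |θ| ≤ ‖p.1‖⁻¹}.indicator (fun θ => ENNReal.ofReal (Sang s θ * |θ|)) p.2

def T2 (s : ℝ) (P : ℕ) (v : ℂ) (p : ℂ × ℝ) : ℝ≥0∞ :=
  ENNReal.ofReal (‖p.1‖ ^ (-(2 * s)) * J P (v + p.1)) *
    {θ : ℝ | ‖p.1‖⁻¹ < |θ|}.indicator (fun θ => ENNReal.ofReal (Sang s θ)) p.2

/-- the set condition for the third term -/
def Fθ (s : ℝ) (P : ℕ) (v : ℂ) (p : ℂ × ℝ) : ℝ≥0∞ :=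
  ENNReal.ofReal (‖p.1‖ ^ (-(2 * s)) * J P (v + p.1)) *
    {θ : ℝ | (‖p.1‖ + 1 / π)⁻¹ < |θ|}.indicator (fun _ => 1) p.2

def T3 (s : ℝ) (P : ℕ) (v : ℂ) (p : ℂ × ℝ) : ℝ≥0∞ :=
  ENNReal.ofReal (Sang s p.2) * (ENNReal.ofReal (‖aa p.2‖ ^ 2) * Fθ s P v (aa p.2 * p.1, p.2))

def Gθ (s : ℝ) (P : ℕ) (v : ℂ) (z : ℂ) : ℝ≥0∞ :=
  ENNReal.ofReal (‖z‖ ^ (-(2 * s)) * J P (v + z))

def T4 (s : ℝ) (P : ℕ) (v : ℂ) (p : ℂ × ℝ) : ℝ≥0∞ :=
  ENNReal.ofReal (Sang s p.2 * ‖bb p.2‖ ^ ((P : ℝ) + 2 * s)) * Gθ s P v (bb p.2 * p.1)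

lemma measurable_T1 (s : ℝ) (P : ℕ) (v : ℂ) : Measurable (T1 s P v) := by
  unfold T1
  have hJ := measurable_J P
  have hS := measurable_Sang s
  apply Measurable.mul (by fun_prop)
  have : (fun p : ℂ × ℝ => {θ : ℝ | |θ| ≤ ‖p.1‖⁻¹}.indicator
      (fun θ => ENNReal.ofReal (Sang s θ * |θ|)) p.2) =
      {p : ℂ × ℝ | |p.2| ≤ ‖p.1‖⁻¹}.indicator (fun p => ENNReal.ofReal (Sang s p.2 * |p.2|)) := by
    ext p; simp [indicator]
  rw [this]
  apply Measurable.indicator (by fun_prop)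
  exact measurableSet_le (by fun_prop) (by fun_prop)

lemma measurable_T2 (s : ℝ) (P : ℕ) (v : ℂ) : Measurable (T2 s P v) := by
  unfold T2
  have hJ := measurable_J P
  have hS := measurable_Sang s
  apply Measurable.mul (by fun_prop)
  have : (fun p : ℂ × ℝ => {θ : ℝ | ‖p.1‖⁻¹ < |θ|}.indicator
      (fun θ => ENNReal.ofReal (Sang s θ)) p.2) =
      {p : ℂ × ℝ | ‖p.1‖⁻¹ < |p.2|}.indicator (fun p => ENNReal.ofReal (Sang s p.2)) := by
    ext p; simp [indicator]
  rw [this]
  apply Measurable.indicator (by fun_prop)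
  exact measurableSet_lt (by fun_prop) (by fun_prop)

lemma measurable_Fθ (s : ℝ) (P : ℕ) (v : ℂ) : Measurable (Fθ s P v) := by
  unfold Fθ
  have hJ := measurable_J P
  apply Measurable.mul (by fun_prop)
  have : (fun p : ℂ × ℝ => {θ : ℝ | (‖p.1‖ + 1 / π)⁻¹ < |θ|}.indicator
      (fun _ => (1 : ℝ≥0∞)) p.2) =
      {p : ℂ × ℝ | (‖p.1‖ + 1 / π)⁻¹ < |p.2|}.indicator (fun _ => 1) := by
    ext p; simp [indicator]
  rw [this]
  apply Measurable.indicator (by fun_prop)
  exact measurableSet_lt (by fun_prop) (by fun_prop)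

lemma measurable_T3 (s : ℝ) (P : ℕ) (v : ℂ) : Measurable (T3 s P v) := by
  unfold T3
  have hF := measurable_Fθ s P v
  have hS := measurable_Sang s
  have ha := continuous_aa.measurable
  fun_prop

lemma measurable_Gθ (s : ℝ) (P : ℕ) (v : ℂ) : Measurable (Gθ s P v) := by
  unfold Gθ
  have hJ := measurable_J P
  fun_prop

lemma measurable_T4 (s : ℝ) (P : ℕ) (v : ℂ) : Measurable (T4 s P v) := by
  unfold T4
  have hF := measurable_Gθ s P v
  have hS := measurable_Sang s
  have ha := continuous_bb.measurable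
  fun_prop

lemma kern_Psi_le {s : ℝ} (hs0 : 0 < s) (hs1 : s < 1 / 2) {P : ℕ} (hP : 3 ≤ P) (v : ℂ)
    {p : ℂ × ℝ} (hp : p.2 ∈ Ioo (-π) π) :
    ENNReal.ofReal (kern s p) * ENNReal.ofReal (Psi P v p) ≤
      T1 s P v p + T2 s P v p + T3 s P v p + T4 s P v p := by
  obtain ⟨z, θ⟩ := p
  simp only at hp
  have hπ := Real.pi_pos
  rw [← ENNReal.ofReal_mul (kern_nonneg _ _), kern_eq]
  rcases eq_or_ne z 0 with hz | hz
  · subst hz
    simp only [norm_zero]
    rw [Real.zero_rpow (by linarith)]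
    simp
  have hz0 : 0 < ‖z‖ := norm_pos_iff.2 hz
  have hS := Sang_nonneg s θ
  have hJ0 := J_nonneg P (v + z)
  have hJa := J_nonneg P (v + aa θ * z)
  have hJb := J_nonneg P (v + bb θ * z)
  unfold Psi
  simp only
  split_ifs with hc
  · -- near region
    have hmem : |θ| ≤ ‖z‖⁻¹ := by
      rw [← one_div, le_div_iff₀ hz0]; linarith
    have h1 : ENNReal.ofReal (‖z‖ ^ (-(2 * s)) * Sang s θ * (‖z‖ * |θ| * J P (v + z))) =
        T1 s P v (z, θ) := by
      unfold T1
      simp only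
      rw [indicator_of_mem (show θ ∈ {θ : ℝ | |θ| ≤ ‖z‖⁻¹} from hmem),
        ← ENNReal.ofReal_mul (by positivity)]
      congr 1
      have : ‖z‖ ^ (1 - 2 * s) = ‖z‖ ^ (-(2 * s)) * ‖z‖ := by
        nth_rewrite 3 [← Real.rpow_one ‖z‖]
        rw [← Real.rpow_add hz0]
        congr 1; ring
      rw [this]; ring
    rw [h1, add_assoc, add_assoc]
    exact le_self_add
  · push Not at hc
    have hθ0 : θ ≠ 0 := by
      rintro rfl
      simp at hc
      linarith
    have hθp : 0 < |θ| := abs_pos.2 hθ0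
    have hmem : ‖z‖⁻¹ < |θ| := by
      rw [inv_lt_iff_one_lt_mul₀ hz0]; linarith
    have h2 : ENNReal.ofReal (‖z‖ ^ (-(2 * s)) * Sang s θ * J P (v + z)) =
        T2 s P v (z, θ) := by
      unfold T2
      simp only
      rw [indicator_of_mem (show θ ∈ {θ : ℝ | ‖z‖⁻¹ < |θ|} from hmem),
        ← ENNReal.ofReal_mul (by positivity)]
      congr 1; ring
    have h3 : ENNReal.ofReal (‖z‖ ^ (-(2 * s)) * Sang s θ * (‖aa θ‖ ^ P * J P (v + aa θ * z))) ≤
        T3 s P v (z, θ) := by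
      have ha0 : 0 < ‖aa θ‖ := by
        rw [norm_aa]
        apply abs_pos.2
        apply ne_of_gt
        apply Real.cos_pos_of_mem_Ioo
        constructor <;> [linarith [hp.1]; linarith [hp.2]]
      have hcos : 1 - |θ| / π ≤ ‖aa θ‖ := by
        rw [norm_aa]
        have := Real.one_sub_mul_le_cos (x := |θ| / 2) (by positivity) (by
          have : |θ| ≤ π := abs_le.2 ⟨hp.1.le, hp.2.le⟩
          linarith)
        have h5 : Real.cos (|θ| / 2) = Real.cos (θ / 2) := by
          rw [show |θ| / 2 = |θ / 2| by rw [abs_div, abs_two], Real.cos_abs]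
        rw [h5] at this
        calc 1 - |θ| / π = 1 - 2 / π * (|θ| / 2) := by field_simp
          _ ≤ Real.cos (θ / 2) := this
          _ ≤ _ := le_abs_self _
      have hmem3 : (‖aa θ * z‖ + 1 / π)⁻¹ < |θ| := by
        rw [inv_lt_iff_one_lt_mul₀ (by positivity), norm_mul]
        have h6 : ‖aa θ‖ < ‖aa θ‖ * (‖z‖ * |θ|) := by nlinarith
        have h7 : |θ| / π = |θ| * (1 / π) := by ring
        nlinarith
      unfold T3 Fθ
      simp only
      rw [indicator_of_mem (show θ ∈ {θ' : ℝ | (‖aa θ * z‖ + 1 / π)⁻¹ < |θ'|} from hmem3),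
        mul_one, ← ENNReal.ofReal_mul (by positivity), ← ENNReal.ofReal_mul (by positivity)]
      apply ENNReal.ofReal_le_ofReal
      rw [norm_mul, Real.mul_rpow (norm_nonneg _) (norm_nonneg _)]
      have h8 : ‖aa θ‖ ^ P ≤ ‖aa θ‖ ^ 2 * ‖aa θ‖ ^ (-(2 * s)) := by
        rw [← Real.rpow_natCast, ← Real.rpow_natCast, ← Real.rpow_add ha0]
        apply Real.rpow_le_rpow_of_exponent_ge ha0 (norm_aa_le_one θ)
        have : (3 : ℝ) ≤ P := by exact_mod_cast hP
        push_cast
        linarith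
      calc ‖z‖ ^ (-(2 * s)) * Sang s θ * (‖aa θ‖ ^ P * J P (v + aa θ * z))
          = (‖z‖ ^ (-(2 * s)) * Sang s θ * J P (v + aa θ * z)) * ‖aa θ‖ ^ P := by ring
        _ ≤ (‖z‖ ^ (-(2 * s)) * Sang s θ * J P (v + aa θ * z)) *
            (‖aa θ‖ ^ 2 * ‖aa θ‖ ^ (-(2 * s))) := mul_le_mul_of_nonneg_left h8 (by positivity)
        _ = _ := by ring
    have h4 : ENNReal.ofReal (‖z‖ ^ (-(2 * s)) * Sang s θ * (‖bb θ‖ ^ P * J P (v + bb θ * z))) ≤
        T4 s P v (z, θ) := by
      have hb0 : 0 < ‖bb θ‖ := by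
        rw [norm_bb]
        exact lt_of_lt_of_le (by positivity) (sin_half_ge hp)
      unfold T4 Gθ
      simp only
      rw [← ENNReal.ofReal_mul (by positivity)]
      apply ENNReal.ofReal_le_ofReal
      rw [norm_mul, Real.mul_rpow (norm_nonneg _) (norm_nonneg _)]
      have h8 : ‖bb θ‖ ^ P = ‖bb θ‖ ^ ((P : ℝ) + 2 * s) * ‖bb θ‖ ^ (-(2 * s)) := by
        rw [← Real.rpow_natCast, ← Real.rpow_add hb0]
        congr 1; ring
      rw [h8]
      apply le_of_eq
      ring
    calc _ = ENNReal.ofReal (‖z‖ ^ (-(2 * s)) * Sang s θ * (‖aa θ‖ ^ P * J P (v + aa θ * z))) +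
          ENNReal.ofReal (‖z‖ ^ (-(2 * s)) * Sang s θ * (‖bb θ‖ ^ P * J P (v + bb θ * z))) +
          ENNReal.ofReal (‖z‖ ^ (-(2 * s)) * Sang s θ * J P (v + z)) := by
          rw [← ENNReal.ofReal_add (by positivity) (by positivity),
            ← ENNReal.ofReal_add (by positivity) (by positivity)]
          congr 1; ring
      _ ≤ T3 s P v (z, θ) + T4 s P v (z, θ) + T2 s P v (z, θ) := by
          rw [h2]; gcongr
      _ = 0 + T2 s P v (z, θ) + T3 s P v (z, θ) + T4 s P v (z, θ) := by ring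
      _ ≤ _ := by gcongr; exact zero_le

/-- the product measure -/
abbrev prodM : Measure (ℂ × ℝ) := (volume : Measure ℂ).prod (volume.restrict (Ioo (-π) π))

lemma lint_T1 {s : ℝ} (hs0 : 0 < s) (hs1 : s < 1 / 2) (P : ℕ) (v : ℂ) :
    ∫⁻ p, T1 s P v p ∂prodM ≤ ENNReal.ofReal (2 * π ^ 2 / (1 - 2 * s)) *
      ∫⁻ u : ℂ, ENNReal.ofReal ((1 + ‖u‖ ^ (-(2 * s))) * J P (v + u)) := by
  rw [lintegral_prod _ (measurable_T1 s P v).aemeasurable]
  rw [← lintegral_const_mul' _ _ ENNReal.ofReal_ne_top]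
  apply lintegral_mono_ae
  filter_upwards [ae_ne_zero] with z hz
  have hz0 : 0 < ‖z‖ := norm_pos_iff.2 hz
  unfold T1
  simp only
  rw [lintegral_const_mul' _ _ ENNReal.ofReal_ne_top]
  have h := lint_near hs0 hs1 (c := ‖z‖⁻¹) (by positivity)
  have hJ0 := J_nonneg P (v + z)
  have hs2 : 0 < 1 - 2 * s := by linarith
  calc _ ≤ ENNReal.ofReal (‖z‖ ^ (1 - 2 * s) * J P (v + z)) *
        ENNReal.ofReal (2 * π ^ 2 / (1 - 2 * s) * ‖z‖⁻¹ ^ (1 - 2 * s)) := by
        gcongr
        exact h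
    _ = ENNReal.ofReal (2 * π ^ 2 / (1 - 2 * s)) * ENNReal.ofReal (J P (v + z)) := by
        rw [← ENNReal.ofReal_mul (by positivity), ← ENNReal.ofReal_mul (by positivity)]
        congr 1
        rw [Real.inv_rpow hz0.le]
        have : ‖z‖ ^ (1 - 2 * s) ≠ 0 := (Real.rpow_pos_of_pos hz0 _).ne'
        field_simp
    _ ≤ _ := by
        gcongr
        have : 0 ≤ ‖z‖ ^ (-(2 * s)) := by positivity
        nlinarith

lemma lint_T2 {s : ℝ} (hs0 : 0 < s) (hs1 : s < 1 / 2) (P : ℕ) (v : ℂ) :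
    ∫⁻ p, T2 s P v p ∂prodM ≤ ENNReal.ofReal (π ^ 2 / s) *
      ∫⁻ u : ℂ, ENNReal.ofReal ((1 + ‖u‖ ^ (-(2 * s))) * J P (v + u)) := by
  rw [lintegral_prod _ (measurable_T2 s P v).aemeasurable]
  rw [← lintegral_const_mul' _ _ ENNReal.ofReal_ne_top]
  apply lintegral_mono_ae
  filter_upwards [ae_ne_zero] with z hz
  have hz0 : 0 < ‖z‖ := norm_pos_iff.2 hz
  unfold T2
  simp only
  rw [lintegral_const_mul' _ _ ENNReal.ofReal_ne_top]
  have h := lint_far hs0 hs1 (c := ‖z‖⁻¹) (by positivity)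
  have hJ0 := J_nonneg P (v + z)
  calc _ ≤ ENNReal.ofReal (‖z‖ ^ (-(2 * s)) * J P (v + z)) *
        ENNReal.ofReal (π ^ 2 / s * ‖z‖⁻¹ ^ (-(2 * s))) := by
        gcongr
        exact h
    _ = ENNReal.ofReal (π ^ 2 / s) * ENNReal.ofReal (J P (v + z)) := by
        rw [← ENNReal.ofReal_mul (by positivity), ← ENNReal.ofReal_mul (by positivity)]
        congr 1
        rw [Real.inv_rpow hz0.le]
        have : ‖z‖ ^ (-(2 * s)) ≠ 0 := (Real.rpow_pos_of_pos hz0 _).ne'
        field_simp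
    _ ≤ _ := by
        gcongr
        have : 0 ≤ ‖z‖ ^ (-(2 * s)) := by positivity
        nlinarith

lemma lint_T3 {s : ℝ} (hs0 : 0 < s) (hs1 : s < 1 / 2) (P : ℕ) (v : ℂ) :
    ∫⁻ p, T3 s P v p ∂prodM ≤ ENNReal.ofReal (π ^ 2 / s) *
      ∫⁻ u : ℂ, ENNReal.ofReal ((1 + ‖u‖ ^ (-(2 * s))) * J P (v + u)) := by
  have hπ := Real.pi_pos
  have hF := measurable_Fθ s P v
  rw [lintegral_prod_symm _ (measurable_T3 s P v).aemeasurable]
  have hS := measurable_Sang s
  calc ∫⁻ θ in Ioo (-π) π, ∫⁻ z, T3 s P v (z, θ)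
      ≤ ∫⁻ θ in Ioo (-π) π, ENNReal.ofReal (Sang s θ) * ∫⁻ u, Fθ s P v (u, θ) := by
        apply setLIntegral_mono' measurableSet_Ioo
        intro θ hθ
        have ha0 : 0 < ‖aa θ‖ := by
          rw [norm_aa]
          apply abs_pos.2
          apply ne_of_gt
          apply Real.cos_pos_of_mem_Ioo
          constructor <;> [linarith [hθ.1]; linarith [hθ.2]]
        unfold T3
        simp only
        rw [lintegral_const_mul' _ _ ENNReal.ofReal_ne_top,
          lintegral_const_mul' _ _ ENNReal.ofReal_ne_top]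
        have h1 : ∫⁻ z, Fθ s P v (aa θ * z, θ) =
            ENNReal.ofReal ((‖aa θ‖ ^ 2)⁻¹) * ∫⁻ z, Fθ s P v (z, θ) :=
          lintegral_comp_mul (norm_pos_iff.1 ha0) (F := fun z => Fθ s P v (z, θ)) (by fun_prop)
        have h2 : ENNReal.ofReal (‖aa θ‖ ^ 2) * ENNReal.ofReal ((‖aa θ‖ ^ 2)⁻¹) = 1 := by
          rw [← ENNReal.ofReal_mul (by positivity), mul_inv_cancel₀ (by positivity)]
          simp
        rw [h1, ← mul_assoc (ENNReal.ofReal (‖aa θ‖ ^ 2)), h2, one_mul]
    _ = ∫⁻ θ in Ioo (-π) π, ∫⁻ u, ENNReal.ofReal (Sang s θ) * Fθ s P v (u, θ) := by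
        apply lintegral_congr
        intro θ
        rw [lintegral_const_mul' _ _ ENNReal.ofReal_ne_top]
    _ = ∫⁻ u, ∫⁻ θ in Ioo (-π) π, ENNReal.ofReal (Sang s θ) * Fθ s P v (u, θ) := by
        rw [lintegral_lintegral_swap]
        apply Measurable.aemeasurable
        fun_prop
    _ ≤ ∫⁻ u, ENNReal.ofReal (π ^ 2 / s) *
          ENNReal.ofReal ((1 + ‖u‖ ^ (-(2 * s))) * J P (v + u)) := by
        apply lintegral_mono_ae
        filter_upwards [ae_ne_zero] with z hz
        have hz0 : 0 < ‖z‖ := norm_pos_iff.2 hz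
        have h := lint_far hs0 hs1 (c := (‖z‖ + 1 / π)⁻¹) (by positivity)
        have hJ0 := J_nonneg P (v + z)
        have e : ∀ θ, ENNReal.ofReal (Sang s θ) * Fθ s P v (z, θ) =
            ENNReal.ofReal (‖z‖ ^ (-(2 * s)) * J P (v + z)) *
            {θ : ℝ | (‖z‖ + 1 / π)⁻¹ < |θ|}.indicator
              (fun θ => ENNReal.ofReal (|Real.sin (θ / 2)| ^ (-(1 + 2 * s)))) θ := by
          intro θ
          unfold Fθ Sang
          simp only [indicator]
          split_ifs <;> ring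
        simp_rw [e]
        rw [lintegral_const_mul' _ _ ENNReal.ofReal_ne_top]
        calc _ ≤ ENNReal.ofReal (‖z‖ ^ (-(2 * s)) * J P (v + z)) *
              ENNReal.ofReal (π ^ 2 / s * (‖z‖ + 1 / π)⁻¹ ^ (-(2 * s))) := by
              gcongr
          _ ≤ _ := by
              rw [← ENNReal.ofReal_mul (by positivity), ← ENNReal.ofReal_mul (by positivity)]
              apply ENNReal.ofReal_le_ofReal
              have h1 : (‖z‖ + 1 / π)⁻¹ ^ (-(2 * s)) = (‖z‖ + 1 / π) ^ (2 * s) := by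
                rw [Real.inv_rpow (by positivity), Real.rpow_neg (by positivity), inv_inv]
              have h2 : (‖z‖ + 1 / π) ^ (2 * s) ≤ ‖z‖ ^ (2 * s) + 1 := by
                have h3 : (‖z‖ + 1 / π) ^ (2 * s) ≤ ‖z‖ ^ (2 * s) + (1 / π) ^ (2 * s) := by
                  have := NNReal.rpow_add_le_add_rpow (p := 2 * s) ‖z‖₊ ⟨1 / π, by positivity⟩
                    (by linarith) (by linarith)
                  have h4 := NNReal.coe_le_coe.2 this
                  push_cast at h4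
                  exact h4
                have h5 : (1 / π) ^ (2 * s) ≤ 1 := by
                  apply Real.rpow_le_one (by positivity) _ (by linarith)
                  rw [div_le_one hπ]; linarith [Real.pi_gt_three]
                linarith
              have h6 : ‖z‖ ^ (-(2 * s)) * ‖z‖ ^ (2 * s) = 1 := by
                rw [← Real.rpow_add hz0]; simp
              rw [h1]
              calc ‖z‖ ^ (-(2 * s)) * J P (v + z) * (π ^ 2 / s * (‖z‖ + 1 / π) ^ (2 * s))
                  ≤ ‖z‖ ^ (-(2 * s)) * J P (v + z) * (π ^ 2 / s * (‖z‖ ^ (2 * s) + 1)) := by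
                    gcongr
                _ = (π ^ 2 / s) * ((‖z‖ ^ (-(2 * s)) * ‖z‖ ^ (2 * s) + ‖z‖ ^ (-(2 * s))) *
                      J P (v + z)) := by ring
                _ = _ := by rw [h6]
    _ = _ := by rw [lintegral_const_mul' _ _ ENNReal.ofReal_ne_top]

lemma lint_T4 {s : ℝ} (hs0 : 0 < s) {P : ℕ} (hP : 3 ≤ P) (v : ℂ) :
    ∫⁻ p, T4 s P v p ∂prodM ≤ ENNReal.ofReal (2 * π) *
      ∫⁻ u : ℂ, ENNReal.ofReal ((1 + ‖u‖ ^ (-(2 * s))) * J P (v + u)) := by
  have hπ := Real.pi_pos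
  have hG := measurable_Gθ s P v
  rw [lintegral_prod_symm _ (measurable_T4 s P v).aemeasurable]
  calc ∫⁻ θ in Ioo (-π) π, ∫⁻ z, T4 s P v (z, θ)
      ≤ ∫⁻ _ in Ioo (-π) π, ∫⁻ u : ℂ,
          ENNReal.ofReal ((1 + ‖u‖ ^ (-(2 * s))) * J P (v + u)) := by
        apply setLIntegral_mono' measurableSet_Ioo
        intro θ hθ
        unfold T4
        simp only
        rw [lintegral_const_mul' _ _ ENNReal.ofReal_ne_top]
        rcases eq_or_ne θ 0 with h0 | h0
        · subst h0
          have : Sang s 0 = 0 := by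
            unfold Sang
            simp only [zero_div, Real.sin_zero, abs_zero]
            exact Real.zero_rpow (by linarith)
          rw [this]
          simp
        have hb0 : 0 < ‖bb θ‖ := by
          rw [norm_bb]
          exact lt_of_lt_of_le (div_pos (abs_pos.2 h0) hπ) (sin_half_ge hθ)
        rw [lintegral_comp_mul (norm_pos_iff.1 hb0) hG, ← mul_assoc,
          ← ENNReal.ofReal_mul (by have := Sang_nonneg s θ; positivity)]
        have h1 : Sang s θ * ‖bb θ‖ ^ ((P : ℝ) + 2 * s) * (‖bb θ‖ ^ 2)⁻¹ ≤ 1 := by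
          have e1 : Sang s θ = ‖bb θ‖ ^ (-(1 + 2 * s)) := by unfold Sang; rw [norm_bb]
          have e2 : (‖bb θ‖ ^ 2)⁻¹ = ‖bb θ‖ ^ (-(2 : ℝ)) := by
            rw [Real.rpow_neg hb0.le, Real.rpow_two]
          rw [e1, e2, ← Real.rpow_add hb0, ← Real.rpow_add hb0]
          apply Real.rpow_le_one hb0.le (norm_bb_le_one θ)
          have : (3 : ℝ) ≤ P := by exact_mod_cast hP
          linarith
        calc _ ≤ 1 * ∫⁻ z, Gθ s P v z := by
              gcongr
              rw [← ENNReal.ofReal_one]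
              exact ENNReal.ofReal_le_ofReal h1
          _ ≤ _ := by
              rw [one_mul]
              apply lintegral_mono
              intro z
              unfold Gθ
              apply ENNReal.ofReal_le_ofReal
              have := J_nonneg P (v + z)
              nlinarith
    _ = _ := by
        rw [lintegral_const]
        simp only [MeasurableSet.univ, Measure.restrict_apply, univ_inter, Real.volume_Ioo]
        rw [mul_comm]
        congr 2; ring

/-- **Uniform kernel bound.** -/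
lemma lint_Psi {s : ℝ} (hs0 : 0 < s) (hs1 : s < 1 / 2) {P : ℕ} (hP : 3 ≤ P) :
    ∃ C : ℝ, 0 ≤ C ∧ ∀ v : ℂ, ∫⁻ p, ENNReal.ofReal (Psi P v p) ∂(muK s) ≤ ENNReal.ofReal C := by
  obtain ⟨C, hC0, hC⟩ := lint_J hs0 hs1 hP
  have hπ := Real.pi_pos
  have hs2 : 0 < 1 - 2 * s := by linarith
  refine ⟨(2 * π ^ 2 / (1 - 2 * s) + π ^ 2 / s + π ^ 2 / s + 2 * π) * C, by positivity, fun v => ?_⟩
  unfold muK
  rw [lintegral_withDensity_eq_lintegral_mul _ (by
    have := measurable_kern s; fun_prop) (by have := measurable_Psi P v; fun_prop)]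
  calc _ ≤ ∫⁻ p, (T1 s P v p + T2 s P v p + T3 s P v p + T4 s P v p) ∂prodM := by
        apply lintegral_mono_ae
        have : ∀ᵐ p : ℂ × ℝ ∂prodM, p.2 ∈ Ioo (-π) π := by
          have h1 : ∀ᵐ θ : ℝ ∂(volume.restrict (Ioo (-π) π)), θ ∈ Ioo (-π) π :=
            ae_restrict_mem measurableSet_Ioo
          exact (Measure.quasiMeasurePreserving_snd (μ := (volume : Measure ℂ))
            (ν := volume.restrict (Ioo (-π) π))).ae h1
        filter_upwards [this] with p hp
        exact kern_Psi_le hs0 hs1 hP v hp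
    _ = (∫⁻ p, T1 s P v p ∂prodM) + (∫⁻ p, T2 s P v p ∂prodM) + (∫⁻ p, T3 s P v p ∂prodM) +
          ∫⁻ p, T4 s P v p ∂prodM := by
        rw [lintegral_add_right _ (measurable_T4 s P v), lintegral_add_right _ (measurable_T3 s P v),
          lintegral_add_right _ (measurable_T2 s P v)]
    _ ≤ ENNReal.ofReal (2 * π ^ 2 / (1 - 2 * s)) * ENNReal.ofReal C +
        ENNReal.ofReal (π ^ 2 / s) * ENNReal.ofReal C +
        ENNReal.ofReal (π ^ 2 / s) * ENNReal.ofReal C + ENNReal.ofReal (2 * π) *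
        ENNReal.ofReal C := by
        have h1 := (lint_T1 hs0 hs1 P v).trans (mul_le_mul_right (hC v) _)
        have h2 := (lint_T2 hs0 hs1 P v).trans (mul_le_mul_right (hC v) _)
        have h3 := (lint_T3 hs0 hs1 P v).trans (mul_le_mul_right (hC v) _)
        have h4 := (lint_T4 hs0 hP v).trans (mul_le_mul_right (hC v) _)
        gcongr
    _ = _ := by
        rw [← add_mul, ← add_mul, ← add_mul, ← ENNReal.ofReal_add (by positivity) (by positivity),
          ← ENNReal.ofReal_add (by positivity) (by positivity),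
          ← ENNReal.ofReal_add (by positivity) (by positivity), ← ENNReal.ofReal_mul (by positivity)]

end Pool.MP08d8de
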