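import Pool.Agent.MP_08d8de_an.TimeInt

/-! The analytic norms: weights `n!/(n+1)^2 r^{-n}` with shrinking radius. -/

open MeasureTheory Set Filter Topology
open scoped Real ENNReal ContDiff Nat

noncomputable section

namespace Pool.MP08d8de

/-- analytic weight -/
def Nn (r : ℝ) (n : ℕ) : ℝ := (n ! : ℝ) / ((n : ℝ) + 1) ^ 2 * (r ^ n)⁻¹

lemma Nn_pos {r : ℝ} (hr : 0 < r) (n : ℕ) : 0 < Nn r n := by unfold Nn; positivity

lemma Nn_zero (r : ℝ) : Nn r 0 = 1 := by simp [Nn]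

lemma sum_inv_sq_le (n : ℕ) :
    ∑ i ∈ Finset.range (n + 1), 1 / ((i : ℝ) + 1) ^ 2 ≤ 2 - 1 / ((n : ℝ) + 1) := by
  induction n with
  | zero => norm_num
  | succ n ih =>
    rw [Finset.sum_range_succ]
    push_cast
    have h1 : 1 / ((n : ℝ) + 1 + 1) ^ 2 ≤ 1 / ((n : ℝ) + 1) - 1 / ((n : ℝ) + 1 + 1) := by
      have h2 : 1 / ((n : ℝ) + 1) - 1 / ((n : ℝ) + 1 + 1) = 1 / (((n : ℝ) + 1) * ((n : ℝ) + 1 + 1)) := by
        field_simp
        ring
      rw [h2]
      apply one_div_le_one_div_of_le (by positivity)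
      nlinarith
    linarith

lemma conv_inv_sq_le (n : ℕ) :
    ∑ i ∈ Finset.range (n + 1), 1 / (((i : ℝ) + 1) ^ 2 * (((n - i : ℕ) : ℝ) + 1) ^ 2) ≤
      8 / ((n : ℝ) + 1) ^ 2 := by
  have h1 : ∀ i ∈ Finset.range (n + 1),
      1 / (((i : ℝ) + 1) ^ 2 * (((n - i : ℕ) : ℝ) + 1) ^ 2) ≤
      2 / ((n : ℝ) + 2) ^ 2 * (1 / ((i : ℝ) + 1) ^ 2 + 1 / (((n - i : ℕ) : ℝ) + 1) ^ 2) := by
    intro i hi
    have hi' : i ≤ n := Nat.lt_succ_iff.1 (Finset.mem_range.1 hi)
    have hsum : ((n : ℝ) + 2) = ((i : ℝ) + 1) + (((n - i : ℕ) : ℝ) + 1) := by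
      rw [Nat.cast_sub hi']; ring
    set x := (i : ℝ) + 1 with hx
    set y := ((n - i : ℕ) : ℝ) + 1 with hy
    have hx0 : 0 < x := by positivity
    have hy0 : 0 < y := by positivity
    rw [hsum]
    have e1 : 1 / (x ^ 2 * y ^ 2) = (x + y) ^ 2 / ((x + y) ^ 2 * (x ^ 2 * y ^ 2)) := by
      field_simp
    have e2 : 2 / (x + y) ^ 2 * (1 / x ^ 2 + 1 / y ^ 2) =
        2 * (x ^ 2 + y ^ 2) / ((x + y) ^ 2 * (x ^ 2 * y ^ 2)) := by
      field_simp
      ring
    rw [e1, e2]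
    apply div_le_div_of_nonneg_right _ (by positivity)
    nlinarith [sq_nonneg (x - y)]
  refine (Finset.sum_le_sum h1).trans ?_
  rw [← Finset.mul_sum, Finset.sum_add_distrib]
  have h2 : ∑ i ∈ Finset.range (n + 1), 1 / (((n - i : ℕ) : ℝ) + 1) ^ 2 =
      ∑ i ∈ Finset.range (n + 1), 1 / ((i : ℝ) + 1) ^ 2 := by
    rw [← Finset.sum_range_reflect (fun i => 1 / ((i : ℝ) + 1) ^ 2)]
    apply Finset.sum_congr rfl
    intro i _
    simp
  rw [h2]
  have h3 := sum_inv_sq_le n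
  have h4 : ∑ i ∈ Finset.range (n + 1), 1 / ((i : ℝ) + 1) ^ 2 ≤ 2 := by
    have : 0 ≤ 1 / ((n : ℝ) + 1) := by positivity
    linarith
  calc 2 / ((n : ℝ) + 2) ^ 2 * (∑ i ∈ Finset.range (n + 1), 1 / ((i : ℝ) + 1) ^ 2 +
        ∑ i ∈ Finset.range (n + 1), 1 / ((i : ℝ) + 1) ^ 2)
      ≤ 2 / ((n : ℝ) + 2) ^ 2 * (2 + 2) := by gcongr
    _ = 8 / ((n : ℝ) + 2) ^ 2 := by ring
    _ ≤ 8 / ((n : ℝ) + 1) ^ 2 := by
        apply div_le_div_of_nonneg_left (by norm_num) (by positivity)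
        gcongr
        norm_num

lemma cs_Nn {r a b : ℝ} (hr : 0 < r) (ha : 0 ≤ a) (hb : 0 ≤ b) (n : ℕ) :
    cs (fun n => a * Nn r n) (fun n => b * Nn r n) n ≤ 8 * a * b * Nn r n := by
  have h1 : cs (fun n => a * Nn r n) (fun n => b * Nn r n) n =
      a * b * (n ! : ℝ) * (r ^ n)⁻¹ *
      ∑ i ∈ Finset.range (n + 1), 1 / (((i : ℝ) + 1) ^ 2 * (((n - i : ℕ) : ℝ) + 1) ^ 2) := by
    unfold cs
    rw [Finset.mul_sum]
    apply Finset.sum_congr rfl
    intro i hi
    have hi' : i ≤ n := Nat.lt_succ_iff.1 (Finset.mem_range.1 hi)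
    have hc : (n.choose i : ℝ) * (i ! : ℝ) * ((n - i : ℕ)! : ℝ) = (n ! : ℝ) := by
      exact_mod_cast Nat.choose_mul_factorial_mul_factorial hi'
    have hp : (r ^ i)⁻¹ * (r ^ (n - i))⁻¹ = (r ^ n)⁻¹ := by
      rw [← mul_inv, ← pow_add, Nat.add_sub_cancel' hi']
    unfold Nn
    rw [← hc, ← hp]
    field_simp
  rw [h1]
  calc _ ≤ a * b * (n ! : ℝ) * (r ^ n)⁻¹ * (8 / ((n : ℝ) + 1) ^ 2) := by
        apply mul_le_mul_of_nonneg_left (conv_inv_sq_le n) (by positivity)
    _ = _ := by unfold Nn; ring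

/-- The radius of analyticity at distance `w` from the initial time. -/
def rho (w : ℝ) : ℝ := 1 - min w (3 / 2) / 4

lemma rho_pos (w : ℝ) : 5 / 8 ≤ rho w := by
  unfold rho
  have := min_le_right w (3 / 2 : ℝ)
  linarith

lemma rho_le_one {w : ℝ} (hw : 0 ≤ w) : rho w ≤ 1 := by
  unfold rho
  have : 0 ≤ min w (3 / 2 : ℝ) := le_min hw (by norm_num)
  linarith

lemma continuous_rho : Continuous rho := by unfold rho; fun_prop

lemma core_integral {m : ℝ} (hm0 : 0 ≤ m) (hm1 : m ≤ 3 / 2) (n : ℕ) :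
    ∫ w in (0 : ℝ)..m, ((n : ℝ) + 1) * ((1 - w / 4) ^ (n + 1))⁻¹ ≤ 8 * ((1 - m / 4) ^ n)⁻¹ := by
  rcases Nat.eq_zero_or_pos n with hn | hn
  · subst hn
    have h1 : ∫ w in (0 : ℝ)..m, (((0 : ℕ) : ℝ) + 1) * ((1 - w / 4) ^ (0 + 1))⁻¹ ≤
        ∫ w in (0 : ℝ)..m, (8 / 5 : ℝ) := by
      apply intervalIntegral.integral_mono_on hm0
      · apply ContinuousOn.intervalIntegrable
        rw [uIcc_of_le hm0]
        apply ContinuousOn.mul continuousOn_const
        apply ContinuousOn.inv₀ (by fun_prop)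
        intro x hx
        have : 0 < 1 - x / 4 := by linarith [hx.2]
        positivity
      · exact intervalIntegrable_const
      · intro x hx
        have h3 : 5 / 8 ≤ 1 - x / 4 := by linarith [hx.2]
        simp only [Nat.cast_zero, zero_add, one_mul, pow_one]
        rw [inv_le_comm₀ (by linarith) (by norm_num)]
        norm_num
        linarith
    rw [intervalIntegral.integral_const] at h1
    simp only [sub_zero, smul_eq_mul] at h1
    simp only [pow_zero, inv_one, mul_one]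
    linarith
  · have hn' : (0 : ℝ) < n := by exact_mod_cast hn
    have hpos : ∀ x ∈ uIcc 0 m, 0 < 1 - x / 4 := by
      intro x hx
      rw [uIcc_of_le hm0] at hx
      linarith [hx.2]
    have hderiv : ∀ x ∈ uIcc 0 m, HasDerivAt (fun w => 4 * ((n : ℝ) + 1) / n * ((1 - w / 4) ^ n)⁻¹)
        (((n : ℝ) + 1) * ((1 - x / 4) ^ (n + 1))⁻¹) x := by
      intro x hx
      have hx0 := hpos x hx
      have h1 : HasDerivAt (fun w : ℝ => 1 - w / 4) (-(1 / 4)) x := by
        have := ((hasDerivAt_id x).div_const 4).const_sub 1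
        simpa using this
      have h2 := (h1.pow n).inv (pow_ne_zero n hx0.ne')
      have h3 := h2.const_mul (4 * ((n : ℝ) + 1) / n)
      refine h3.congr_deriv ?_
      obtain ⟨k, rfl⟩ := Nat.exists_eq_add_of_le' hn
      simp only [Nat.succ_eq_add_one, zero_add, Nat.add_sub_cancel, Pi.pow_apply]
      generalize 1 - x / 4 = y at hx0
      push_cast
      have hk : (k : ℝ) + 1 ≠ 0 := by positivity
      have hy : y ≠ 0 := hx0.ne'
      rw [show k + 1 + 1 = k + 2 by ring]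
      field_simp
      ring
    have hint : IntervalIntegrable (fun x => ((n : ℝ) + 1) * ((1 - x / 4) ^ (n + 1))⁻¹) volume 0 m := by
      apply ContinuousOn.intervalIntegrable
      apply ContinuousOn.mul continuousOn_const
      apply ContinuousOn.inv₀ (by fun_prop)
      intro x hx
      exact pow_ne_zero _ (hpos x hx).ne'
    rw [intervalIntegral.integral_eq_sub_of_hasDerivAt hderiv hint]
    have h4 : 4 * ((n : ℝ) + 1) / n ≤ 8 := by
      rw [div_le_iff₀ hn']
      have : (1 : ℝ) ≤ n := by exact_mod_cast hn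
      linarith
    have h5 : 0 < ((1 - m / 4) ^ n)⁻¹ := by
      have : 0 < 1 - m / 4 := by linarith
      positivity
    have h6 : 0 ≤ 4 * ((n : ℝ) + 1) / n * ((1 - 0 / 4) ^ n)⁻¹ := by
      simp; positivity
    nlinarith

lemma cut_integral {ph : ℝ → ℝ} (hphc : Continuous ph) (hph0 : ∀ w, 0 ≤ ph w) (hph1 : ∀ w, ph w ≤ 1)
    (hphs : ∀ w, 3 / 2 ≤ w → ph w = 0) {u : ℝ} (hu : 0 ≤ u) (n : ℕ) :
    ∫ w in (0 : ℝ)..u, ph w * (((n : ℝ) + 1) * ((rho w) ^ (n + 1))⁻¹) ≤ 8 * ((rho u) ^ n)⁻¹ := by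
  have hrc := continuous_rho
  have hcont : Continuous fun w => ph w * (((n : ℝ) + 1) * ((rho w) ^ (n + 1))⁻¹) := by
    apply hphc.mul
    apply continuous_const.mul
    apply Continuous.inv₀ (by fun_prop)
    intro x
    have := rho_pos x
    exact pow_ne_zero _ (by linarith)
  set m := min u (3 / 2) with hm
  have hm0 : 0 ≤ m := le_min hu (by norm_num)
  have hm1 : m ≤ 3 / 2 := min_le_right _ _
  have hmu : m ≤ u := min_le_left _ _
  rw [← intervalIntegral.integral_add_adjacent_intervals (hcont.intervalIntegrable 0 m)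
    (hcont.intervalIntegrable m u)]
  have h2 : ∫ w in m..u, ph w * (((n : ℝ) + 1) * ((rho w) ^ (n + 1))⁻¹) = 0 := by
    rcases le_total u (3 / 2) with h | h
    · have : m = u := min_eq_left h
      rw [this]; simp
    · have : m = 3 / 2 := min_eq_right h
      rw [this]
      apply intervalIntegral.integral_zero_ae
      refine Eventually.of_forall fun w hw => ?_
      rw [uIoc_of_le h] at hw
      rw [hphs w hw.1.le, zero_mul]
  rw [h2, add_zero]
  have h3 : rho u = 1 - m / 4 := rfl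
  rw [h3]
  refine le_trans ?_ (core_integral hm0 hm1 n)
  apply intervalIntegral.integral_mono_on hm0 (hcont.intervalIntegrable _ _)
  · apply ContinuousOn.intervalIntegrable
    rw [uIcc_of_le hm0]
    apply ContinuousOn.mul continuousOn_const
    apply ContinuousOn.inv₀ (by fun_prop)
    intro x hx
    have : 0 < 1 - x / 4 := by linarith [hx.2]
    exact pow_ne_zero _ this.ne'
  · intro x hx
    have h4 : rho x = 1 - x / 4 := by
      unfold rho; rw [min_eq_left (hx.2.trans hm1)]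
    rw [h4]
    have : 0 < 1 - x / 4 := by linarith [hx.2]
    have h5 : 0 ≤ ((n : ℝ) + 1) * ((1 - x / 4) ^ (n + 1))⁻¹ := by positivity
    nlinarith [hph1 x]

/-- radius as a function of time -/
def rad (t : ℝ) : ℝ := rho |t + 1|

lemma rad_pos (t : ℝ) : 0 < rad t := by
  have := rho_pos |t + 1|
  unfold rad; linarith

lemma rad_ge (t : ℝ) : 5 / 8 ≤ rad t := rho_pos _
lemma rad_le_one (t : ℝ) : rad t ≤ 1 := rho_le_one (abs_nonneg _)

lemma continuous_rad : Continuous rad := by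
  unfold rad; exact continuous_rho.comp (by fun_prop)

lemma continuous_Nn_rad (n : ℕ) : Continuous fun t => Nn (rad t) n := by
  unfold Nn
  have := continuous_rad
  apply continuous_const.mul
  apply Continuous.inv₀ (by fun_prop)
  intro x
  exact pow_ne_zero _ (rad_pos x).ne'

lemma Nn_le_unif (t : ℝ) (n : ℕ) : Nn (rad t) n ≤ Nn (5 / 8) n := by
  unfold Nn
  apply mul_le_mul_of_nonneg_left _ (by positivity)
  apply inv_anti₀ (by positivity)
  exact pow_le_pow_left₀ (by norm_num) (rad_ge t) n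

/-- the time cutoff -/
def chiB : ContDiffBump (-(1 / 2) : ℝ) := ⟨3 / 4, 1, by norm_num, by norm_num⟩

def chi (t : ℝ) : ℝ := chiB t

lemma contDiff_chi : ContDiff ℝ ∞ chi := chiB.contDiff
lemma continuous_chi : Continuous chi := contDiff_chi.continuous
lemma chi_nonneg (t : ℝ) : 0 ≤ chi t := chiB.nonneg
lemma chi_le_one (t : ℝ) : chi t ≤ 1 := chiB.le_one

lemma chi_eq_one {t : ℝ} (h : -(5 / 4) ≤ t) (h' : t ≤ 1 / 4) : chi t = 1 := by
  apply chiB.one_of_mem_closedBall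
  rw [Metric.mem_closedBall, Real.dist_eq, abs_le]
  constructor
  · show -(3 / 4 : ℝ) ≤ _; linarith
  · show _ ≤ (3 / 4 : ℝ); linarith

lemma chi_eq_zero {t : ℝ} (h : 3 / 2 ≤ |t + 1|) : chi t = 0 := by
  apply chiB.zero_of_le_dist
  show (1 : ℝ) ≤ dist t (-(1 / 2))
  rw [Real.dist_eq]
  rcases le_abs.1 h with h1 | h1
  · apply le_abs.2; left; linarith
  · apply le_abs.2; right; linarith

lemma time_core (t : ℝ) (n : ℕ) :
    |∫ τ in (-1)..t, chi τ * (((n : ℝ) + 1) * ((rad τ) ^ (n + 1))⁻¹)| ≤ 8 * ((rad t) ^ n)⁻¹ := by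
  have hnn : ∀ w : ℝ, ∀ a b : ℝ, a ≤ b → 0 ≤ ∫ τ in a..b, chi τ * (((n : ℝ) + 1) *
      ((rad τ) ^ (n + 1))⁻¹) := by
    intro w a b hab
    apply intervalIntegral.integral_nonneg hab
    intro u _
    have := chi_nonneg u
    have := rad_pos u
    positivity
  rcases le_total (-1) t with h | h
  · rw [abs_of_nonneg (hnn 0 _ _ h)]
    have h1 := intervalIntegral.integral_comp_add_left (a := 0) (b := t + 1)
      (fun τ => chi τ * (((n : ℝ) + 1) * ((rad τ) ^ (n + 1))⁻¹)) (-1)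
    rw [add_zero, show (-1 : ℝ) + (t + 1) = t by ring] at h1
    rw [← h1]
    have h2 := cut_integral (ph := fun w => chi (-1 + w)) (continuous_chi.comp (by fun_prop))
      (fun w => chi_nonneg _) (fun w => chi_le_one _) (fun w hw => chi_eq_zero (by
        rw [show -1 + w + 1 = w by ring]; exact hw.trans (le_abs_self _)))
      (u := t + 1) (by linarith) n
    have h3 : rad t = rho (t + 1) := by unfold rad; rw [abs_of_nonneg (by linarith)]
    rw [h3]
    refine le_trans (le_of_eq ?_) h2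
    apply intervalIntegral.integral_congr
    intro w hw
    rw [uIcc_of_le (by linarith)] at hw
    have h4 : rad (-1 + w) = rho w := by
      unfold rad; rw [show -1 + w + 1 = w by ring, abs_of_nonneg hw.1]
    simp only [h4]
  · rw [intervalIntegral.integral_symm, abs_neg, abs_of_nonneg (hnn 0 _ _ h)]
    have h1 := intervalIntegral.integral_comp_sub_left (a := 0) (b := -1 - t)
      (fun τ => chi τ * (((n : ℝ) + 1) * ((rad τ) ^ (n + 1))⁻¹)) (-1)
    rw [sub_zero, show (-1 : ℝ) - (-1 - t) = t by ring] at h1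
    rw [← h1]
    have h2 := cut_integral (ph := fun w => chi (-1 - w)) (continuous_chi.comp (by fun_prop))
      (fun w => chi_nonneg _) (fun w => chi_le_one _) (fun w hw => chi_eq_zero (by
        rw [show -1 - w + 1 = -w by ring, abs_neg]; exact hw.trans (le_abs_self _)))
      (u := -1 - t) (by linarith) n
    have h3 : rad t = rho (-1 - t) := by
      unfold rad; rw [abs_of_nonpos (by linarith)]; congr 1; ring
    rw [h3]
    refine le_trans (le_of_eq ?_) h2
    apply intervalIntegral.integral_congr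
    intro w hw
    rw [uIcc_of_le (by linarith)] at hw
    have h4 : rad (-1 - w) = rho w := by
      unfold rad; rw [show -1 - w + 1 = -w by ring, abs_neg, abs_of_nonneg hw.1]
    simp only [h4]

lemma Nn_add_le {r : ℝ} (hr : 0 < r) (hr1 : r ≤ 1) (n : ℕ) :
    Nn r n + Nn r (n + 1) ≤
      2 * ((n ! : ℝ) / ((n : ℝ) + 1) ^ 2) * (((n : ℝ) + 1) * (r ^ (n + 1))⁻¹) := by
  unfold Nn
  have h1 : (r ^ n)⁻¹ ≤ (r ^ (n + 1))⁻¹ := by
    apply inv_anti₀ (by positivity)
    exact pow_le_pow_of_le_one hr.le hr1 (Nat.le_succ n)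
  have h2 : (((n + 1)! : ℕ) : ℝ) / ((((n + 1 : ℕ) : ℝ)) + 1) ^ 2 ≤
      ((n ! : ℝ) / ((n : ℝ) + 1) ^ 2) * ((n : ℝ) + 1) := by
    rw [Nat.factorial_succ]
    push_cast
    rw [div_mul_eq_mul_div, mul_comm ((n : ℝ) + 1)]
    apply div_le_div_of_nonneg_left (by positivity) (by positivity)
    gcongr
    linarith
  have hp : 0 < (r ^ (n + 1))⁻¹ := by positivity
  have hc : 0 < (n ! : ℝ) / ((n : ℝ) + 1) ^ 2 := by positivity
  calc _ ≤ (n ! : ℝ) / ((n : ℝ) + 1) ^ 2 * (r ^ (n + 1))⁻¹ +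
        ((n ! : ℝ) / ((n : ℝ) + 1) ^ 2) * ((n : ℝ) + 1) * (r ^ (n + 1))⁻¹ := by
        gcongr
    _ ≤ ((n ! : ℝ) / ((n : ℝ) + 1) ^ 2) * ((n : ℝ) + 1) * (r ^ (n + 1))⁻¹ +
        ((n ! : ℝ) / ((n : ℝ) + 1) ^ 2) * ((n : ℝ) + 1) * (r ^ (n + 1))⁻¹ := by
        gcongr
        have : 0 ≤ (n : ℝ) := by positivity
        nlinarith
    _ = _ := by ring

lemma time_bound (t : ℝ) (n : ℕ) :
    |∫ τ in (-1)..t, chi τ * (Nn (rad τ) n + Nn (rad τ) (n + 1))| ≤ 16 * Nn (rad t) n := by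
  set c : ℝ := 2 * ((n ! : ℝ) / ((n : ℝ) + 1) ^ 2) with hc
  have hc0 : 0 ≤ c := by positivity
  have hrc := continuous_rad
  have h1 : |∫ τ in (-1)..t, chi τ * (Nn (rad τ) n + Nn (rad τ) (n + 1))| ≤
      |∫ τ in (-1)..t, c * (chi τ * (((n : ℝ) + 1) * ((rad τ) ^ (n + 1))⁻¹))| := by
    have := intervalIntegral.norm_integral_le_abs_of_norm_le (μ := volume) (a := -1) (b := t)
      (f := fun τ => chi τ * (Nn (rad τ) n + Nn (rad τ) (n + 1)))
      (g := fun τ => c * (chi τ * (((n : ℝ) + 1) * ((rad τ) ^ (n + 1))⁻¹))) ?_ ?_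
    · exact this
    · refine Eventually.of_forall fun τ => ?_
      have h2 := Nn_add_le (rad_pos τ) (rad_le_one τ) n
      have h3 := chi_nonneg τ
      have h4 := Nn_pos (rad_pos τ) n
      have h5 := Nn_pos (rad_pos τ) (n + 1)
      rw [Real.norm_eq_abs, abs_of_nonneg (by positivity)]
      calc _ ≤ chi τ * (c * (((n : ℝ) + 1) * ((rad τ) ^ (n + 1))⁻¹)) :=
            mul_le_mul_of_nonneg_left h2 h3
        _ = _ := by ring
    · apply Continuous.intervalIntegrable
      apply continuous_const.mul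
      apply continuous_chi.mul
      apply continuous_const.mul
      apply Continuous.inv₀ (by fun_prop)
      intro x
      exact pow_ne_zero _ (rad_pos x).ne'
  refine h1.trans ?_
  rw [intervalIntegral.integral_const_mul, abs_mul, abs_of_nonneg hc0]
  calc _ ≤ c * (8 * ((rad t) ^ n)⁻¹) := mul_le_mul_of_nonneg_left (time_core t n) hc0
    _ = _ := by rw [hc]; unfold Nn; ring

end Pool.MP08d8de
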