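import Mathlib

/-! Smoothness of parametric integrals, with all derivatives computed under the integral. -/

open MeasureTheory Set Filter Topology
open scoped Real ENNReal ContDiff

noncomputable section

namespace Pool.MP08d8de

variable {Z : Type*} [MeasurableSpace Z] {E F : Type*} [NormedAddCommGroup E] [NormedSpace ℝ E]
  [NormedAddCommGroup F] [NormedSpace ℝ F]

theorem fderiv_integral_basic [CompleteSpace F] {μ : Measure Z} {φ : Z → E → F}
    (hφ : ∀ ζ, Differentiable ℝ (φ ζ))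
    (hm : ∀ x, AEStronglyMeasurable (fun ζ => φ ζ x) μ)
    (x₀ : E)
    (hm' : AEStronglyMeasurable (fun ζ => fderiv ℝ (φ ζ) x₀) μ)
    (hint : Integrable (fun ζ => φ ζ x₀) μ)
    (hb : ∃ r > 0, ∃ B : Z → ℝ, Integrable B μ ∧
      ∀ᵐ ζ ∂μ, ∀ x ∈ Metric.ball x₀ r, ‖fderiv ℝ (φ ζ) x‖ ≤ B ζ) :
    DifferentiableAt ℝ (fun x => ∫ ζ, φ ζ x ∂μ) x₀ ∧
    ∀ e, Integrable (fun ζ => fderiv ℝ (φ ζ) x₀ e) μ ∧
      fderiv ℝ (fun x => ∫ ζ, φ ζ x ∂μ) x₀ e = ∫ ζ, fderiv ℝ (φ ζ) x₀ e ∂μ := by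
  obtain ⟨r, hr, B, hB, hBb⟩ := hb
  have hI : Integrable (fun ζ => fderiv ℝ (φ ζ) x₀) μ := by
    refine Integrable.mono' hB hm' ?_
    filter_upwards [hBb] with ζ hζ
    exact hζ x₀ (Metric.mem_ball_self hr)
  have hD : HasFDerivAt (fun x => ∫ ζ, φ ζ x ∂μ) (∫ ζ, fderiv ℝ (φ ζ) x₀ ∂μ) x₀ := by
    apply hasFDerivAt_integral_of_dominated_of_fderiv_le (s := Metric.ball x₀ r) (bound := B)
      (F := fun x ζ => φ ζ x) (F' := fun x ζ => fderiv ℝ (φ ζ) x)
    · exact Metric.ball_mem_nhds x₀ hr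
    · exact Eventually.of_forall fun y => hm y
    · exact hint
    · exact hm'
    · exact hBb
    · exact hB
    · exact Eventually.of_forall fun ζ y _ => (hφ ζ y).hasFDerivAt
  refine ⟨hD.differentiableAt, fun e => ⟨hI.apply_continuousLinearMap e, ?_⟩⟩
  rw [hD.fderiv, ContinuousLinearMap.integral_apply hI e]

/-- Hypotheses for differentiating under the integral sign. -/
structure DomInt (μ : Measure Z) (Φ : Z → E → F) : Prop where
  smooth : ∀ ζ, ContDiff ℝ ∞ (Φ ζ)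
  meas : ∀ n x, AEStronglyMeasurable (fun ζ => iteratedFDeriv ℝ n (Φ ζ) x) μ
  dom : ∀ n x₀, ∃ r > 0, ∃ B : Z → ℝ, Integrable B μ ∧
      ∀ᵐ ζ ∂μ, ∀ x ∈ Metric.ball x₀ r, ‖iteratedFDeriv ℝ n (Φ ζ) x‖ ≤ B ζ

namespace DomInt

variable {μ : Measure Z} {Φ : Z → E → F}

theorem integrable (h : DomInt μ Φ) (n : ℕ) (x : E) :
    Integrable (fun ζ => iteratedFDeriv ℝ n (Φ ζ) x) μ := by
  obtain ⟨r', hr', B', hB', hBb'⟩ := h.dom n x
  refine Integrable.mono' hB' (h.meas n x) ?_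
  filter_upwards [hBb'] with ζ hζ
  exact hζ x (Metric.mem_ball_self hr')

theorem integrable' (h : DomInt μ Φ) (x : E) :
    Integrable (fun ζ => Φ ζ x) μ := by
  have := h.integrable 0 x
  have h2 := this.norm
  have h3 : (fun ζ => Φ ζ x) = fun ζ => (continuousMultilinearCurryFin0 ℝ E F)
      (iteratedFDeriv ℝ 0 (Φ ζ) x) := by
    ext ζ; simp
  refine this.mono ?_ (Eventually.of_forall fun ζ => by rw [norm_iteratedFDeriv_zero])
  rw [h3]
  exact (LinearIsometryEquiv.continuous _).comp_aestronglyMeasurable this.1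

theorem main [CompleteSpace F] (h : DomInt μ Φ) (n : ℕ) (x : E) :
    DifferentiableAt ℝ (fun x => ∫ ζ, iteratedFDeriv ℝ n (Φ ζ) x ∂μ) x ∧
    ∀ e, Integrable (fun ζ => fderiv ℝ (iteratedFDeriv ℝ n (Φ ζ)) x e) μ ∧
      fderiv ℝ (fun x => ∫ ζ, iteratedFDeriv ℝ n (Φ ζ) x ∂μ) x e =
        ∫ ζ, fderiv ℝ (iteratedFDeriv ℝ n (Φ ζ)) x e ∂μ := by
  apply fderiv_integral_basic
  · intro ζ
    exact (h.smooth ζ).differentiable_iteratedFDeriv (by exact_mod_cast ENat.natCast_lt_top n)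
  · exact h.meas n
  · have h := h.meas (n + 1) x
    have h2 : (fun ζ => fderiv ℝ (iteratedFDeriv ℝ n (Φ ζ)) x) =
        fun ζ => (continuousMultilinearCurryLeftEquiv ℝ (fun _ : Fin (n + 1) => E) F)
          (iteratedFDeriv ℝ (n + 1) (Φ ζ) x) := by
      ext1 ζ
      rw [fderiv_iteratedFDeriv]
      rfl
    rw [h2]
    exact (LinearIsometryEquiv.continuous _).comp_aestronglyMeasurable h
  · exact h.integrable n x
  · obtain ⟨r, hr, B, hB, hBb⟩ := h.dom (n + 1) x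
    refine ⟨r, hr, B, hB, ?_⟩
    filter_upwards [hBb] with ζ hζ y hy
    rw [norm_fderiv_iteratedFDeriv]
    exact hζ y hy

theorem iteratedFDeriv_eq [CompleteSpace F] (h : DomInt μ Φ) (n : ℕ) :
    iteratedFDeriv ℝ n (fun x => ∫ ζ, Φ ζ x ∂μ) =
      fun x => ∫ ζ, iteratedFDeriv ℝ n (Φ ζ) x ∂μ := by
  induction n with
  | zero =>
    ext1 x
    rw [iteratedFDeriv_zero_eq_comp]
    simp only [Function.comp]
    have : ∀ ζ, iteratedFDeriv ℝ 0 (Φ ζ) x =
        (continuousMultilinearCurryFin0 ℝ E F).symm (Φ ζ x) := by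
      intro ζ; rw [iteratedFDeriv_zero_eq_comp]; rfl
    simp_rw [this]
    exact ((continuousMultilinearCurryFin0 ℝ E F).symm.toContinuousLinearEquiv.integral_comp_comm
      (fun ζ => Φ ζ x)).symm
  | succ n ih =>
    ext x m
    rw [iteratedFDeriv_succ_apply_left, ih]
    obtain ⟨h1, h2⟩ := (h.main n x).2 (m 0)
    rw [h2, ContinuousMultilinearMap.integral_apply h1,
      ContinuousMultilinearMap.integral_apply (h.integrable (n + 1) x)]
    rfl

theorem contDiff [CompleteSpace F] (h : DomInt μ Φ) :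
    ContDiff ℝ ∞ (fun x => ∫ ζ, Φ ζ x ∂μ) := by
  apply contDiff_of_differentiable_iteratedFDeriv
  intro n _
  rw [h.iteratedFDeriv_eq n]
  intro x
  exact (h.main n x).1

end DomInt

end Pool.MP08d8de
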