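import Pool.Agent.MP_08d8de_an.Norms

/-! Picard iteration in analytic norms. -/

open MeasureTheory Set Filter Topology
open scoped Real ENNReal ContDiff Nat

noncomputable section

namespace Pool.MP08d8de

/-- the projection to the velocity -/
def pr2 : (ℝ × ℂ) →L[ℝ] ℂ := ContinuousLinearMap.snd ℝ ℝ ℂ

/-- the constant part of the shift -/
def sig0 : ℂ →L[ℝ] (ℝ × ℂ) := (0 : ℂ →L[ℝ] ℝ).prod (ContinuousLinearMap.id ℝ ℂ)
def sigL : ℂ →L[ℝ] (ℝ × ℂ) := (-Complex.reCLM).prod (0 : ℂ →L[ℝ] ℂ)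

/-- The shift in characteristic variables: `σ_t(w) = (-t Re w, w)`. -/
def sig (t : ℝ) : ℂ →L[ℝ] (ℝ × ℂ) := sig0 + t • sigL

lemma sig_apply (t : ℝ) (w : ℂ) : sig t w = (-(t * w.re), w) := by
  simp [sig, sig0, sigL]

lemma continuous_sig : Continuous sig := by unfold sig; fun_prop

lemma pr2_sig (t : ℝ) (w : ℂ) : pr2 (sig t w) = w := by
  rw [sig_apply]; rfl

lemma norm_sig_le (t : ℝ) : ‖sig t‖ ≤ 1 + |t| := by
  apply ContinuousLinearMap.opNorm_le_bound _ (by positivity)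
  intro w
  rw [sig_apply, Prod.norm_mk]
  apply max_le
  · rw [norm_neg, norm_mul, Real.norm_eq_abs, Real.norm_eq_abs]
    have := Complex.abs_re_le_norm w
    nlinarith [abs_nonneg t, norm_nonneg w, abs_nonneg w.re]
  · nlinarith [abs_nonneg t, norm_nonneg w]

lemma chi_sig_le (t : ℝ) : chi t * (1 + ‖sig t‖) ≤ 5 * chi t := by
  by_cases h : 3 / 2 ≤ |t + 1|
  · rw [chi_eq_zero h]; simp
  · push Not at h
    have h1 := norm_sig_le t
    have h2 : |t| ≤ 5 / 2 := by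
      have := abs_sub (t + 1) 1
      rw [add_sub_cancel_right, abs_one] at this
      linarith
    nlinarith [chi_nonneg t]

/-- Families with the analytic bound of size `a`. -/
def HF (P : ℕ) (κ a : ℝ) (g : ℝ → ℝ × ℂ → ℝ) : Prop :=
  Fam pr2 P κ (fun t n => a * Nn (rad t) n) g

/-- The Duhamel operator. -/
def BB (ν : Measure (ℂ × ℝ)) (g h : ℝ → ℝ × ℂ → ℝ) (t : ℝ) (x : ℝ × ℂ) : ℝ :=
  ∫ τ in (-1)..t, chi τ * QQ ν (sig τ) (g τ) (h τ) x

/-- the bilinear constant -/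
def CB (P : ℕ) (K : ℝ) : ℝ := 640 * CP P * K

variable {ν : Measure (ℂ × ℝ)} {P : ℕ} {κ a b K : ℝ} {g h : ℝ → ℝ × ℂ → ℝ}

lemma CB_nonneg (hK : KB ν P K) : 0 ≤ CB P K := by
  have := one_le_CP P
  have := hK.1
  unfold CB; positivity

lemma HF.nonneg (hg : HF P κ a g) : 0 ≤ a := by
  have := Fam.nonneg hg 0 0
  exact nonneg_of_mul_nonneg_left this (Nn_pos (rad_pos 0) 0)

lemma HF.locBdd (a : ℝ) : LocBdd (fun t n => a * Nn (rad t) n) :=
  LocBdd.of_continuous fun n => continuous_const.mul (continuous_Nn_rad n)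

lemma HF.mono (hg : HF P κ a g) (hab : a ≤ b) : HF P κ b g :=
  Fam.mono hg fun t n => mul_le_mul_of_nonneg_right hab (Nn_pos (rad_pos t) n).le

lemma HF.add (hg : HF P κ a g) (hh : HF P κ b h) : HF P κ (a + b) (fun t x => g t x + h t x) :=
  Fam.mono (Fam.add hg hh) fun t n => by rw [add_mul]

lemma HF.sub (hg : HF P κ a g) (hh : HF P κ b h) : HF P κ (a + b) (fun t x => g t x - h t x) :=
  Fam.mono (Fam.sub hg hh) fun t n => by rw [add_mul]

lemma HF.abs_le (hg : HF P κ a g) (t : ℝ) (x : ℝ × ℂ) : |g t x| ≤ a * wt P κ x.2 := by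
  have := hg.bound t 0 x
  rw [norm_iteratedFDeriv_zero, Nn_zero, mul_one] at this
  exact this

lemma HF.abs_le' (hκ : 0 ≤ κ) (hg : HF P κ a g) (t : ℝ) (x : ℝ × ℂ) : |g t x| ≤ a := by
  have := hg.abs_le t x
  have := hg.nonneg
  have := wt_le_one (P := P) hκ x.2
  nlinarith

lemma HF.domInt (hK : KB ν P K) (hκ : 0 ≤ κ) (hκ1 : κ ≤ 1) (hg : HF P κ a g) (hh : HF P κ b h)
    (t : ℝ) : DomInt ν (fun p x => qker (sig t) (g t) (h t) p x) :=
  Fam.domInt hK continuous_sig pr2_sig hκ hκ1 hg hh (HF.locBdd a) (HF.locBdd b) t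

/-- The collision term `χ(τ) Q_τ(g,h)` as a family. -/
lemma HF.QQ (hK : KB ν P K) (hκ : 0 ≤ κ) (hκ1 : κ ≤ 1) (hg : HF P κ a g) (hh : HF P κ b h) :
    Fam pr2 P κ (fun t n => (40 * CP P * K * a * b) * (chi t * (Nn (rad t) n + Nn (rad t) (n + 1))))
      (fun t x => chi t * QQ ν (sig t) (g t) (h t) x) := by
  have h1 := Fam.QQ hK continuous_sig pr2_sig hκ hκ1 hg hh (HF.locBdd a) (HF.locBdd b)
  refine (h1.smul continuous_chi).mono fun t n => ?_
  have ha := hg.nonneg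
  have hb := hh.nonneg
  have hc1 := cs_Nn (rad_pos t) ha hb n
  have hc2 := cs_Nn (rad_pos t) ha hb (n + 1)
  have hchi := chi_sig_le t
  have hchi0 := chi_nonneg t
  have hCP := one_le_CP P
  have hK0 := hK.1
  have hN1 := Nn_pos (rad_pos t) n
  have hN2 := Nn_pos (rad_pos t) (n + 1)
  rw [abs_of_nonneg hchi0]
  calc _ = (chi t * (1 + ‖sig t‖)) * (CP P * K *
        (cs (fun n => a * Nn (rad t) n) (fun n => b * Nn (rad t) n) n +
          cs (fun n => a * Nn (rad t) n) (fun n => b * Nn (rad t) n) (n + 1))) := by ring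
    _ ≤ (5 * chi t) * (CP P * K * (8 * a * b * Nn (rad t) n + 8 * a * b * Nn (rad t) (n + 1))) := by
        apply mul_le_mul hchi _ _ (by positivity)
        · apply mul_le_mul_of_nonneg_left (add_le_add hc1 hc2) (by positivity)
        · apply mul_nonneg (by positivity)
          have := cs_nonneg (A := fun n => a * Nn (rad t) n) (B := fun n => b * Nn (rad t) n)
            (fun i => mul_nonneg ha (Nn_pos (rad_pos t) i).le)
            (fun i => mul_nonneg hb (Nn_pos (rad_pos t) i).le)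
          exact add_nonneg (this _) (this _)
    _ = _ := by ring

/-- **The bilinear estimate** in analytic norms. -/
theorem HF.BB (hK : KB ν P K) (hκ : 0 ≤ κ) (hκ1 : κ ≤ 1) (hg : HF P κ a g) (hh : HF P κ b h) :
    HF P κ (CB P K * a * b) (BB ν g h) := by
  have h1 := HF.QQ hK hκ hκ1 hg hh
  have h2 := h1.timeInt hκ (fun n => continuous_const.mul (continuous_chi.mul
    ((continuous_Nn_rad n).add (continuous_Nn_rad (n + 1))))) (-1)
  refine Fam.mono h2 fun t n => ?_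
  rw [intervalIntegral.integral_const_mul, abs_mul]
  have ha := hg.nonneg
  have hb := hh.nonneg
  have hCP := one_le_CP P
  have hK0 := hK.1
  have hc : 0 ≤ 40 * CP P * K * a * b := by positivity
  rw [abs_of_nonneg hc]
  calc _ ≤ 40 * CP P * K * a * b * (16 * Nn (rad t) n) :=
        mul_le_mul_of_nonneg_left (time_bound t n) hc
    _ = _ := by unfold CB; ring

lemma QQ_sub_left {g' : ℝ → ℝ × ℂ → ℝ} {a' : ℝ} (hK : KB ν P K) (hκ : 0 ≤ κ) (hκ1 : κ ≤ 1)
    (hg : HF P κ a g) (hg' : HF P κ a' g') (hh : HF P κ b h) (t : ℝ) (x : ℝ × ℂ) :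
    QQ ν (sig t) (fun x => g t x - g' t x) (h t) x =
      QQ ν (sig t) (g t) (h t) x - QQ ν (sig t) (g' t) (h t) x := by
  unfold Pool.MP08d8de.QQ
  rw [← integral_sub ((HF.domInt hK hκ hκ1 hg hh t).integrable' x)
    ((HF.domInt hK hκ hκ1 hg' hh t).integrable' x)]
  congr 1
  ext p
  unfold qker
  ring

lemma QQ_sub_right {h' : ℝ → ℝ × ℂ → ℝ} {b' : ℝ} (hK : KB ν P K) (hκ : 0 ≤ κ) (hκ1 : κ ≤ 1)
    (hg : HF P κ a g) (hh : HF P κ b h) (hh' : HF P κ b' h') (t : ℝ) (x : ℝ × ℂ) :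
    QQ ν (sig t) (g t) (fun x => h t x - h' t x) x =
      QQ ν (sig t) (g t) (h t) x - QQ ν (sig t) (g t) (h' t) x := by
  unfold Pool.MP08d8de.QQ
  rw [← integral_sub ((HF.domInt hK hκ hκ1 hg hh t).integrable' x)
    ((HF.domInt hK hκ hκ1 hg hh' t).integrable' x)]
  congr 1
  ext p
  unfold qker
  ring

lemma BB_cont (hK : KB ν P K) (hκ : 0 ≤ κ) (hκ1 : κ ≤ 1) (hg : HF P κ a g) (hh : HF P κ b h)
    (x : ℝ × ℂ) : Continuous fun τ => chi τ * QQ ν (sig τ) (g τ) (h τ) x := by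
  have h1 := (HF.QQ hK hκ hκ1 hg hh).cont.continuous
  have h2 : Continuous fun τ : ℝ => (τ, x) := by fun_prop
  exact h1.comp h2

/-- Polarization of the difference of Duhamel terms. -/
lemma BB_diff (hK : KB ν P K) (hκ : 0 ≤ κ) (hκ1 : κ ≤ 1) (hg : HF P κ a g) (hh : HF P κ b h)
    (t : ℝ) (x : ℝ × ℂ) :
    BB ν g g t x - BB ν h h t x =
      BB ν (fun t x => g t x - h t x) g t x + BB ν h (fun t x => g t x - h t x) t x := by
  have hd := hg.sub hh
  unfold Pool.MP08d8de.BB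
  rw [← intervalIntegral.integral_sub ((BB_cont hK hκ hκ1 hg hg x).intervalIntegrable _ _)
    ((BB_cont hK hκ hκ1 hh hh x).intervalIntegrable _ _),
    ← intervalIntegral.integral_add ((BB_cont hK hκ hκ1 hd hg x).intervalIntegrable _ _)
    ((BB_cont hK hκ hκ1 hh hd x).intervalIntegrable _ _)]
  apply intervalIntegral.integral_congr
  intro τ _
  simp only
  rw [QQ_sub_left hK hκ hκ1 hg hh hg, QQ_sub_right hK hκ hκ1 hh hg hh]
  ring

lemma HF.congr {g' : ℝ → ℝ × ℂ → ℝ} (hg : HF P κ a g) (h : ∀ t x, g' t x = g t x) :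
    HF P κ a g' := by
  have : g' = g := by ext t x; exact h t x
  rw [this]; exact hg

/-- Summation of families. -/
lemma HF.tsum (hκ : 0 ≤ κ) {d : ℕ → ℝ → ℝ × ℂ → ℝ} {δ : ℕ → ℝ} (hd : ∀ m, HF P κ (δ m) (d m))
    (hδ : Summable δ) : HF P κ (∑' m, δ m) (fun t x => ∑' m, d m t x) := by
  have hb : ∀ n m t x, ‖iteratedFDeriv ℝ n (d m t) x‖ ≤ δ m * Nn (5 / 8) n := by
    intro n m t x
    refine ((hd m).bound t n x).trans ?_
    have h1 := (hd m).nonneg
    have h2 := wt_le_one (P := P) hκ (pr2 x)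
    have h3 := wt_pos P κ (pr2 x)
    have h4 := Nn_le_unif t n
    have h5 := Nn_pos (rad_pos t) n
    calc δ m * Nn (rad t) n * wt P κ (pr2 x) ≤ δ m * Nn (rad t) n * 1 := by gcongr
      _ ≤ δ m * Nn (5 / 8) n := by rw [mul_one]; gcongr
  have hsum : ∀ n, Summable fun m => δ m * Nn (5 / 8) n := fun n => hδ.mul_right _
  have heq : ∀ n t, iteratedFDeriv ℝ n (fun x => ∑' m, d m t x) =
      fun x => ∑' m, iteratedFDeriv ℝ n (d m t) x := by
    intro n t
    exact iteratedFDeriv_tsum (N := ⊤) (v := fun n m => δ m * Nn (5 / 8) n)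
      (fun m => (hd m).smooth t) (fun n _ => hsum n) (fun n m x _ => hb n m t x) le_top
  refine ⟨fun t => ?_, fun n => ?_, fun t n x => ?_⟩
  · exact contDiff_tsum (N := ⊤) (v := fun n m => δ m * Nn (5 / 8) n)
      (fun m => (hd m).smooth t) (fun n _ => hsum n) (fun n m x _ => hb n m t x)
  · simp_rw [heq]
    apply continuous_tsum _ (hsum n)
    · intro m q
      exact hb n m q.1 q.2
    · intro m
      exact (hd m).cont n
  · rw [heq]
    have h6 : ∀ m, ‖iteratedFDeriv ℝ n (d m t) x‖ ≤ δ m * (Nn (rad t) n * wt P κ (pr2 x)) := by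
      intro m
      have := (hd m).bound t n x
      rwa [mul_assoc] at this
    have h7 : Summable fun m => δ m * (Nn (rad t) n * wt P κ (pr2 x)) := hδ.mul_right _
    refine (tsum_of_norm_bounded h7.hasSum h6).trans ?_
    rw [tsum_mul_right, mul_assoc]

/-- constant families -/
lemma HF.const {gin : ℝ × ℂ → ℝ} (hs : ContDiff ℝ ∞ gin)
    (hb : ∀ n x, ‖iteratedFDeriv ℝ n gin x‖ ≤ a * Nn 1 n * wt P κ x.2) :
    HF P κ a (fun _ => gin) := by
  refine ⟨fun _ => hs, fun n => ?_, fun t n x => ?_⟩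
  · exact (hs.continuous_iteratedFDeriv (by exact_mod_cast le_top)).comp continuous_snd
  · refine (hb n x).trans ?_
    have ha : 0 ≤ a := by
      have h1 := (norm_nonneg _).trans (hb 0 0)
      rw [Nn_zero, mul_one] at h1
      exact nonneg_of_mul_nonneg_left h1 (wt_pos _ _ _)
    have h2 : Nn 1 n ≤ Nn (rad t) n := by
      unfold Nn
      apply mul_le_mul_of_nonneg_left _ (by positivity)
      apply inv_anti₀ (pow_pos (rad_pos t) n)
      exact pow_le_pow_left₀ (rad_pos t).le (rad_le_one t) n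
    have h3 := wt_pos P κ x.2
    show a * Nn 1 n * wt P κ x.2 ≤ a * Nn (rad t) n * wt P κ x.2
    gcongr

/-- Picard iterates. -/
def GG (ν : Measure (ℂ × ℝ)) (gin : ℝ × ℂ → ℝ) : ℕ → ℝ → ℝ × ℂ → ℝ
  | 0 => fun _ => gin
  | (m + 1) => fun t x => gin x + BB ν (GG ν gin m) (GG ν gin m) t x

/-- The solution. -/
def gsol (ν : Measure (ℂ × ℝ)) (gin : ℝ × ℂ → ℝ) (t : ℝ) (x : ℝ × ℂ) : ℝ :=
  gin x + ∑' m, (GG ν gin (m + 1) t x - GG ν gin m t x)

section iteration

variable {ε : ℝ} {gin : ℝ × ℂ → ℝ}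

lemma GG_HF (hK : KB ν P K) (hκ : 0 ≤ κ) (hκ1 : κ ≤ 1) (hin : HF P κ ε (fun _ => gin))
    (hε : CB P K * ε ≤ 1 / 16) (m : ℕ) : HF P κ (2 * ε) (GG ν gin m) := by
  have hε0 := hin.nonneg
  induction m with
  | zero => exact hin.mono (by linarith)
  | succ m ih =>
    refine (hin.add (HF.BB hK hκ hκ1 ih ih)).mono ?_
    nlinarith

lemma GG_diff (hK : KB ν P K) (hκ : 0 ≤ κ) (hκ1 : κ ≤ 1) (hin : HF P κ ε (fun _ => gin))
    (hε : CB P K * ε ≤ 1 / 16) (m : ℕ) :
    HF P κ (CB P K * ε ^ 2 * (1 / 4) ^ m)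
      (fun t x => GG ν gin (m + 1) t x - GG ν gin m t x) := by
  have hε0 := hin.nonneg
  have hC := CB_nonneg hK
  induction m with
  | zero =>
    refine ((HF.BB hK hκ hκ1 hin hin).congr fun t x => ?_).mono ?_
    · simp [GG]
    · apply le_of_eq; ring
  | succ m ih =>
    have h1 := GG_HF hK hκ hκ1 hin hε m
    have h2 := GG_HF hK hκ hκ1 hin hε (m + 1)
    have h3 := (HF.BB hK hκ hκ1 ih h2).add (HF.BB hK hκ hκ1 h1 ih)
    refine (h3.congr fun t x => ?_).mono ?_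
    · have := BB_diff hK hκ hκ1 h2 h1 t x
      rw [← this]
      show gin x + BB ν (GG ν gin (m + 1)) (GG ν gin (m + 1)) t x -
        (gin x + BB ν (GG ν gin m) (GG ν gin m) t x) = _
      ring
    · have h4 : 0 ≤ CB P K * ε ^ 2 * (1 / 4) ^ m := by positivity
      have h5 : CB P K * (CB P K * ε ^ 2 * (1 / 4) ^ m) * (2 * ε) +
        CB P K * (2 * ε) * (CB P K * ε ^ 2 * (1 / 4) ^ m) =
        4 * (CB P K * ε) * (CB P K * ε ^ 2 * (1 / 4) ^ m) := by ring
      have h6 : CB P K * ε ^ 2 * (1 / 4) ^ (m + 1) =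
        (1 / 4) * (CB P K * ε ^ 2 * (1 / 4) ^ m) := by ring
      rw [h5, h6]
      apply mul_le_mul_of_nonneg_right _ h4
      linarith

lemma summable_delta (c : ℝ) : Summable fun m : ℕ => c * (1 / 4 : ℝ) ^ m :=
  (summable_geometric_of_lt_one (by norm_num) (by norm_num)).mul_left c

lemma tsum_delta (c : ℝ) : ∑' m : ℕ, c * (1 / 4 : ℝ) ^ m = 4 / 3 * c := by
  rw [tsum_mul_left, tsum_geometric_of_lt_one (by norm_num) (by norm_num)]
  ring

/-- The solution stays close to the data. -/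
lemma gsol_sub (hK : KB ν P K) (hκ : 0 ≤ κ) (hκ1 : κ ≤ 1) (hin : HF P κ ε (fun _ => gin))
    (hε : CB P K * ε ≤ 1 / 16) :
    HF P κ (4 / 3 * (CB P K * ε ^ 2)) (fun t x => gsol ν gin t x - gin x) := by
  have h1 := HF.tsum hκ (GG_diff hK hκ hκ1 hin hε) (summable_delta _)
  rw [tsum_delta] at h1
  exact h1.congr fun t x => by unfold gsol; ring

lemma gsol_HF (hK : KB ν P K) (hκ : 0 ≤ κ) (hκ1 : κ ≤ 1) (hin : HF P κ ε (fun _ => gin))
    (hε : CB P K * ε ≤ 1 / 16) : HF P κ (2 * ε) (gsol ν gin) := by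
  have h1 := hin.add (gsol_sub hK hκ hκ1 hin hε)
  have hε0 := hin.nonneg
  refine (h1.congr fun t x => by ring).mono ?_
  nlinarith

lemma gsol_sub_GG (hK : KB ν P K) (hκ : 0 ≤ κ) (hκ1 : κ ≤ 1) (hin : HF P κ ε (fun _ => gin))
    (hε : CB P K * ε ≤ 1 / 16) (M : ℕ) :
    HF P κ (4 / 3 * (CB P K * ε ^ 2 * (1 / 4) ^ M)) (fun t x => gsol ν gin t x - GG ν gin M t x) := by
  have hd := GG_diff hK hκ hκ1 hin hε
  have h1 := HF.tsum hκ (d := fun m t x => GG ν gin (m + M + 1) t x - GG ν gin (m + M) t x)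
    (δ := fun m => (CB P K * ε ^ 2 * (1 / 4) ^ M) * (1 / 4) ^ m)
    (fun m => (hd (m + M)).mono (by apply le_of_eq; rw [pow_add]; ring)) (summable_delta _)
  rw [tsum_delta] at h1
  refine h1.congr fun t x => ?_
  have hs : Summable fun m => GG ν gin (m + 1) t x - GG ν gin m t x := by
    apply Summable.of_norm_bounded (summable_delta (CB P K * ε ^ 2))
    intro m
    exact (hd m).abs_le' hκ t x
  have h2 := hs.sum_add_tsum_nat_add M
  have h3 : ∑ i ∈ Finset.range M, (GG ν gin (i + 1) t x - GG ν gin i t x) =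
      GG ν gin M t x - gin x := by
    rw [Finset.sum_range_sub (fun i => GG ν gin i t x)]
    rfl
  unfold gsol
  rw [← h2, h3]
  ring

/-- **The fixed point equation.** -/
theorem gsol_eq (hK : KB ν P K) (hκ : 0 ≤ κ) (hκ1 : κ ≤ 1) (hin : HF P κ ε (fun _ => gin))
    (hε : CB P K * ε ≤ 1 / 16) (t : ℝ) (x : ℝ × ℂ) :
    gsol ν gin t x = gin x + BB ν (gsol ν gin) (gsol ν gin) t x := by
  have hC := CB_nonneg hK
  have hε0 := hin.nonneg
  have hg := gsol_HF hK hκ hκ1 hin hε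
  have hpow : Tendsto (fun M : ℕ => (1 / 4 : ℝ) ^ M) atTop (𝓝 0) :=
    tendsto_pow_atTop_nhds_zero_of_lt_one (by norm_num) (by norm_num)
  have h1 : Tendsto (fun M => GG ν gin (M + 1) t x) atTop (𝓝 (gsol ν gin t x)) := by
    rw [tendsto_iff_norm_sub_tendsto_zero]
    have h2 : Tendsto (fun M : ℕ => 4 / 3 * (CB P K * ε ^ 2 * (1 / 4 : ℝ) ^ (M + 1))) atTop (𝓝 0) := by
      have := ((hpow.comp (tendsto_add_atTop_nat 1)).const_mul (CB P K * ε ^ 2)).const_mul (4 / 3)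
      simpa using this
    refine squeeze_zero (fun _ => norm_nonneg _) (fun M => ?_) h2
    rw [norm_sub_rev]
    exact (gsol_sub_GG hK hκ hκ1 hin hε (M + 1)).abs_le' hκ t x
  have h2 : Tendsto (fun M => GG ν gin (M + 1) t x) atTop
      (𝓝 (gin x + BB ν (gsol ν gin) (gsol ν gin) t x)) := by
    have h3 : ∀ M, GG ν gin (M + 1) t x = gin x + BB ν (GG ν gin M) (GG ν gin M) t x :=
      fun M => rfl
    simp_rw [h3]
    apply Tendsto.const_add
    rw [tendsto_iff_norm_sub_tendsto_zero]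
    have h4 : Tendsto (fun M : ℕ => CB P K * (4 / 3 * (CB P K * ε ^ 2 * (1 / 4 : ℝ) ^ M)) * (2 * ε) +
        CB P K * (2 * ε) * (4 / 3 * (CB P K * ε ^ 2 * (1 / 4 : ℝ) ^ M))) atTop (𝓝 0) := by
      have h5 := (hpow.const_mul (CB P K * ε ^ 2)).const_mul (4 / 3 : ℝ)
      have h6 := (h5.const_mul (CB P K)).mul_const (2 * ε)
      have h7 := h5.const_mul (CB P K * (2 * ε))
      have := h6.add h7
      simpa using this
    refine squeeze_zero (fun _ => norm_nonneg _) (fun M => ?_) h4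
    rw [norm_sub_rev]
    have hGM := GG_HF hK hκ hκ1 hin hε M
    have hd := gsol_sub_GG hK hκ hκ1 hin hε M
    rw [BB_diff hK hκ hκ1 hg hGM t x]
    exact ((HF.BB hK hκ hκ1 hd hg).add (HF.BB hK hκ hκ1 hGM hd)).abs_le' hκ t x
  exact tendsto_nhds_unique h1 h2

lemma gsol_init (hK : KB ν P K) (hκ : 0 ≤ κ) (hκ1 : κ ≤ 1) (hin : HF P κ ε (fun _ => gin))
    (hε : CB P K * ε ≤ 1 / 16) (x : ℝ × ℂ) : gsol ν gin (-1) x = gin x := by
  rw [gsol_eq hK hκ hκ1 hin hε]
  simp [BB]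

theorem gsol_deriv (hK : KB ν P K) (hκ : 0 ≤ κ) (hκ1 : κ ≤ 1) (hin : HF P κ ε (fun _ => gin))
    (hε : CB P K * ε ≤ 1 / 16) (t : ℝ) (x : ℝ × ℂ) :
    HasDerivAt (fun τ => gsol ν gin τ x)
      (chi t * QQ ν (sig t) (gsol ν gin t) (gsol ν gin t) x) t := by
  have hg := gsol_HF hK hκ hκ1 hin hε
  have h1 : (fun τ => gsol ν gin τ x) = fun τ => gin x + BB ν (gsol ν gin) (gsol ν gin) τ x := by
    ext τ; exact gsol_eq hK hκ hκ1 hin hε τ x
  rw [h1]
  apply HasDerivAt.const_add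
  have hc := BB_cont hK hκ hκ1 hg hg x
  exact intervalIntegral.integral_hasDerivAt_right (hc.intervalIntegrable _ _)
    (hc.stronglyMeasurableAtFilter _ _) hc.continuousAt

end iteration

end Pool.MP08d8de
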