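import Pool.Agent.MP_08d8de_an.Picard

/-! Minimum principle: positivity of the solution. -/

open MeasureTheory Set Filter Topology
open scoped Real ENNReal ContDiff Nat

noncomputable section

namespace Pool.MP08d8de

/-- Kernel integral of `min(c, L |z||θ|)` against an integrable weight of `v + z`. -/
lemma lint_min {s : ℝ} (hs0 : 0 < s) (hs1 : s < 1 / 2) {L : ℝ} (hL : 0 < L)
    {om : ℂ → ℝ} (hom : Measurable om) (hom0 : ∀ v, 0 ≤ om v) (homi : Integrable om) :
    ∃ C : ℝ, 0 ≤ C ∧ ∀ c : ℝ, 0 < c → ∀ v : ℂ,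
      ∫⁻ p : ℂ × ℝ, ENNReal.ofReal (om (v + p.1) * min c (L * (‖p.1‖ * |p.2|))) ∂(muK s) ≤
        ENNReal.ofReal (C * c ^ (1 - 2 * s)) := by
  have hπ := Real.pi_pos
  have hs2 : 0 < 1 - 2 * s := by linarith
  set I := ∫ u, om u with hI
  have hI0 : 0 ≤ I := integral_nonneg hom0
  refine ⟨(π ^ 2 / s + 2 * π ^ 2 / (1 - 2 * s)) * L ^ (2 * s) * I, by positivity, ?_⟩
  intro c hc v
  unfold muK
  have hmk := measurable_kern s
  rw [lintegral_withDensity_eq_lintegral_mul _ (by fun_prop) (by fun_prop)]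
  simp only [Pi.mul_apply]
  rw [lintegral_prod _ (by fun_prop)]
  calc _ ≤ ∫⁻ z : ℂ, ENNReal.ofReal ((π ^ 2 / s + 2 * π ^ 2 / (1 - 2 * s)) * L ^ (2 * s) *
        c ^ (1 - 2 * s)) * ENNReal.ofReal (om (v + z)) := by
        apply lintegral_mono_ae
        filter_upwards [ae_ne_zero] with z hz
        have hz0 : 0 < ‖z‖ := norm_pos_iff.2 hz
        set r : ℝ := c / (L * ‖z‖) with hr
        have hr0 : 0 < r := by positivity
        have h1 : ∀ θ : ℝ, ENNReal.ofReal (kern s (z, θ)) *
            ENNReal.ofReal (om (v + z) * min c (L * (‖z‖ * |θ|))) ≤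
            ENNReal.ofReal (‖z‖ ^ (-(2 * s)) * om (v + z)) *
            (ENNReal.ofReal c * {θ : ℝ | r < |θ|}.indicator
              (fun θ => ENNReal.ofReal (|Real.sin (θ / 2)| ^ (-(1 + 2 * s)))) θ +
             ENNReal.ofReal (L * ‖z‖) * {θ : ℝ | |θ| ≤ r}.indicator
              (fun θ => ENNReal.ofReal (|Real.sin (θ / 2)| ^ (-(1 + 2 * s)) * |θ|)) θ) := by
          intro θ
          rw [← ENNReal.ofReal_mul (kern_nonneg _ _)]
          have ho := hom0 (v + z)
          by_cases hθ : |θ| ≤ r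
          · rw [indicator_of_notMem (by simpa using hθ), indicator_of_mem (by simpa using hθ),
              mul_zero, zero_add, ← ENNReal.ofReal_mul (by positivity),
              ← ENNReal.ofReal_mul (by positivity)]
            apply ENNReal.ofReal_le_ofReal
            unfold kern
            simp only
            calc _ ≤ ‖z‖ ^ (-(2 * s)) * |Real.sin (θ / 2)| ^ (-(1 + 2 * s)) *
                  (om (v + z) * (L * (‖z‖ * |θ|))) := by
                  gcongr
                  exact min_le_right _ _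
              _ = _ := by ring
          · push Not at hθ
            rw [indicator_of_mem (by simpa using hθ), indicator_of_notMem (by simpa using hθ),
              mul_zero, add_zero, ← ENNReal.ofReal_mul (by positivity),
              ← ENNReal.ofReal_mul (by positivity)]
            apply ENNReal.ofReal_le_ofReal
            unfold kern
            simp only
            calc _ ≤ ‖z‖ ^ (-(2 * s)) * |Real.sin (θ / 2)| ^ (-(1 + 2 * s)) *
                  (om (v + z) * c) := by
                  gcongr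
                  exact min_le_left _ _
              _ = _ := by ring
        refine (lintegral_mono h1).trans ?_
        rw [lintegral_const_mul' _ _ ENNReal.ofReal_ne_top]
        have hms : MeasurableSet {θ : ℝ | r < |θ|} := measurableSet_lt (by fun_prop) (by fun_prop)
        rw [lintegral_add_left (by
          apply Measurable.const_mul
          exact Measurable.indicator (by fun_prop) hms),
          lintegral_const_mul' _ _ ENNReal.ofReal_ne_top,
          lintegral_const_mul' _ _ ENNReal.ofReal_ne_top]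
        have h2 := lint_far hs0 hs1 hr0
        have h3 := lint_near hs0 hs1 hr0
        calc _ ≤ ENNReal.ofReal (‖z‖ ^ (-(2 * s)) * om (v + z)) *
              (ENNReal.ofReal c * ENNReal.ofReal (π ^ 2 / s * r ^ (-(2 * s))) +
               ENNReal.ofReal (L * ‖z‖) *
                ENNReal.ofReal (2 * π ^ 2 / (1 - 2 * s) * r ^ (1 - 2 * s))) := by
              gcongr
          _ = _ := by
              have ho := hom0 (v + z)
              rw [← ENNReal.ofReal_mul (by positivity), ← ENNReal.ofReal_mul (by positivity),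
                ← ENNReal.ofReal_add (by positivity) (by positivity),
                ← ENNReal.ofReal_mul (by positivity), ← ENNReal.ofReal_mul (by positivity)]
              congr 1
              have e1 : r ^ (-(2 * s)) = c ^ (-(2 * s)) * (L ^ (2 * s) * ‖z‖ ^ (2 * s)) := by
                rw [hr, Real.div_rpow hc.le (by positivity), Real.mul_rpow hL.le hz0.le,
                  Real.rpow_neg hL.le, Real.rpow_neg hz0.le]
                have : L ^ (2 * s) ≠ 0 := (Real.rpow_pos_of_pos hL _).ne'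
                have : ‖z‖ ^ (2 * s) ≠ 0 := (Real.rpow_pos_of_pos hz0 _).ne'
                field_simp
              have e2 : r ^ (1 - 2 * s) = r * r ^ (-(2 * s)) := by
                rw [show 1 - 2 * s = 1 + (-(2 * s)) by ring, Real.rpow_add hr0, Real.rpow_one]
              have e3 : c ^ (1 - 2 * s) = c * c ^ (-(2 * s)) := by
                rw [show 1 - 2 * s = 1 + (-(2 * s)) by ring, Real.rpow_add hc, Real.rpow_one]
              have e4 : ‖z‖ ^ (-(2 * s)) * ‖z‖ ^ (2 * s) = 1 := by
                rw [← Real.rpow_add hz0]; simp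
              have e5 : L * ‖z‖ * r = c := by rw [hr]; field_simp
              rw [e2, e1, e3]
              have e6 : ‖z‖ ^ (-(2 * s)) * om (v + z) *
                  (c * (π ^ 2 / s * (c ^ (-(2 * s)) * (L ^ (2 * s) * ‖z‖ ^ (2 * s)))) +
                    L * ‖z‖ * (2 * π ^ 2 / (1 - 2 * s) * (r *
                      (c ^ (-(2 * s)) * (L ^ (2 * s) * ‖z‖ ^ (2 * s)))))) =
                  (‖z‖ ^ (-(2 * s)) * ‖z‖ ^ (2 * s)) * om (v + z) * (c ^ (-(2 * s)) * L ^ (2 * s)) *
                  (c * (π ^ 2 / s) + (L * ‖z‖ * r) * (2 * π ^ 2 / (1 - 2 * s))) := by ring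
              rw [e6, e4, e5]
              ring
    _ = ENNReal.ofReal ((π ^ 2 / s + 2 * π ^ 2 / (1 - 2 * s)) * L ^ (2 * s) *
        c ^ (1 - 2 * s)) * ENNReal.ofReal I := by
        rw [lintegral_const_mul' _ _ ENNReal.ofReal_ne_top,
          lintegral_add_left_eq_self (fun u => ENNReal.ofReal (om u)) v,
          ofReal_integral_eq_lintegral_ofReal homi (Eventually.of_forall hom0)]
    _ = _ := by
        rw [← ENNReal.ofReal_mul (by positivity)]
        congr 1; ring

lemma int_min {s : ℝ} (hs0 : 0 < s) (hs1 : s < 1 / 2) {L : ℝ} (hL : 0 < L)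
    {om : ℂ → ℝ} (hom : Measurable om) (hom0 : ∀ v, 0 ≤ om v) (homi : Integrable om) :
    ∃ C : ℝ, 0 ≤ C ∧ ∀ c : ℝ, 0 < c → ∀ v : ℂ,
      Integrable (fun p : ℂ × ℝ => om (v + p.1) * min c (L * (‖p.1‖ * |p.2|))) (muK s) ∧
      ∫ p : ℂ × ℝ, om (v + p.1) * min c (L * (‖p.1‖ * |p.2|)) ∂(muK s) ≤ C * c ^ (1 - 2 * s) := by
  obtain ⟨C, hC0, hC⟩ := lint_min hs0 hs1 hL hom hom0 homi
  refine ⟨C, hC0, fun c hc v => ?_⟩
  have hm : AEStronglyMeasurable (fun p : ℂ × ℝ => om (v + p.1) * min c (L * (‖p.1‖ * |p.2|)))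
      (muK s) := Measurable.aestronglyMeasurable (by fun_prop)
  have hnn : ∀ p : ℂ × ℝ, 0 ≤ om (v + p.1) * min c (L * (‖p.1‖ * |p.2|)) := fun p =>
    mul_nonneg (hom0 _) (le_min hc.le (by positivity))
  constructor
  · refine ⟨hm, ?_⟩
    rw [hasFiniteIntegral_iff_ofReal (Eventually.of_forall hnn)]
    exact (hC c hc v).trans_lt ENNReal.ofReal_lt_top
  · rw [integral_eq_lintegral_of_nonneg_ae (Eventually.of_forall hnn) hm]
    exact ENNReal.toReal_le_of_le_ofReal (by positivity) (hC c hc v)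

lemma int_min' {s : ℝ} (hs0 : 0 < s) (hs1 : s < 1 / 2) {ν : Measure (ℂ × ℝ)} (hν : DomM s ν)
    {L : ℝ} (hL : 0 < L)
    {om : ℂ → ℝ} (hom : Measurable om) (hom0 : ∀ v, 0 ≤ om v) (homi : Integrable om) :
    ∃ C : ℝ, 0 ≤ C ∧ ∀ c : ℝ, 0 < c → ∀ v : ℂ,
      Integrable (fun p : ℂ × ℝ => om (v + p.1) * min c (L * (‖p.1‖ * |p.2|))) ν ∧
      ∫ p : ℂ × ℝ, om (v + p.1) * min c (L * (‖p.1‖ * |p.2|)) ∂ν ≤ C * c ^ (1 - 2 * s) := by
  obtain ⟨C, hC0, hC⟩ := int_min hs0 hs1 hL hom hom0 homi
  obtain ⟨c0, hc0, hν⟩ := hν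
  refine ⟨c0 * C, by positivity, fun c hc v => ?_⟩
  obtain ⟨h1, h2⟩ := DomM.integral_le hc0 hν (f := fun p : ℂ × ℝ => om (v + p.1) *
    min c (L * (‖p.1‖ * |p.2|))) (fun p =>
    mul_nonneg (hom0 _) (le_min hc.le (by positivity))) (hC c hc v).1
  refine ⟨h1, h2.trans ?_⟩
  rw [mul_assoc]
  exact mul_le_mul_of_nonneg_left (hC c hc v).2 hc0

/-- Gaussian weight -/
def om (k : ℝ) (v : ℂ) : ℝ := Real.exp (-(k * ‖v‖ ^ 2))

lemma om_pos (k : ℝ) (v : ℂ) : 0 < om k v := Real.exp_pos _

lemma om_integrable {k : ℝ} (hk : 0 < k) : Integrable (om k) := by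
  have := GaussianFourier.integrable_cexp_neg_mul_sq_norm_add (V := ℂ) (b := (k : ℂ))
    (by simpa using hk) 0 0
  have h2 := this.re
  refine h2.congr (Eventually.of_forall fun v => ?_)
  simp only [om]
  have : Complex.exp (-(k : ℂ) * (‖v‖ : ℂ) ^ 2 + 0 * ((inner ℝ (0 : ℂ) v : ℝ) : ℂ)) =
      ((Real.exp (-(k * ‖v‖ ^ 2)) : ℝ) : ℂ) := by
    push_cast; ring_nf
  rw [this]
  exact Complex.ofReal_re _

lemma om_collision (k θ : ℝ) (v z : ℂ) :
    om k (v + aa θ * z) * om k (v + bb θ * z) = om k v * om k (v + z) := by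
  unfold om
  rw [← Real.exp_add, ← Real.exp_add]
  congr 1
  have := energy θ v z
  linear_combination (-k) * this

end Pool.MP08d8de
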