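import Pool.Agent.MP_08d8de_an.KernelInt
import Pool.Agent.MP_08d8de_an.ParamInt

/-! Estimates for the derivatives of the collision integrand. -/

open MeasureTheory Set Filter Topology
open scoped Real ENNReal ContDiff

noncomputable section

namespace Pool.MP08d8de

variable {E : Type*} [NormedAddCommGroup E] [NormedSpace ℝ E]

/-- The collision integrand, for the shift `σ`. -/
def qker (σ : ℂ →L[ℝ] E) (g h : E → ℝ) (p : ℂ × ℝ) (x : E) : ℝ :=
  g (x + σ (aa p.2 * p.1)) * h (x + σ (bb p.2 * p.1)) - g (x + σ p.1) * h x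

/-- Binomial convolution of sequences. -/
def cs (A B : ℕ → ℝ) (m : ℕ) : ℝ :=
  ∑ i ∈ Finset.range (m + 1), (m.choose i : ℝ) * A i * B (m - i)

lemma cs_nonneg {A B : ℕ → ℝ} (hA : ∀ i, 0 ≤ A i) (hB : ∀ i, 0 ≤ B i) (m : ℕ) :
    0 ≤ cs A B m := by
  unfold cs
  apply Finset.sum_nonneg
  intro i _
  have := hA i
  have := hB (m - i)
  positivity

/-- tensor product -/
def tens (g h : E → ℝ) (X : E × E) : ℝ := g X.1 * h X.2

lemma contDiff_tens {g h : E → ℝ} (hg : ContDiff ℝ ∞ g) (hh : ContDiff ℝ ∞ h) :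
    ContDiff ℝ ∞ (tens g h) := by
  unfold tens
  exact (hg.comp contDiff_fst).mul (hh.comp contDiff_snd)

lemma norm_iteratedFDeriv_comp_clm_le {E₁ E₂ : Type*} [NormedAddCommGroup E₁] [NormedSpace ℝ E₁]
    [NormedAddCommGroup E₂] [NormedSpace ℝ E₂] {F : Type*} [NormedAddCommGroup F]
    [NormedSpace ℝ F] (L : E₁ →L[ℝ] E₂) (hL : ‖L‖ ≤ 1)
    {g : E₂ → F} (hg : ContDiff ℝ ∞ g) (i : ℕ) (x : E₁) :
    ‖iteratedFDeriv ℝ i (fun y => g (L y)) x‖ ≤ ‖iteratedFDeriv ℝ i g (L x)‖ := by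
  have h := L.iteratedFDeriv_comp_right hg x (i := i) (by exact_mod_cast le_top)
  have h2 : (fun y => g (L y)) = g ∘ L := rfl
  rw [h2, h]
  refine (ContinuousMultilinearMap.norm_compContinuousLinearMap_le _ _).trans ?_
  calc _ ≤ ‖iteratedFDeriv ℝ i g (L x)‖ * 1 := by
        apply mul_le_mul_of_nonneg_left _ (norm_nonneg _)
        apply Finset.prod_le_one
        · intro j _; exact norm_nonneg _
        · intro j _; exact hL
    _ = _ := mul_one _

lemma norm_iteratedFDeriv_tens_le {g h : E → ℝ} (hg : ContDiff ℝ ∞ g) (hh : ContDiff ℝ ∞ h)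
    (m : ℕ) (X : E × E) :
    ‖iteratedFDeriv ℝ m (tens g h) X‖ ≤
      ∑ i ∈ Finset.range (m + 1), (m.choose i : ℝ) * ‖iteratedFDeriv ℝ i g X.1‖ *
        ‖iteratedFDeriv ℝ (m - i) h X.2‖ := by
  have h1 : ContDiff ℝ ∞ (fun X : E × E => g X.1) := hg.comp contDiff_fst
  have h2 : ContDiff ℝ ∞ (fun X : E × E => h X.2) := hh.comp contDiff_snd
  have h3 := norm_iteratedFDeriv_mul_le (n := m) h1 h2 X (by exact_mod_cast le_top)
  refine h3.trans ?_
  apply Finset.sum_le_sum
  intro i _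
  have e1 := norm_iteratedFDeriv_comp_clm_le (ContinuousLinearMap.fst ℝ E E)
    (ContinuousLinearMap.norm_fst_le ℝ E E) hg i X
  have e2 := norm_iteratedFDeriv_comp_clm_le (ContinuousLinearMap.snd ℝ E E)
    (ContinuousLinearMap.norm_snd_le ℝ E E) hh (m - i) X
  exact mul_le_mul (mul_le_mul_of_nonneg_left e1 (by positivity)) e2 (norm_nonneg _)
    (by positivity)

/-- the diagonal -/
def diagL (E : Type*) [NormedAddCommGroup E] [NormedSpace ℝ E] : E →L[ℝ] E × E :=
  (ContinuousLinearMap.id ℝ E).prod (ContinuousLinearMap.id ℝ E)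

lemma norm_diagL_le : ‖diagL E‖ ≤ 1 := by
  apply ContinuousLinearMap.opNorm_le_bound _ zero_le_one
  intro x
  simp [diagL]

lemma iteratedFDeriv_tens_diag {g h : E → ℝ} (hg : ContDiff ℝ ∞ g) (hh : ContDiff ℝ ∞ h)
    (n : ℕ) (S : E × E) (x : E) :
    iteratedFDeriv ℝ n (fun x => tens g h (diagL E x + S)) x =
      (iteratedFDeriv ℝ n (tens g h) (diagL E x + S)).compContinuousLinearMap
        (fun _ => diagL E) := by
  have hG : ContDiff ℝ ∞ (fun X => tens g h (X + S)) :=
    (contDiff_tens hg hh).comp (contDiff_id.add contDiff_const)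
  have h1 := (diagL E).iteratedFDeriv_comp_right hG x (i := n) (by exact_mod_cast le_top)
  have h2 : (fun x => tens g h (diagL E x + S)) = (fun X => tens g h (X + S)) ∘ (diagL E) := rfl
  rw [h2, h1, iteratedFDeriv_comp_add_right]

lemma qker_eq_tens (σ : ℂ →L[ℝ] E) (g h : E → ℝ) (p : ℂ × ℝ) :
    qker σ g h p = fun x =>
      tens g h (diagL E x + (σ (aa p.2 * p.1), σ (bb p.2 * p.1))) -
      tens g h (diagL E x + (σ p.1, 0)) := by
  ext x
  simp [qker, tens, diagL]

lemma contDiff_qker (σ : ℂ →L[ℝ] E) {g h : E → ℝ} (hg : ContDiff ℝ ∞ g) (hh : ContDiff ℝ ∞ h)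
    (p : ℂ × ℝ) : ContDiff ℝ ∞ (qker σ g h p) := by
  unfold qker
  have e : ∀ c : E, ContDiff ℝ ∞ (fun x : E => x + c) := fun c => contDiff_id.add contDiff_const
  exact ((hg.comp (e _)).mul (hh.comp (e _))).sub ((hg.comp (e _)).mul hh)

lemma norm_iteratedFDeriv_qker_le (σ : ℂ →L[ℝ] E) {g h : E → ℝ} (hg : ContDiff ℝ ∞ g)
    (hh : ContDiff ℝ ∞ h) (n : ℕ) (p : ℂ × ℝ) (x : E) :
    ‖iteratedFDeriv ℝ n (qker σ g h p) x‖ ≤
      ‖iteratedFDeriv ℝ n (tens g h) (diagL E x + (σ (aa p.2 * p.1), σ (bb p.2 * p.1))) -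
        iteratedFDeriv ℝ n (tens g h) (diagL E x + (σ p.1, 0))‖ := by
  rw [qker_eq_tens]
  have hG : ∀ S : E × E, ContDiff ℝ ∞ (fun x => tens g h (diagL E x + S)) := fun S =>
    (contDiff_tens hg hh).comp ((diagL E).contDiff.add contDiff_const)
  have h0 : iteratedFDeriv ℝ n (fun x =>
      tens g h (diagL E x + (σ (aa p.2 * p.1), σ (bb p.2 * p.1))) -
      tens g h (diagL E x + (σ p.1, 0))) x =
      iteratedFDeriv ℝ n (fun x =>
      tens g h (diagL E x + (σ (aa p.2 * p.1), σ (bb p.2 * p.1)))) x -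
      iteratedFDeriv ℝ n (fun x => tens g h (diagL E x + (σ p.1, 0))) x := by
    apply iteratedFDeriv_sub_apply
    · exact ((hG _).of_le (by exact_mod_cast le_top)).contDiffAt
    · exact ((hG _).of_le (by exact_mod_cast le_top)).contDiffAt
  rw [h0, iteratedFDeriv_tens_diag hg hh, iteratedFDeriv_tens_diag hg hh]
  set A := iteratedFDeriv ℝ n (tens g h) (diagL E x + (σ (aa p.2 * p.1), σ (bb p.2 * p.1)))
  set B := iteratedFDeriv ℝ n (tens g h) (diagL E x + (σ p.1, 0))
  have h1 : A.compContinuousLinearMap (fun _ => diagL E) -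
      B.compContinuousLinearMap (fun _ => diagL E) =
      (A - B).compContinuousLinearMap (fun _ => diagL E) := by
    ext m; simp
  rw [h1]
  refine (ContinuousMultilinearMap.norm_compContinuousLinearMap_le _ _).trans ?_
  calc _ ≤ ‖A - B‖ * 1 := by
        apply mul_le_mul_of_nonneg_left _ (norm_nonneg _)
        apply Finset.prod_le_one
        · intro j _; exact norm_nonneg _
        · intro j _; exact norm_diagL_le
    _ = _ := mul_one _

/-- constant -/
def CP (P : ℕ) : ℝ := 2 * (3 / 2) ^ (2 * P)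

lemma two_pow_le_CP (P : ℕ) : 2 ^ P ≤ CP P := by
  unfold CP
  rw [pow_mul]
  have : (2 : ℝ) ^ P ≤ ((3 / 2) ^ 2) ^ P := pow_le_pow_left₀ (by norm_num) (by norm_num) P
  have h2 : (0 : ℝ) ≤ ((3 / 2) ^ 2) ^ P := by positivity
  linarith

lemma one_le_CP (P : ℕ) : 1 ≤ CP P := (one_le_pow₀ (by norm_num)).trans (two_pow_le_CP P)

theorem qker_bound {pr : E →L[ℝ] ℂ} {σ : ℂ →L[ℝ] E} (hprσ : ∀ s, pr (σ s) = s) {T : ℝ}
    (hT : ∀ s, ‖σ s‖ ≤ T * ‖s‖) (hT0 : 0 ≤ T) {P : ℕ} {κ : ℝ} (hκ : 0 ≤ κ) (hκ1 : κ ≤ 1)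
    {g h : E → ℝ} (hg : ContDiff ℝ ∞ g) (hh : ContDiff ℝ ∞ h) {A B : ℕ → ℝ}
    (hA : ∀ i x, ‖iteratedFDeriv ℝ i g x‖ ≤ A i * wt P κ (pr x))
    (hB : ∀ i x, ‖iteratedFDeriv ℝ i h x‖ ≤ B i * wt P κ (pr x)) (n : ℕ) (p : ℂ × ℝ) (x : E) :
    ‖iteratedFDeriv ℝ n (qker σ g h p) x‖ ≤
      CP P * (1 + T) * (cs A B n + cs A B (n + 1)) * (wt P κ (pr x) * Psi P (pr x) p) := by
  have hA0 : ∀ i, 0 ≤ A i := fun i => by
    have h1 := (norm_nonneg _).trans (hA i x)
    exact nonneg_of_mul_nonneg_left h1 (wt_pos _ _ _)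
  have hB0 : ∀ i, 0 ≤ B i := fun i => by
    have h1 := (norm_nonneg _).trans (hB i x)
    exact nonneg_of_mul_nonneg_left h1 (wt_pos _ _ _)
  have hG : ∀ m (X : E × E), ‖iteratedFDeriv ℝ m (tens g h) X‖ ≤
      cs A B m * (wt P κ (pr X.1) * wt P κ (pr X.2)) := by
    intro m X
    refine (norm_iteratedFDeriv_tens_le hg hh m X).trans ?_
    unfold cs
    rw [Finset.sum_mul]
    apply Finset.sum_le_sum
    intro i _
    calc (m.choose i : ℝ) * ‖iteratedFDeriv ℝ i g X.1‖ * ‖iteratedFDeriv ℝ (m - i) h X.2‖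
        ≤ (m.choose i : ℝ) * (A i * wt P κ (pr X.1)) * (B (m - i) * wt P κ (pr X.2)) := by
          have := hA0 i
          have := wt_pos P κ (pr X.1)
          apply mul_le_mul _ (hB _ _) (norm_nonneg _) (by positivity)
          exact mul_le_mul_of_nonneg_left (hA _ _) (by positivity)
      _ = _ := by ring
  have hcn := cs_nonneg hA0 hB0 n
  have hcn1 := cs_nonneg hA0 hB0 (n + 1)
  have hCP := one_le_CP P
  have hw := wt_pos P κ (pr x)
  refine (norm_iteratedFDeriv_qker_le σ hg hh n p x).trans ?_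
  obtain ⟨z, θ⟩ := p
  simp only
  by_cases hc : ‖z‖ * |θ| ≤ 1
  · -- near region
    have hbz : ‖bb θ * z‖ ≤ ‖z‖ * |θ| / 2 := by
      rw [norm_mul]
      have := norm_bb_le θ
      nlinarith [norm_nonneg z]
    have hbz2 : ‖bb θ * z‖ ≤ 1 / 2 := by linarith
    have hPsi : Psi P (pr x) (z, θ) = ‖z‖ * |θ| * J P (pr x + z) := by
      unfold Psi; simp only; rw [if_pos hc]
    set S1 : E × E := diagL E x + (σ (aa θ * z), σ (bb θ * z))
    set S0 : E × E := diagL E x + (σ z, 0)
    have hJz := J_pos P (pr x + z)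
    have hseg : ∀ X ∈ segment ℝ S0 S1,
        ‖fderiv ℝ (iteratedFDeriv ℝ n (tens g h)) X‖ ≤
          cs A B (n + 1) * (wt P κ (pr x) * (2 * (3 / 2) ^ (2 * P) * J P (pr x + z))) := by
      intro X hX
      rw [norm_fderiv_iteratedFDeriv]
      refine (hG _ _).trans ?_
      apply mul_le_mul_of_nonneg_left _ hcn1
      rw [segment_eq_image_lineMap] at hX
      obtain ⟨l, ⟨hl0, hl1⟩, rfl⟩ := hX
      have e1 : pr (AffineMap.lineMap S0 S1 l).1 = pr x + (z - l * (bb θ * z)) := by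
        simp only [AffineMap.lineMap_apply, vsub_eq_sub, vadd_eq_add, S1, S0, diagL,
          ContinuousLinearMap.prod_apply, Prod.mk_add_mk, Prod.fst_add, Prod.smul_fst,
          Prod.fst_sub, ContinuousLinearMap.id_apply, map_add, map_smul, map_sub, hprσ]
        have ha : aa θ = 1 - bb θ := by rw [← aa_add_bb θ]; ring
        rw [ha, Complex.real_smul]
        ring
      have e2 : pr (AffineMap.lineMap S0 S1 l).2 = pr x + l * (bb θ * z) := by
        simp only [AffineMap.lineMap_apply, vsub_eq_sub, vadd_eq_add, S1, S0, diagL,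
          ContinuousLinearMap.prod_apply, Prod.mk_add_mk, Prod.snd_add, Prod.smul_snd,
          Prod.snd_sub, ContinuousLinearMap.id_apply, map_add, map_smul, map_sub, hprσ, map_zero]
        rw [Complex.real_smul]
        ring
      rw [e1, e2]
      exact wt_mul_wt_chord_le hκ hκ1 θ l (pr x) z hl0 hl1 hbz2
    have hmv := Convex.norm_image_sub_le_of_norm_fderiv_le (𝕜 := ℝ)
      (f := iteratedFDeriv ℝ n (tens g h)) (s := segment ℝ S0 S1)
      (fun X _ => ((contDiff_tens hg hh).differentiable_iteratedFDeriv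
        (by exact_mod_cast ENat.natCast_lt_top n)) X) hseg (convex_segment _ _)
      (left_mem_segment _ _ _) (right_mem_segment _ _ _)
    refine hmv.trans ?_
    have hS : ‖S1 - S0‖ ≤ T * ‖bb θ * z‖ := by
      have e1 : S1 - S0 = (σ (-(bb θ * z)), σ (bb θ * z)) := by
        simp only [S1, S0, add_sub_add_left_eq_sub]
        ext
        · simp only [Prod.fst_sub]
          rw [← map_sub]
          congr 1
          have ha : aa θ = 1 - bb θ := by rw [← aa_add_bb θ]; ring
          rw [ha]; ring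
        · simp
      rw [e1, Prod.norm_mk]
      apply max_le
      · have := hT (-(bb θ * z)); rwa [norm_neg] at this
      · exact hT _
    calc _ ≤ cs A B (n + 1) * (wt P κ (pr x) * (2 * (3 / 2) ^ (2 * P) * J P (pr x + z))) *
          (T * (‖z‖ * |θ| / 2)) := by
          apply mul_le_mul_of_nonneg_left (hS.trans _) (by positivity)
          exact mul_le_mul_of_nonneg_left hbz hT0
      _ = CP P * (T / 2) * cs A B (n + 1) * (wt P κ (pr x) * Psi P (pr x) (z, θ)) := by
          rw [hPsi]; unfold CP; ring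
      _ ≤ CP P * (1 + T) * (cs A B n + cs A B (n + 1)) * (wt P κ (pr x) * Psi P (pr x) (z, θ)) := by
          have := Psi_nonneg P (pr x) (z, θ)
          gcongr
          · linarith
          · linarith
  · -- far region
    have hPsi : Psi P (pr x) (z, θ) = ‖aa θ‖ ^ P * J P (pr x + aa θ * z) +
        ‖bb θ‖ ^ P * J P (pr x + bb θ * z) + J P (pr x + z) := by
      unfold Psi; simp only; rw [if_neg hc]
    have h1 : ‖iteratedFDeriv ℝ n (tens g h) (diagL E x + (σ (aa θ * z), σ (bb θ * z)))‖ ≤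
        cs A B n * (wt P κ (pr x + aa θ * z) * wt P κ (pr x + bb θ * z)) := by
      have := hG n (diagL E x + (σ (aa θ * z), σ (bb θ * z)))
      have e1 : pr (diagL E x + (σ (aa θ * z), σ (bb θ * z))).1 = pr x + aa θ * z := by
        simp [diagL, hprσ]
      have e2 : pr (diagL E x + (σ (aa θ * z), σ (bb θ * z))).2 = pr x + bb θ * z := by
        simp [diagL, hprσ]
      rwa [e1, e2] at this
    have h2 : ‖iteratedFDeriv ℝ n (tens g h) (diagL E x + (σ z, 0))‖ ≤
        cs A B n * (wt P κ (pr x + z) * wt P κ (pr x)) := by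
      have := hG n (diagL E x + (σ z, 0))
      have e1 : pr (diagL E x + (σ z, 0)).1 = pr x + z := by
        simp [diagL, hprσ]
      have e2 : pr (diagL E x + (σ z, 0)).2 = pr x := by
        simp [diagL]
      rwa [e1, e2] at this
    have h3 := wt_mul_wt_le hκ (P := P) θ (pr x) z
    have h4 : wt P κ (pr x + z) ≤ J P (pr x + z) := wt_le_J hκ _
    have hJ1 := J_nonneg P (pr x + aa θ * z)
    have hJ2 := J_nonneg P (pr x + bb θ * z)
    have hJ3 := J_nonneg P (pr x + z)
    have h2P := two_pow_le_CP P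
    refine (norm_sub_le _ _).trans ?_
    refine (add_le_add h1 h2).trans ?_
    calc _ ≤ cs A B n * (wt P κ (pr x) * (2 ^ P * (‖aa θ‖ ^ P * J P (pr x + aa θ * z) +
            ‖bb θ‖ ^ P * J P (pr x + bb θ * z)))) + cs A B n * (J P (pr x + z) * wt P κ (pr x)) := by
          gcongr
      _ ≤ cs A B n * (wt P κ (pr x) * (CP P * (‖aa θ‖ ^ P * J P (pr x + aa θ * z) +
            ‖bb θ‖ ^ P * J P (pr x + bb θ * z)))) +
            cs A B n * (CP P * J P (pr x + z) * wt P κ (pr x)) := by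
          gcongr
          nlinarith
      _ = CP P * 1 * cs A B n * (wt P κ (pr x) * Psi P (pr x) (z, θ)) := by
          rw [hPsi]; ring
      _ ≤ _ := by
          have := Psi_nonneg P (pr x) (z, θ)
          gcongr
          · linarith
          · linarith

end Pool.MP08d8de
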