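import Pool.Agent.MP_08d8de_an.QEst

/-! The collision operator on time-dependent families. -/

open MeasureTheory Set Filter Topology
open scoped Real ENNReal ContDiff

noncomputable section

namespace Pool.MP08d8de

variable {E : Type*} [NormedAddCommGroup E] [NormedSpace ℝ E]

/-- The collision operator for the shift `σ`. -/
def QQ (ν : Measure (ℂ × ℝ)) (σ : ℂ →L[ℝ] E) (g h : E → ℝ) (x : E) : ℝ := ∫ p, qker σ g h p x ∂ν

/-- Kernel bound. -/
def KB (ν : Measure (ℂ × ℝ)) (P : ℕ) (K : ℝ) : Prop :=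
  0 ≤ K ∧ ∀ v, Integrable (Psi P v) ν ∧ ∫ p, Psi P v p ∂ν ≤ K

lemma exists_KB {s : ℝ} (hs0 : 0 < s) (hs1 : s < 1 / 2) {P : ℕ} (hP : 3 ≤ P) :
    ∃ K, KB (muK s) P K := by
  obtain ⟨C, hC0, hC⟩ := lint_Psi hs0 hs1 hP
  refine ⟨C, hC0, fun v => ?_⟩
  have hm := (measurable_Psi P v).aestronglyMeasurable (μ := muK s)
  have hI : Integrable (Psi P v) (muK s) := by
    refine ⟨hm, ?_⟩
    rw [hasFiniteIntegral_iff_ofReal (Eventually.of_forall fun p => Psi_nonneg P v p)]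
    exact (hC v).trans_lt ENNReal.ofReal_lt_top
  refine ⟨hI, ?_⟩
  rw [integral_eq_lintegral_of_nonneg_ae (Eventually.of_forall fun p => Psi_nonneg P v p) hm]
  exact ENNReal.toReal_le_of_le_ofReal hC0 (hC v)

/-- `ν` is dominated by a multiple of the model collision measure. -/
def DomM (s : ℝ) (ν : Measure (ℂ × ℝ)) : Prop :=
  ∃ c : ℝ, 0 ≤ c ∧ ν ≤ ENNReal.ofReal c • muK s

lemma DomM.integral_le {s : ℝ} {ν : Measure (ℂ × ℝ)} {c : ℝ} (hc : 0 ≤ c)
    (hν : ν ≤ ENNReal.ofReal c • muK s) {f : ℂ × ℝ → ℝ} (hf : ∀ p, 0 ≤ f p)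
    (hi : Integrable f (muK s)) : Integrable f ν ∧ ∫ p, f p ∂ν ≤ c * ∫ p, f p ∂(muK s) := by
  have h1 : Integrable f (ENNReal.ofReal c • muK s) := hi.smul_measure ENNReal.ofReal_ne_top
  refine ⟨h1.mono_measure hν, ?_⟩
  refine (integral_mono_measure hν (Eventually.of_forall hf) h1).trans (le_of_eq ?_)
  rw [integral_smul_measure, ENNReal.toReal_ofReal hc]
  rfl

lemma DomM.exists_KB {s : ℝ} (hs0 : 0 < s) (hs1 : s < 1 / 2) {ν : Measure (ℂ × ℝ)}
    (hν : DomM s ν) {P : ℕ} (hP : 3 ≤ P) : ∃ K, KB ν P K := by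
  obtain ⟨c, hc, hν⟩ := hν
  obtain ⟨K, hK0, hK⟩ := Pool.MP08d8de.exists_KB hs0 hs1 hP
  refine ⟨c * K, by positivity, fun v => ?_⟩
  obtain ⟨h1, h2⟩ := DomM.integral_le hc hν (Psi_nonneg P v) (hK v).1
  exact ⟨h1, h2.trans (mul_le_mul_of_nonneg_left (hK v).2 hc)⟩

/-! ### Joint continuity of tensor products -/

variable {𝒯 : Type*} [TopologicalSpace 𝒯]

/-- joint continuity of all `x`-derivatives -/
def JC (g : 𝒯 → E → ℝ) : Prop :=
  ∀ n, Continuous fun q : 𝒯 × E => iteratedFDeriv ℝ n (g q.1) q.2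

lemma JC.continuous {g : 𝒯 → E → ℝ} (hg : JC g) : Continuous fun q : 𝒯 × E => g q.1 q.2 := by
  have h3 : (fun q : 𝒯 × E => g q.1 q.2) = fun q => (continuousMultilinearCurryFin0 ℝ E ℝ)
      (iteratedFDeriv ℝ 0 (g q.1) q.2) := by
    ext ζ; simp
  rw [h3]
  exact (LinearIsometryEquiv.continuous _).comp (hg 0)

lemma tens_tendsto_zero {g h : 𝒯 → E → ℝ} (hgs : ∀ t, ContDiff ℝ ∞ (g t))
    (hhs : ∀ t, ContDiff ℝ ∞ (h t)) (n : ℕ) (q0 : 𝒯 × (E × E)) {M : ℕ → ℝ} {N : ℕ → ℝ}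
    (hg : ∀ i, Tendsto (fun q : 𝒯 × (E × E) => ‖iteratedFDeriv ℝ i (g q.1) q.2.1‖) (𝓝 q0)
      (𝓝 (M i)))
    (hh : ∀ i, Tendsto (fun q : 𝒯 × (E × E) => ‖iteratedFDeriv ℝ i (h q.1) q.2.2‖) (𝓝 q0)
      (𝓝 (N i))) (hMN : ∀ i j, M i * N j = 0) :
    Tendsto (fun q : 𝒯 × (E × E) => iteratedFDeriv ℝ n (tens (g q.1) (h q.1)) q.2) (𝓝 q0)
      (𝓝 0) := by
  rw [tendsto_zero_iff_norm_tendsto_zero]
  have h1 : Tendsto (fun q : 𝒯 × (E × E) => ∑ i ∈ Finset.range (n + 1), (n.choose i : ℝ) *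
      ‖iteratedFDeriv ℝ i (g q.1) q.2.1‖ * ‖iteratedFDeriv ℝ (n - i) (h q.1) q.2.2‖) (𝓝 q0)
      (𝓝 (∑ i ∈ Finset.range (n + 1), (n.choose i : ℝ) * M i * N (n - i))) := by
    apply tendsto_finsetSum
    intro i _
    exact (tendsto_const_nhds.mul (hg i)).mul (hh (n - i))
  have h2 : ∑ i ∈ Finset.range (n + 1), (n.choose i : ℝ) * M i * N (n - i) = 0 := by
    apply Finset.sum_eq_zero
    intro i _
    rw [mul_assoc, hMN, mul_zero]
  rw [h2] at h1
  exact squeeze_zero (fun _ => norm_nonneg _)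
    (fun q => norm_iteratedFDeriv_tens_le (hgs _) (hhs _) n q.2) h1

lemma JC_tens {g h : 𝒯 → E → ℝ} (hgs : ∀ t, ContDiff ℝ ∞ (g t))
    (hhs : ∀ t, ContDiff ℝ ∞ (h t)) (hg : JC g) (hh : JC h) :
    JC (fun t => tens (g t) (h t)) := by
  intro n
  rw [continuous_iff_continuousAt]
  intro q0
  obtain ⟨t0, X0⟩ := q0
  have hsub : ∀ t, ContDiff ℝ ∞ (g t - g t0) := fun t => (hgs t).sub (hgs t0)
  have hsub' : ∀ t, ContDiff ℝ ∞ (h t - h t0) := fun t => (hhs t).sub (hhs t0)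
  have key : ∀ q : 𝒯 × (E × E), iteratedFDeriv ℝ n (tens (g q.1) (h q.1)) q.2 =
      iteratedFDeriv ℝ n (tens (g q.1 - g t0) (h q.1)) q.2 +
      iteratedFDeriv ℝ n (tens (g t0) (h q.1 - h t0)) q.2 +
      iteratedFDeriv ℝ n (tens (g t0) (h t0)) q.2 := by
    intro q
    have c : ∀ {f : E × E → ℝ}, ContDiff ℝ ∞ f → ContDiffAt ℝ n f q.2 := fun hf =>
      (hf.of_le (by exact_mod_cast le_top)).contDiffAt
    have h1 := contDiff_tens (hsub q.1) (hhs q.1)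
    have h2 := contDiff_tens (hgs t0) (hsub' q.1)
    have h3 := contDiff_tens (hgs t0) (hhs t0)
    have h12 : ContDiff ℝ ∞ (tens (g q.1 - g t0) (h q.1) + tens (g t0) (h q.1 - h t0)) :=
      h1.add h2
    rw [← iteratedFDeriv_add_apply (c h1) (c h2), ← iteratedFDeriv_add_apply (c h12) (c h3)]
    congr 1
    ext X
    simp [tens]
    ring
  have hgc : ∀ i, Tendsto (fun q : 𝒯 × (E × E) => iteratedFDeriv ℝ i (g q.1) q.2.1)
      (𝓝 (t0, X0)) (𝓝 (iteratedFDeriv ℝ i (g t0) X0.1)) := by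
    intro i
    have h1 : Continuous (fun q : 𝒯 × (E × E) => (q.1, q.2.1)) := by fun_prop
    exact ((hg i).comp h1).tendsto (t0, X0)
  have hgc0 : ∀ i, Tendsto (fun q : 𝒯 × (E × E) => iteratedFDeriv ℝ i (g t0) q.2.1)
      (𝓝 (t0, X0)) (𝓝 (iteratedFDeriv ℝ i (g t0) X0.1)) := by
    intro i
    have h1 : Continuous (fun q : 𝒯 × (E × E) => (t0, q.2.1)) := by fun_prop
    exact ((hg i).comp h1).tendsto (t0, X0)
  have hhc : ∀ i, Tendsto (fun q : 𝒯 × (E × E) => iteratedFDeriv ℝ i (h q.1) q.2.2)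
      (𝓝 (t0, X0)) (𝓝 (iteratedFDeriv ℝ i (h t0) X0.2)) := by
    intro i
    have h1 : Continuous (fun q : 𝒯 × (E × E) => (q.1, q.2.2)) := by fun_prop
    exact ((hh i).comp h1).tendsto (t0, X0)
  have hhc0 : ∀ i, Tendsto (fun q : 𝒯 × (E × E) => iteratedFDeriv ℝ i (h t0) q.2.2)
      (𝓝 (t0, X0)) (𝓝 (iteratedFDeriv ℝ i (h t0) X0.2)) := by
    intro i
    have h1 : Continuous (fun q : 𝒯 × (E × E) => (t0, q.2.2)) := by fun_prop
    exact ((hh i).comp h1).tendsto (t0, X0)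
  have hdg : ∀ i, Tendsto (fun q : 𝒯 × (E × E) => ‖iteratedFDeriv ℝ i (g q.1 - g t0) q.2.1‖)
      (𝓝 (t0, X0)) (𝓝 0) := by
    intro i
    have h1 := (hgc i).sub (hgc0 i)
    rw [sub_self] at h1
    have h2 := h1.norm
    rw [norm_zero] at h2
    refine h2.congr fun q => ?_
    rw [iteratedFDeriv_sub_apply (((hgs _).of_le (by exact_mod_cast le_top)).contDiffAt)
      (((hgs _).of_le (by exact_mod_cast le_top)).contDiffAt)]
  have hdh : ∀ i, Tendsto (fun q : 𝒯 × (E × E) => ‖iteratedFDeriv ℝ i (h q.1 - h t0) q.2.2‖)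
      (𝓝 (t0, X0)) (𝓝 0) := by
    intro i
    have h1 := (hhc i).sub (hhc0 i)
    rw [sub_self] at h1
    have h2 := h1.norm
    rw [norm_zero] at h2
    refine h2.congr fun q => ?_
    rw [iteratedFDeriv_sub_apply (((hhs _).of_le (by exact_mod_cast le_top)).contDiffAt)
      (((hhs _).of_le (by exact_mod_cast le_top)).contDiffAt)]
  have hA := tens_tendsto_zero (g := fun t => g t - g t0) (h := h) hsub hhs n (t0, X0)
    (M := fun _ => 0) (N := fun i => ‖iteratedFDeriv ℝ i (h t0) X0.2‖) hdg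
    (fun i => (hhc i).norm) (fun i j => by simp)
  have hB := tens_tendsto_zero (g := fun _ => g t0) (h := fun t => h t - h t0) (fun _ => hgs t0)
    hsub' n (t0, X0)
    (M := fun i => ‖iteratedFDeriv ℝ i (g t0) X0.1‖) (N := fun _ => 0) (fun i => (hgc0 i).norm)
    hdh (fun i j => by simp)
  have hC : Tendsto (fun q : 𝒯 × (E × E) => iteratedFDeriv ℝ n (tens (g t0) (h t0)) q.2)
      (𝓝 (t0, X0)) (𝓝 (iteratedFDeriv ℝ n (tens (g t0) (h t0)) X0)) := by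
    have h1 : Continuous (iteratedFDeriv ℝ n (tens (g t0) (h t0))) :=
      (contDiff_tens (hgs t0) (hhs t0)).continuous_iteratedFDeriv (by exact_mod_cast le_top)
    exact (h1.comp continuous_snd).tendsto (t0, X0)
  have := (hA.add hB).add hC
  rw [zero_add, zero_add] at this
  exact this.congr fun q => (key q).symm

/-- Exact formula for the derivatives of the integrand. -/
lemma iteratedFDeriv_qker (σ : ℂ →L[ℝ] E) {g h : E → ℝ} (hg : ContDiff ℝ ∞ g)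
    (hh : ContDiff ℝ ∞ h) (n : ℕ) (p : ℂ × ℝ) (x : E) :
    iteratedFDeriv ℝ n (qker σ g h p) x =
      (iteratedFDeriv ℝ n (tens g h) (diagL E x + (σ (aa p.2 * p.1), σ (bb p.2 * p.1))) -
        iteratedFDeriv ℝ n (tens g h) (diagL E x + (σ p.1, 0))).compContinuousLinearMap
          (fun _ => diagL E) := by
  rw [qker_eq_tens]
  have hG : ∀ S : E × E, ContDiff ℝ ∞ (fun x => tens g h (diagL E x + S)) := fun S =>
    (contDiff_tens hg hh).comp ((diagL E).contDiff.add contDiff_const)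
  have h0 : iteratedFDeriv ℝ n (fun x =>
      tens g h (diagL E x + (σ (aa p.2 * p.1), σ (bb p.2 * p.1))) -
      tens g h (diagL E x + (σ p.1, 0))) x =
      iteratedFDeriv ℝ n (fun x =>
      tens g h (diagL E x + (σ (aa p.2 * p.1), σ (bb p.2 * p.1)))) x -
      iteratedFDeriv ℝ n (fun x => tens g h (diagL E x + (σ p.1, 0))) x := by
    apply iteratedFDeriv_sub_apply
    · exact ((hG _).of_le (by exact_mod_cast le_top)).contDiffAt
    · exact ((hG _).of_le (by exact_mod_cast le_top)).contDiffAt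
  rw [h0, iteratedFDeriv_tens_diag hg hh, iteratedFDeriv_tens_diag hg hh]
  ext m; simp

lemma continuous_iteratedFDeriv_qker {σ : 𝒯 → ℂ →L[ℝ] E} (hσ : Continuous σ)
    {g h : 𝒯 → E → ℝ} (hgs : ∀ t, ContDiff ℝ ∞ (g t))
    (hhs : ∀ t, ContDiff ℝ ∞ (h t)) (hg : JC g) (hh : JC h) (n : ℕ) :
    Continuous fun q : 𝒯 × (ℂ × ℝ) × E =>
      iteratedFDeriv ℝ n (qker (σ q.1) (g q.1) (h q.1) q.2.1) q.2.2 := by
  have h1 : (fun q : 𝒯 × (ℂ × ℝ) × E =>
      iteratedFDeriv ℝ n (qker (σ q.1) (g q.1) (h q.1) q.2.1) q.2.2) = fun q =>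
      (ContinuousMultilinearMap.compContinuousLinearMapL (fun _ : Fin n => diagL E) (F := ℝ))
      (iteratedFDeriv ℝ n (tens (g q.1) (h q.1)) (diagL E q.2.2 +
        (σ q.1 (aa q.2.1.2 * q.2.1.1), σ q.1 (bb q.2.1.2 * q.2.1.1))) -
        iteratedFDeriv ℝ n (tens (g q.1) (h q.1)) (diagL E q.2.2 + (σ q.1 q.2.1.1, 0))) := by
    ext1 q
    rw [iteratedFDeriv_qker _ (hgs _) (hhs _)]
    rfl
  rw [h1]
  have hJ := JC_tens hgs hhs hg hh n
  have ha := continuous_aa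
  have hb := continuous_bb
  apply (ContinuousLinearMap.continuous _).comp
  apply Continuous.sub
  · have h2 : Continuous fun q : 𝒯 × (ℂ × ℝ) × E => (q.1, diagL E q.2.2 +
        (σ q.1 (aa q.2.1.2 * q.2.1.1), σ q.1 (bb q.2.1.2 * q.2.1.1))) := by fun_prop
    exact hJ.comp h2
  · have h2 : Continuous fun q : 𝒯 × (ℂ × ℝ) × E => (q.1, diagL E q.2.2 +
        (σ q.1 q.2.1.1, (0 : E))) := by fun_prop
    exact hJ.comp h2

end Pool.MP08d8de
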