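import Pool.Agent.MP_08d8de_an.QFam

/-! The collision operator on time-dependent families, continued. -/

open MeasureTheory Set Filter Topology
open scoped Real ENNReal ContDiff

noncomputable section

namespace Pool.MP08d8de

variable {E : Type*} [NormedAddCommGroup E] [NormedSpace ℝ E]
variable {𝒯 : Type*} [TopologicalSpace 𝒯]

/-- A family of smooth functions with weighted bounds. -/
structure Fam (pr : E →L[ℝ] ℂ) (P : ℕ) (κ : ℝ) (A : 𝒯 → ℕ → ℝ) (g : 𝒯 → E → ℝ) : Prop where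
  smooth : ∀ t, ContDiff ℝ ∞ (g t)
  cont : JC g
  bound : ∀ t n x, ‖iteratedFDeriv ℝ n (g t) x‖ ≤ A t n * wt P κ (pr x)

/-- local boundedness in time -/
def LocBdd (A : 𝒯 → ℕ → ℝ) : Prop := ∀ n t0, ∃ C, ∀ᶠ t in 𝓝 t0, A t n ≤ C

variable {pr : E →L[ℝ] ℂ} {P : ℕ} {κ : ℝ} {A B : 𝒯 → ℕ → ℝ} {g h : 𝒯 → E → ℝ}

lemma Fam.nonneg (hg : Fam pr P κ A g) (t : 𝒯) (n : ℕ) : 0 ≤ A t n := by
  have h1 := (norm_nonneg _).trans (hg.bound t n 0)
  exact nonneg_of_mul_nonneg_left h1 (wt_pos _ _ _)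

lemma LocBdd.cs (hA0 : ∀ t n, 0 ≤ A t n) (hB0 : ∀ t n, 0 ≤ B t n)
    (hA : LocBdd A) (hB : LocBdd B) : LocBdd (fun t n => Pool.MP08d8de.cs (A t) (B t) n) := by
  intro n t0
  choose C hC using fun i => hA i t0
  choose D hD using fun i => hB i t0
  refine ⟨∑ i ∈ Finset.range (n + 1), (n.choose i : ℝ) * C i * D (n - i), ?_⟩
  have h1 : ∀ᶠ t in 𝓝 t0, ∀ i ∈ Finset.range (n + 1), A t i ≤ C i ∧ B t (n - i) ≤ D (n - i) := by
    rw [Filter.eventually_all_finset]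
    intro i _
    exact (hC i).and (hD (n - i))
  filter_upwards [h1] with t ht
  unfold Pool.MP08d8de.cs
  apply Finset.sum_le_sum
  intro i hi
  obtain ⟨a, b⟩ := ht i hi
  have := hA0 t i
  have := hB0 t (n - i)
  have := (hA0 t i).trans a
  gcongr

/-- Local domination of the integrand. -/
lemma Fam.local_bound {σ : 𝒯 → ℂ →L[ℝ] E} (hσc : Continuous σ)
    (hπσ : ∀ t s, pr (σ t s) = s) (hκ : 0 ≤ κ) (hκ1 : κ ≤ 1)
    (hg : Fam pr P κ A g) (hh : Fam pr P κ B h) (hA : LocBdd A) (hB : LocBdd B)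
    (n : ℕ) (t0 : 𝒯) (x0 : E) :
    ∃ C, 0 ≤ C ∧ ∀ᶠ q : 𝒯 × E in 𝓝 (t0, x0), ∀ p,
      ‖iteratedFDeriv ℝ n (qker (σ q.1) (g q.1) (h q.1) p) q.2‖ ≤ C * Psi P (pr x0) p := by
  have hcs := LocBdd.cs hg.nonneg hh.nonneg hA hB
  obtain ⟨C1, hC1⟩ := hcs n t0
  obtain ⟨C2, hC2⟩ := hcs (n + 1) t0
  have hT : ∀ᶠ t in 𝓝 t0, ‖σ t‖ < ‖σ t0‖ + 1 :=
    (hσc.norm.tendsto t0).eventually_lt_const (lt_add_one _)
  have hx : ∀ᶠ x in 𝓝 x0, ‖pr x0 - pr x‖ < 1 := by
    have h1 : Continuous fun x => ‖pr x0 - pr x‖ := by fun_prop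
    have h2 := h1.tendsto x0
    rw [sub_self, norm_zero] at h2
    exact h2.eventually_lt_const one_pos
  refine ⟨CP P * (1 + (‖σ t0‖ + 1)) * (|C1| + |C2|) * 2 ^ P, ?_, ?_⟩
  · have := one_le_CP P
    positivity
  rw [nhds_prod_eq]
  filter_upwards [(hC1.and (hC2.and hT)).prod_mk hx] with q hq p
  obtain ⟨⟨h1, h2, h3⟩, h4⟩ := hq
  have hb := qker_bound (hπσ q.1) (fun s => (σ q.1).le_opNorm s) (norm_nonneg _) hκ hκ1
    (hg.smooth q.1) (hh.smooth q.1) (hg.bound q.1) (hh.bound q.1) n p q.2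
  refine hb.trans ?_
  have hw1 := wt_le_one (P := P) hκ (pr q.2)
  have hw0 := wt_pos P κ (pr q.2)
  have hPs := Psi_nonneg P (pr q.2) p
  have hPs0 := Psi_nonneg P (pr x0) p
  have hPsi := Psi_le_of_dist (P := P) (v := pr q.2) (v' := pr x0) h4.le p
  have hCP := one_le_CP P
  have c1 := cs_nonneg (hg.nonneg q.1) (hh.nonneg q.1) n
  have c2 := cs_nonneg (hg.nonneg q.1) (hh.nonneg q.1) (n + 1)
  calc _ ≤ CP P * (1 + (‖σ t0‖ + 1)) * (|C1| + |C2|) * (1 * (2 ^ P * Psi P (pr x0) p)) := by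
        gcongr
        · exact h1.trans (le_abs_self _)
        · exact h2.trans (le_abs_self _)
    _ = _ := by ring

lemma Fam.domInt {ν : Measure (ℂ × ℝ)} {K : ℝ} (hK : KB ν P K) {σ : 𝒯 → ℂ →L[ℝ] E} (hσc : Continuous σ)
    (hπσ : ∀ t s, pr (σ t s) = s) (hκ : 0 ≤ κ) (hκ1 : κ ≤ 1)
    (hg : Fam pr P κ A g) (hh : Fam pr P κ B h) (hA : LocBdd A) (hB : LocBdd B) (t : 𝒯) :
    DomInt ν (fun p x => qker (σ t) (g t) (h t) p x) where
  smooth := fun p => contDiff_qker _ (hg.smooth t) (hh.smooth t) p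
  meas := by
    intro n x
    have h1 := continuous_iteratedFDeriv_qker hσc hg.smooth hh.smooth hg.cont hh.cont n
    have h2 : Continuous fun p : ℂ × ℝ => (t, p, x) := by fun_prop
    exact (h1.comp h2).aestronglyMeasurable
  dom := by
    intro n x0
    obtain ⟨C, hC0, hC⟩ := hg.local_bound hσc hπσ hκ hκ1 hh hA hB n t x0
    have h1 : ∀ᶠ x in 𝓝 x0, ∀ p,
      ‖iteratedFDeriv ℝ n (qker (σ t) (g t) (h t) p) x‖ ≤ C * Psi P (pr x0) p := by
      have h2 : Continuous fun x : E => (t, x) := by fun_prop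
      exact (h2.tendsto x0).eventually hC
    obtain ⟨r, hr, hr2⟩ := Metric.eventually_nhds_iff_ball.1 h1
    exact ⟨r, hr, fun p => C * Psi P (pr x0) p, ((hK.2 (pr x0)).1.const_mul C),
      Eventually.of_forall fun p x hx => hr2 x hx p⟩

/-- **Bilinear estimate** for the collision operator on families. -/
theorem Fam.QQ [FirstCountableTopology 𝒯] {ν : Measure (ℂ × ℝ)} {K : ℝ} (hK : KB ν P K) {σ : 𝒯 → ℂ →L[ℝ] E}
    (hσc : Continuous σ) (hπσ : ∀ t s, pr (σ t s) = s) (hκ : 0 ≤ κ) (hκ1 : κ ≤ 1)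
    (hg : Fam pr P κ A g) (hh : Fam pr P κ B h) (hA : LocBdd A) (hB : LocBdd B) :
    Fam pr P κ (fun t n => CP P * (1 + ‖σ t‖) * K *
      (Pool.MP08d8de.cs (A t) (B t) n + Pool.MP08d8de.cs (A t) (B t) (n + 1)))
      (fun t => Pool.MP08d8de.QQ ν (σ t) (g t) (h t)) where
  smooth := fun t => (hg.domInt hK hσc hπσ hκ hκ1 hh hA hB t).contDiff
  cont := by
    intro n
    have h0 : (fun q : 𝒯 × E => iteratedFDeriv ℝ n (Pool.MP08d8de.QQ ν (σ q.1) (g q.1) (h q.1)) q.2)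
        = fun q : 𝒯 × E => ∫ p, iteratedFDeriv ℝ n (qker (σ q.1) (g q.1) (h q.1) p) q.2
          ∂ν := by
      ext1 q
      have := (hg.domInt hK hσc hπσ hκ hκ1 hh hA hB q.1).iteratedFDeriv_eq n
      exact congrFun this q.2
    rw [h0, continuous_iff_continuousAt]
    rintro ⟨t0, x0⟩
    obtain ⟨C, hC0, hC⟩ := hg.local_bound hσc hπσ hκ hκ1 hh hA hB n t0 x0
    have hc := continuous_iteratedFDeriv_qker hσc hg.smooth hh.smooth hg.cont hh.cont n
    apply continuousAt_of_dominated (bound := fun p => C * Psi P (pr x0) p)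
    · refine Eventually.of_forall fun q => ?_
      have h2 : Continuous fun p : ℂ × ℝ => (q.1, p, q.2) := by fun_prop
      exact (hc.comp h2).aestronglyMeasurable
    · filter_upwards [hC] with q hq
      exact Eventually.of_forall hq
    · exact (hK.2 (pr x0)).1.const_mul C
    · refine Eventually.of_forall fun p => ?_
      have h2 : Continuous fun q : 𝒯 × E => (q.1, p, q.2) := by fun_prop
      exact (hc.comp h2).continuousAt
  bound := by
    intro t n x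
    have h0 := congrFun ((hg.domInt hK hσc hπσ hκ hκ1 hh hA hB t).iteratedFDeriv_eq n) x
    have h1 : iteratedFDeriv ℝ n (Pool.MP08d8de.QQ ν (σ t) (g t) (h t)) x =
        ∫ p, iteratedFDeriv ℝ n (qker (σ t) (g t) (h t) p) x ∂ν := h0
    rw [h1]
    have hcs1 := cs_nonneg (hg.nonneg t) (hh.nonneg t) n
    have hcs2 := cs_nonneg (hg.nonneg t) (hh.nonneg t) (n + 1)
    have hCP := one_le_CP P
    have hw := wt_pos P κ (pr x)
    calc _ ≤ ∫ p, CP P * (1 + ‖σ t‖) *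
          (Pool.MP08d8de.cs (A t) (B t) n + Pool.MP08d8de.cs (A t) (B t) (n + 1)) *
          wt P κ (pr x) * Psi P (pr x) p ∂ν := by
          apply norm_integral_le_of_norm_le ((hK.2 (pr x)).1.const_mul _)
          refine Eventually.of_forall fun p => ?_
          refine (qker_bound (hπσ t) (fun s => (σ t).le_opNorm s) (norm_nonneg _) hκ hκ1
            (hg.smooth t) (hh.smooth t) (hg.bound t) (hh.bound t) n p x).trans ?_
          apply le_of_eq; ring
      _ = CP P * (1 + ‖σ t‖) *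
          (Pool.MP08d8de.cs (A t) (B t) n + Pool.MP08d8de.cs (A t) (B t) (n + 1)) *
          wt P κ (pr x) * ∫ p, Psi P (pr x) p ∂ν := by rw [integral_const_mul]
      _ ≤ CP P * (1 + ‖σ t‖) *
          (Pool.MP08d8de.cs (A t) (B t) n + Pool.MP08d8de.cs (A t) (B t) (n + 1)) *
          wt P κ (pr x) * K := by
          apply mul_le_mul_of_nonneg_left (hK.2 (pr x)).2
          positivity
      _ = _ := by ring

end Pool.MP08d8de
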