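import Pool.Agent.MP_08d8de_an.Picard

/-! Joint smoothness: the class of rapidly decaying families. -/

open MeasureTheory Set Filter Topology
open scoped Real ENNReal ContDiff Nat

noncomputable section

namespace Pool.MP08d8de

section direction

variable {E : Type*} [NormedAddCommGroup E] [NormedSpace ℝ E]

/-- the linear map taking `D^{n+1} f(x)` to `D^n (∂_e f)(x)` -/
def DeL (n : ℕ) (e : E) : (ContinuousMultilinearMap ℝ (fun _ : Fin (n + 1) => E) ℝ) →L[ℝ]
    (ContinuousMultilinearMap ℝ (fun _ : Fin n => E) ℝ) :=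
  (ContinuousLinearMap.compContinuousMultilinearMapL ℝ (fun _ : Fin n => E) (E →L[ℝ] ℝ) ℝ
    (ContinuousLinearMap.apply ℝ ℝ e)).comp
    (continuousMultilinearCurryRightEquiv' ℝ n E ℝ).toContinuousLinearEquiv.toContinuousLinearMap

lemma iteratedFDeriv_dir {f : E → ℝ} (hf : ContDiff ℝ ∞ f) (n : ℕ) (e x : E) :
    iteratedFDeriv ℝ n (fun y => fderiv ℝ f y e) x = DeL n e (iteratedFDeriv ℝ (n + 1) f x) := by
  have h1 : ContDiff ℝ ∞ (fderiv ℝ f) := hf.fderiv_right (by simp)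
  have h2 := (ContinuousLinearMap.apply ℝ ℝ e).iteratedFDeriv_comp_left
    (f := fderiv ℝ f) (i := n) h1.contDiffAt (x := x) (by exact_mod_cast le_top)
  have h3 : (⇑(ContinuousLinearMap.apply ℝ ℝ e) ∘ fderiv ℝ f) = fun y => fderiv ℝ f y e := rfl
  rw [h3] at h2
  rw [h2, iteratedFDeriv_succ_eq_comp_right]
  ext m
  simp [DeL]

end direction


/-- Families that decay rapidly in `v`, with all their `x`-derivatives, locally uniformly in
time. -/
def Cls (F : ℝ → ℝ × ℂ → ℝ) : Prop :=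
  ∀ P : ℕ, ∃ A : ℝ → ℕ → ℝ, LocBdd A ∧ Fam pr2 P 0 A F

variable {F G : ℝ → ℝ × ℂ → ℝ}

lemma Cls.smooth (hF : Cls F) (t : ℝ) : ContDiff ℝ ∞ (F t) := by
  obtain ⟨A, _, h⟩ := hF 0
  exact h.smooth t

lemma Cls.jc (hF : Cls F) : JC F := by
  obtain ⟨A, _, h⟩ := hF 0
  exact h.cont

lemma LocBdd.add' {A B : ℝ → ℕ → ℝ} (hA : LocBdd A) (hB : LocBdd B) :
    LocBdd (fun t n => A t n + B t n) := by
  intro n t0
  obtain ⟨C, hC⟩ := hA n t0
  obtain ⟨D, hD⟩ := hB n t0
  refine ⟨C + D, ?_⟩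
  filter_upwards [hC, hD] with t h1 h2
  linarith

lemma LocBdd.mul_continuous {A : ℝ → ℕ → ℝ} (hA : LocBdd A) (hA0 : ∀ t n, 0 ≤ A t n) {c : ℝ → ℝ}
    (hc : Continuous c) : LocBdd (fun t n => |c t| * A t n) := by
  intro n t0
  obtain ⟨C, hC⟩ := hA n t0
  refine ⟨(|c t0| + 1) * C, ?_⟩
  have h1 : ∀ᶠ t in 𝓝 t0, |c t| < |c t0| + 1 :=
    (hc.abs.tendsto t0).eventually_lt_const (lt_add_one _)
  filter_upwards [hC, h1] with t h1 h2
  have := hA0 t n
  have := abs_nonneg (c t)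
  gcongr

lemma Cls.add (hF : Cls F) (hG : Cls G) : Cls (fun t x => F t x + G t x) := by
  intro P
  obtain ⟨A, hA, hFA⟩ := hF P
  obtain ⟨B, hB, hGB⟩ := hG P
  exact ⟨_, hA.add' hB, hFA.add hGB⟩

lemma Cls.smul (hF : Cls F) {c : ℝ → ℝ} (hc : Continuous c) : Cls (fun t x => c t * F t x) := by
  intro P
  obtain ⟨A, hA, hFA⟩ := hF P
  exact ⟨_, hA.mul_continuous hFA.nonneg hc, hFA.smul hc⟩

lemma Cls.dir (hF : Cls F) (e : ℝ × ℂ) : Cls (fun t x => fderiv ℝ (F t) x e) := by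
  intro P
  obtain ⟨A, hA, hFA⟩ := hF P
  refine ⟨fun t n => ‖DeL (E := ℝ × ℂ) n e‖ * A t (n + 1), ?_, ?_, ?_, ?_⟩
  · intro n t0
    obtain ⟨C, hC⟩ := hA (n + 1) t0
    refine ⟨‖DeL (E := ℝ × ℂ) n e‖ * C, ?_⟩
    filter_upwards [hC] with t ht
    gcongr
  · intro t
    have h1 : ContDiff ℝ ∞ (fderiv ℝ (F t)) := (hF.smooth t).fderiv_right (by simp)
    exact h1.clm_apply contDiff_const
  · intro n
    have : (fun q : ℝ × (ℝ × ℂ) => iteratedFDeriv ℝ n (fun x => fderiv ℝ (F q.1) x e) q.2) =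
        fun q => DeL n e (iteratedFDeriv ℝ (n + 1) (F q.1) q.2) := by
      ext1 q
      exact iteratedFDeriv_dir (hF.smooth _) n e q.2
    rw [this]
    exact (ContinuousLinearMap.continuous _).comp (hF.jc (n + 1))
  · intro t n x
    rw [iteratedFDeriv_dir (hF.smooth _) n e x]
    refine ((DeL n e).le_opNorm _).trans ?_
    rw [mul_assoc]
    exact mul_le_mul_of_nonneg_left (hFA.bound t (n + 1) x) (norm_nonneg _)

lemma Cls.QQ {s : ℝ} (hs0 : 0 < s) (hs1 : s < 1 / 2) {ν : Measure (ℂ × ℝ)} (hν : DomM s ν)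
    (hF : Cls F) (hG : Cls G) :
    Cls (fun t x => QQ ν sig0 (F t) (G t) x) := by
  intro P
  obtain ⟨K, hK⟩ := hν.exists_KB hs0 hs1 (P := P + 3) (by omega)
  obtain ⟨A, hA, hFA⟩ := hF (P + 3)
  obtain ⟨B, hB, hGB⟩ := hG (P + 3)
  have hσ : ∀ w, pr2 (sig0 w) = w := fun w => by simp [pr2, sig0]
  have h := Fam.QQ hK (σ := fun _ => sig0) continuous_const (fun _ => hσ) le_rfl zero_le_one
    hFA hGB hA hB
  have hcs := LocBdd.cs hFA.nonneg hGB.nonneg hA hB
  refine ⟨fun t n => CP (P + 3) * (1 + ‖sig0‖) * K * (cs (A t) (B t) n + cs (A t) (B t) (n + 1)),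
    ?_, h.smooth, h.cont, fun t n x => (h.bound t n x).trans ?_⟩
  · intro n t0
    obtain ⟨C, hC⟩ := hcs n t0
    obtain ⟨D, hD⟩ := hcs (n + 1) t0
    refine ⟨CP (P + 3) * (1 + ‖sig0‖) * K * (C + D), ?_⟩
    have hCP := one_le_CP (P + 3)
    have hK0 := hK.1
    filter_upwards [hC, hD] with t h1 h2
    gcongr
  · have h1 := h.nonneg t n
    apply mul_le_mul_of_nonneg_left _ h1
    unfold wt J
    apply mul_le_mul_of_nonneg_right _ (Real.exp_pos _).le
    apply inv_anti₀ (by positivity)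
    exact pow_le_pow_right₀ (by linarith [norm_nonneg (pr2 x)]) (by omega)

/-- multiplication by the first velocity component -/
lemma norm_iteratedFDeriv_re_le (i : ℕ) (x : ℝ × ℂ) :
    ‖iteratedFDeriv ℝ i (fun x : ℝ × ℂ => x.2.re) x‖ ≤ 1 + ‖x.2‖ := by
  set L : (ℝ × ℂ) →L[ℝ] ℝ := Complex.reCLM.comp (ContinuousLinearMap.snd ℝ ℝ ℂ) with hL
  have hLn : ‖L‖ ≤ 1 := by
    refine (ContinuousLinearMap.opNorm_comp_le _ _).trans ?_
    have h1 := ContinuousLinearMap.norm_snd_le ℝ ℝ ℂ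
    have h2 : ‖Complex.reCLM‖ ≤ 1 := Complex.reCLM_norm.le
    nlinarith [norm_nonneg (ContinuousLinearMap.snd ℝ ℝ ℂ), norm_nonneg Complex.reCLM]
  have hfun : (fun x : ℝ × ℂ => x.2.re) = L := by ext x; simp [hL]
  rw [hfun]
  rcases i with _ | _ | i
  · rw [norm_iteratedFDeriv_zero]
    have := Complex.abs_re_le_norm x.2
    have h2 : L x = x.2.re := by simp [hL]
    rw [h2, Real.norm_eq_abs]
    linarith
  · rw [zero_add, norm_iteratedFDeriv_one, ContinuousLinearMap.fderiv]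
    linarith [norm_nonneg x.2]
  · have h1 : iteratedFDeriv ℝ (i + 1 + 1) (⇑L) x = 0 := by
      rw [iteratedFDeriv_succ_eq_comp_right]
      have h2 : (fun y => fderiv ℝ (⇑L) y) = fun _ => L := by
        ext1 y; exact ContinuousLinearMap.fderiv L
      simp only [Function.comp, h2]
      rw [iteratedFDeriv_const_of_ne (by omega)]
      exact LinearIsometryEquiv.map_zero _
    rw [h1, norm_zero]
    positivity

lemma JC_mul {E : Type*} [NormedAddCommGroup E] [NormedSpace ℝ E] {𝒯 : Type*}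
    [TopologicalSpace 𝒯] {g h : 𝒯 → E → ℝ} (hgs : ∀ t, ContDiff ℝ ∞ (g t))
    (hhs : ∀ t, ContDiff ℝ ∞ (h t)) (hg : JC g) (hh : JC h) :
    JC (fun t x => g t x * h t x) := by
  intro n
  have h1 : (fun q : 𝒯 × E => iteratedFDeriv ℝ n (fun x => g q.1 x * h q.1 x) q.2) = fun q =>
      (ContinuousMultilinearMap.compContinuousLinearMapL (fun _ : Fin n => diagL E) (F := ℝ))
      (iteratedFDeriv ℝ n (tens (g q.1) (h q.1)) (diagL E q.2)) := by
    ext1 q
    have h2 := iteratedFDeriv_tens_diag (hgs q.1) (hhs q.1) n 0 q.2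
    have h3 : (fun x => tens (g q.1) (h q.1) (diagL E x + 0)) = fun x => g q.1 x * h q.1 x := by
      ext x; simp [tens, diagL]
    rw [h3] at h2
    rw [h2, add_zero]
    rfl
  rw [h1]
  apply (ContinuousLinearMap.continuous _).comp
  have h2 : Continuous fun q : 𝒯 × E => (q.1, diagL E q.2) := by fun_prop
  exact (JC_tens hgs hhs hg hh n).comp h2

lemma contDiff_re2 : ContDiff ℝ ∞ (fun x : ℝ × ℂ => x.2.re) := by
  have : (fun x : ℝ × ℂ => x.2.re) =
      Complex.reCLM.comp (ContinuousLinearMap.snd ℝ ℝ ℂ) := by ext x; simp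
  rw [this]
  exact ContinuousLinearMap.contDiff _

lemma Cls.re_mul (hF : Cls F) : Cls (fun t x => x.2.re * F t x) := by
  intro P
  obtain ⟨A, hA, hFA⟩ := hF (P + 1)
  refine ⟨fun t n => ∑ i ∈ Finset.range (n + 1), (n.choose i : ℝ) * A t (n - i), ?_, ?_, ?_, ?_⟩
  · intro n t0
    choose C hC using fun i => hA i t0
    refine ⟨∑ i ∈ Finset.range (n + 1), (n.choose i : ℝ) * C (n - i), ?_⟩
    have h1 : ∀ᶠ t in 𝓝 t0, ∀ i ∈ Finset.range (n + 1), A t (n - i) ≤ C (n - i) := by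
      rw [Filter.eventually_all_finset]
      intro i _
      exact hC (n - i)
    filter_upwards [h1] with t ht
    apply Finset.sum_le_sum
    intro i hi
    have := ht i hi
    gcongr
  · intro t
    exact contDiff_re2.mul (hF.smooth t)
  · apply JC_mul (fun _ => contDiff_re2) hF.smooth _ hF.jc
    intro n
    exact (contDiff_re2.continuous_iteratedFDeriv (by exact_mod_cast le_top)).comp continuous_snd
  · intro t n x
    refine (norm_iteratedFDeriv_mul_le contDiff_re2 (hF.smooth t) x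
      (by exact_mod_cast le_top)).trans ?_
    rw [Finset.sum_mul]
    apply Finset.sum_le_sum
    intro i _
    have h1 := norm_iteratedFDeriv_re_le i x
    have h2 := hFA.bound t (n - i) x
    have h3 : (1 + ‖x.2‖) * wt (P + 1) 0 (pr2 x) = wt P 0 (pr2 x) := by
      unfold wt J pr2
      simp only [ContinuousLinearMap.coe_snd']
      rw [pow_succ]
      have : 0 < 1 + ‖x.2‖ := by positivity
      field_simp
    have h4 := hFA.nonneg t (n - i)
    calc _ ≤ (n.choose i : ℝ) * (1 + ‖x.2‖) * (A t (n - i) * wt (P + 1) 0 (pr2 x)) := by gcongr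
      _ = (n.choose i : ℝ) * A t (n - i) * ((1 + ‖x.2‖) * wt (P + 1) 0 (pr2 x)) := by ring
      _ = _ := by rw [h3]

end Pool.MP08d8de
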