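import Pool.Agent.MP_08d8de_an.Reg1

/-! Joint smoothness: time derivatives. -/

open MeasureTheory Set Filter Topology
open scoped Real ENNReal ContDiff

noncomputable section

namespace Pool.MP08d8de

variable {F G F' G' : ℝ → ℝ × ℂ → ℝ}

lemma LocBdd.compact {A : ℝ → ℕ → ℝ} (hA : LocBdd A) (n : ℕ) (a b : ℝ) :
    ∃ C, ∀ t ∈ Icc a b, A t n ≤ C := by
  have h := isCompact_Icc (a := a) (b := b)
  refine h.induction_on (p := fun S => ∃ C, ∀ t ∈ S, A t n ≤ C) ?_ ?_ ?_ ?_
  · exact ⟨0, by simp⟩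
  · rintro s t hst ⟨C, hC⟩
    exact ⟨C, fun x hx => hC x (hst hx)⟩
  · rintro s t ⟨C, hC⟩ ⟨D, hD⟩
    refine ⟨max C D, fun x hx => ?_⟩
    rcases hx with hx | hx
    · exact (hC x hx).trans (le_max_left _ _)
    · exact (hD x hx).trans (le_max_right _ _)
  · intro t _
    obtain ⟨C, hC⟩ := hA n t
    exact ⟨{t | A t n ≤ C}, mem_nhdsWithin_of_mem_nhds hC, C, fun x hx => hx⟩

lemma Cls.continuous (hF : Cls F) : Continuous fun q : ℝ × (ℝ × ℂ) => F q.1 q.2 :=
  hF.jc.continuous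

lemma Cls.cont_time (hF : Cls F) (x : ℝ × ℂ) : Continuous fun t => F t x := by
  have h2 : Continuous fun τ : ℝ => (τ, x) := by fun_prop
  exact hF.continuous.comp h2

/-- Differentiating the time primitive in a direction. -/
lemma Cls.fderiv_time (hF : Cls F) {a b : ℝ} (hab : a ≤ b) (x e : ℝ × ℂ) :
    fderiv ℝ (fun x => ∫ τ in a..b, F τ x) x e = ∫ τ in a..b, fderiv ℝ (F τ) x e := by
  obtain ⟨A, hA, hFA⟩ := hF 0
  obtain ⟨C, hC⟩ := hA.compact 1 a b
  simp_rw [intervalIntegral.integral_of_le hab]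
  have h := fderiv_integral_basic (μ := volume.restrict (Ioc a b)) (φ := fun τ x => F τ x)
    (fun τ => (hF.smooth τ).differentiable (by simp))
    (fun x => (hF.cont_time x).aestronglyMeasurable) x ?_ ?_ ?_
  · exact (h.2 e).2
  · have h1 : Continuous fun τ => iteratedFDeriv ℝ 1 (F τ) x := by
      have h2 : Continuous fun τ : ℝ => (τ, x) := by fun_prop
      exact (hF.jc 1).comp h2
    have h2 : (fun τ => fderiv ℝ (F τ) x) =
        fun τ => (continuousMultilinearCurryFin1 ℝ (ℝ × ℂ) ℝ) (iteratedFDeriv ℝ 1 (F τ) x) := by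
      ext1 τ
      refine ContinuousLinearMap.ext fun v => ?_
      rw [continuousMultilinearCurryFin1_apply, iteratedFDeriv_one_apply]
      rfl
    rw [h2]
    exact ((LinearIsometryEquiv.continuous _).comp h1).aestronglyMeasurable
  · have h1 := (hF.cont_time x).intervalIntegrable (μ := volume) a b
    rw [intervalIntegrable_iff_integrableOn_Ioc_of_le hab] at h1
    exact h1
  · refine ⟨1, one_pos, fun _ => C, ?_, ?_⟩
    · exact integrable_const C
    · filter_upwards [ae_restrict_mem measurableSet_Ioc] with τ hτ y _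
      have h1 := hFA.bound τ 1 y
      rw [norm_iteratedFDeriv_one] at h1
      have h2 := hC τ ⟨hτ.1.le, hτ.2⟩
      have h3 := hFA.nonneg τ 1
      have h4 := wt_le_one (P := 0) (le_refl (0 : ℝ)) (pr2 y)
      have h5 := wt_pos 0 0 (pr2 y)
      nlinarith

/-- Time derivative commutes with space derivatives. -/
lemma Cls.deriv_dir (hF : Cls F) (hF' : Cls F')
    (h : ∀ t x, HasDerivAt (fun τ => F τ x) (F' t x) t) (e : ℝ × ℂ) (t : ℝ) (x : ℝ × ℂ) :
    HasDerivAt (fun τ => fderiv ℝ (F τ) x e) (fderiv ℝ (F' t) x e) t := by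
  have hd' := hF'.dir e
  have hc : Continuous fun τ => fderiv ℝ (F' τ) x e := hd'.cont_time x
  have h1 : ∀ τ, t - 1 < τ → fderiv ℝ (F τ) x e =
      fderiv ℝ (F (t - 1)) x e + ∫ r in (t - 1)..τ, fderiv ℝ (F' r) x e := by
    intro τ hτ
    rw [← hF'.fderiv_time hτ.le x e]
    have h2 : F τ = fun y => F (t - 1) y + ∫ r in (t - 1)..τ, F' r y := by
      ext y
      have := intervalIntegral.integral_eq_sub_of_hasDerivAt (a := t - 1) (b := τ)
        (fun r _ => h r y) ((hF'.cont_time y).intervalIntegrable _ _)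
      rw [this]; ring
    have h3 : DifferentiableAt ℝ (fun y => ∫ r in (t - 1)..τ, F' r y) x := by
      have h4 : (fun y => ∫ r in (t - 1)..τ, F' r y) = fun y => F τ y - F (t - 1) y := by
        ext y; rw [h2]; ring
      rw [h4]
      exact (((hF.smooth τ).sub (hF.smooth (t - 1))).differentiable (by simp)) x
    have h5 : DifferentiableAt ℝ (F (t - 1)) x :=
      ((hF.smooth (t - 1)).differentiable (by simp)) x
    conv_lhs => rw [h2]
    have h6 := fderiv_add h5 h3
    have h7 : fderiv ℝ (fun y => F (t - 1) y + ∫ r in (t - 1)..τ, F' r y) x =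
      fderiv ℝ (F (t - 1)) x + fderiv ℝ (fun y => ∫ r in (t - 1)..τ, F' r y) x := h6
    rw [h7]
    rfl
  have h2 : HasDerivAt (fun τ => fderiv ℝ (F (t - 1)) x e +
      ∫ r in (t - 1)..τ, fderiv ℝ (F' r) x e) (fderiv ℝ (F' t) x e) t := by
    apply HasDerivAt.const_add
    exact intervalIntegral.integral_hasDerivAt_right (hc.intervalIntegrable _ _)
      (hc.stronglyMeasurableAtFilter _ _) hc.continuousAt
  refine h2.congr_of_eventuallyEq ?_
  filter_upwards [eventually_gt_nhds (show t - 1 < t by linarith)] with τ hτ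
  exact h1 τ hτ

/-- Time derivative of the collision operator. -/
lemma Cls.deriv_QQ {s : ℝ} (hs0 : 0 < s) (hs1 : s < 1 / 2) {ν : Measure (ℂ × ℝ)}
    (hν : DomM s ν) (hF : Cls F) (hF' : Cls F')
    (hG : Cls G) (hG' : Cls G')
    (h : ∀ t x, HasDerivAt (fun τ => F τ x) (F' t x) t)
    (h' : ∀ t x, HasDerivAt (fun τ => G τ x) (G' t x) t) (t : ℝ) (x : ℝ × ℂ) :
    HasDerivAt (fun τ => Pool.MP08d8de.QQ ν sig0 (F τ) (G τ) x)
      (Pool.MP08d8de.QQ ν sig0 (F' t) (G t) x + Pool.MP08d8de.QQ ν sig0 (F t) (G' t) x) t := by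
  obtain ⟨K, hK⟩ := hν.exists_KB hs0 hs1 (P := 3) le_rfl
  obtain ⟨A, hA, hFA⟩ := hF 3
  obtain ⟨A', hA', hFA'⟩ := hF' 3
  obtain ⟨B, hB, hGB⟩ := hG 3
  obtain ⟨B', hB', hGB'⟩ := hG' 3
  have hσ : ∀ (_ : ℝ) (w : ℂ), pr2 (sig0 w) = w := fun _ w => by simp [pr2, sig0]
  have hσc : Continuous fun _ : ℝ => sig0 := continuous_const
  obtain ⟨C1, hC1, hb1⟩ := hFA'.local_bound hσc hσ le_rfl zero_le_one hGB hA' hB 0 t x
  obtain ⟨C2, hC2, hb2⟩ := hFA.local_bound hσc hσ le_rfl zero_le_one hGB' hA hB' 0 t x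
  have hD := hFA.domInt hK hσc hσ le_rfl zero_le_one hGB hA hB
  have hD1 := hFA'.domInt hK hσc hσ le_rfl zero_le_one hGB hA' hB
  have hD2 := hFA.domInt hK hσc hσ le_rfl zero_le_one hGB' hA hB'
  have hline : Tendsto (fun τ : ℝ => (τ, x)) (𝓝 t) (𝓝 (t, x)) := by
    have : Continuous fun τ : ℝ => (τ, x) := by fun_prop
    exact this.tendsto t
  have hev := (hline.eventually hb1).and (hline.eventually hb2)
  have hmain := hasDerivAt_integral_of_dominated_loc_of_deriv_le (μ := ν)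
    (F := fun τ p => qker sig0 (F τ) (G τ) p x)
    (F' := fun τ p => qker sig0 (F' τ) (G τ) p x + qker sig0 (F τ) (G' τ) p x)
    (x₀ := t) (s := {τ | (∀ p, ‖iteratedFDeriv ℝ 0 (qker sig0 (F' τ) (G τ) p) x‖ ≤
        C1 * Psi 3 (pr2 x) p) ∧ ∀ p, ‖iteratedFDeriv ℝ 0 (qker sig0 (F τ) (G' τ) p) x‖ ≤
        C2 * Psi 3 (pr2 x) p})
    (bound := fun p => C1 * Psi 3 (pr2 x) p + C2 * Psi 3 (pr2 x) p)
    hev ?_ ((hD t).integrable' x) ?_ ?_ ?_ ?_
  · have h1 := hmain.2
    rw [integral_add ((hD1 t).integrable' x) ((hD2 t).integrable' x)] at h1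
    exact h1
  · exact Eventually.of_forall fun τ => ((hD τ).integrable' x).1
  · exact (((hD1 t).integrable' x).add ((hD2 t).integrable' x)).1
  · refine Eventually.of_forall fun p τ hτ => ?_
    refine (norm_add_le _ _).trans ?_
    have h1 := hτ.1 p
    have h2 := hτ.2 p
    rw [norm_iteratedFDeriv_zero] at h1 h2
    exact add_le_add h1 h2
  · exact ((hK.2 (pr2 x)).1.const_mul C1).add ((hK.2 (pr2 x)).1.const_mul C2)
  · refine Eventually.of_forall fun p τ _ => ?_
    unfold qker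
    have e1 := (h τ (x + sig0 (aa p.2 * p.1))).mul (h' τ (x + sig0 (bb p.2 * p.1)))
    have e2 := (h τ (x + sig0 p.1)).mul (h' τ x)
    refine (e1.sub e2).congr_deriv ?_
    ring

/-- `k` times differentiable in time inside the class. -/
def TD : ℕ → (ℝ → ℝ × ℂ → ℝ) → Prop
  | 0, F => Cls F
  | k + 1, F => Cls F ∧ ∃ F', TD k F' ∧ ∀ t x, HasDerivAt (fun τ => F τ x) (F' t x) t

lemma TD.cls {k : ℕ} (h : TD k F) : Cls F := by
  cases k with
  | zero => exact h
  | succ k => exact h.1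

lemma TD.mono {k : ℕ} (h : TD (k + 1) F) : TD k F := by
  induction k generalizing F with
  | zero => exact h.1
  | succ k ih =>
    obtain ⟨h1, F', h2, h3⟩ := h
    exact ⟨h1, F', ih h2, h3⟩

lemma TD.add {k : ℕ} (hF : TD k F) (hG : TD k G) : TD k (fun t x => F t x + G t x) := by
  induction k generalizing F G with
  | zero => exact Cls.add hF hG
  | succ k ih =>
    obtain ⟨h1, F', h2, h3⟩ := hF
    obtain ⟨g1, G', g2, g3⟩ := hG
    exact ⟨h1.add g1, _, ih h2 g2, fun t x => (h3 t x).add (g3 t x)⟩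

lemma TD.smul {k : ℕ} (hF : TD k F) {c : ℝ → ℝ} (hc : ContDiff ℝ ∞ c) :
    TD k (fun t x => c t * F t x) := by
  induction k generalizing F c with
  | zero => exact Cls.smul hF hc.continuous
  | succ k ih =>
    have hm := hF.mono
    obtain ⟨h1, F', h2, h3⟩ := hF
    have hc' : ContDiff ℝ ∞ (deriv c) := (contDiff_infty_iff_deriv.1 hc).2
    refine ⟨h1.smul hc.continuous, _, (ih hm hc').add (ih h2 hc), fun t x => ?_⟩
    exact ((hc.differentiable (by simp)) t).hasDerivAt.mul (h3 t x)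

lemma TD.re_mul {k : ℕ} (hF : TD k F) : TD k (fun t x => x.2.re * F t x) := by
  induction k generalizing F with
  | zero => exact Cls.re_mul hF
  | succ k ih =>
    obtain ⟨h1, F', h2, h3⟩ := hF
    exact ⟨h1.re_mul, _, ih h2, fun t x => (h3 t x).const_mul _⟩

lemma TD.dir {k : ℕ} (hF : TD k F) (e : ℝ × ℂ) : TD k (fun t x => fderiv ℝ (F t) x e) := by
  induction k generalizing F with
  | zero => exact Cls.dir hF e
  | succ k ih =>
    obtain ⟨h1, F', h2, h3⟩ := hF
    exact ⟨h1.dir e, _, ih h2, fun t x => h1.deriv_dir h2.cls h3 e t x⟩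

lemma TD.QQ {s : ℝ} (hs0 : 0 < s) (hs1 : s < 1 / 2) {ν : Measure (ℂ × ℝ)} (hν : DomM s ν) {k : ℕ} (hF : TD k F) (hG : TD k G) :
    TD k (fun t x => Pool.MP08d8de.QQ ν sig0 (F t) (G t) x) := by
  induction k generalizing F G with
  | zero => exact Cls.QQ hs0 hs1 hν hF hG
  | succ k ih =>
    have mF := hF.mono
    have mG := hG.mono
    obtain ⟨h1, F', h2, h3⟩ := hF
    obtain ⟨g1, G', g2, g3⟩ := hG
    exact ⟨Cls.QQ hs0 hs1 hν h1 g1, _, (ih h2 mG).add (ih mF g2),
      fun t x => Cls.deriv_QQ hs0 hs1 hν h1 h2.cls g1 g2.cls h3 g3 t x⟩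

/-- Solutions of the equation in the class are infinitely differentiable in time. -/
theorem TD.of_equation {s : ℝ} (hs0 : 0 < s) (hs1 : s < 1 / 2) {ν : Measure (ℂ × ℝ)}
    (hν : DomM s ν) (hF : Cls F) {c : ℝ → ℝ}
    (hc : ContDiff ℝ ∞ c)
    (heq : ∀ t x, HasDerivAt (fun τ => F τ x)
      (c t * Pool.MP08d8de.QQ ν sig0 (F t) (F t) x + (-1) * (x.2.re * fderiv ℝ (F t) x (1, 0))) t)
    (k : ℕ) : TD k F := by
  induction k with
  | zero => exact hF
  | succ k ih =>
    refine ⟨hF, _, ?_, heq⟩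
    exact ((TD.QQ hs0 hs1 hν ih ih).smul hc).add (((ih.dir (1, 0)).re_mul).smul contDiff_const)

end Pool.MP08d8de
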