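import Pool.Agent.MP_08d8de_an.Reg2

/-! Joint smoothness and rapid decay of all joint derivatives. -/

open MeasureTheory Set Filter Topology
open scoped Real ContDiff

noncomputable section

namespace Pool.MP08d8de

section basis

variable {V : Type*} [NormedAddCommGroup V] [NormedSpace ℝ V] [FiniteDimensional ℝ V]

/-- coordinate functionals -/
def cf (V : Type*) [NormedAddCommGroup V] [NormedSpace ℝ V] [FiniteDimensional ℝ V]
    (i : Fin (Module.finrank ℝ V)) : V →L[ℝ] ℝ :=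
  LinearMap.toContinuousLinearMap ((Module.finBasis ℝ V).coord i)

lemma clm_eq_sum (L : V →L[ℝ] ℝ) :
    L = ∑ i, (ContinuousLinearMap.toSpanSingleton ℝ (cf V i)) (L (Module.finBasis ℝ V i)) := by
  refine ContinuousLinearMap.ext fun v => ?_
  rw [sum_apply]
  simp only [ContinuousLinearMap.toSpanSingleton_apply, smul_apply,
    smul_eq_mul]
  conv_lhs => rw [← (Module.finBasis ℝ V).sum_repr v]
  rw [map_sum]
  apply Finset.sum_congr rfl
  intro i _
  rw [map_smul, smul_eq_mul, mul_comm]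
  rfl

lemma norm_iteratedFDeriv_succ_le (n : ℕ) {u : V → ℝ} (hu : ContDiff ℝ ∞ u) (p : V) :
    ‖iteratedFDeriv ℝ (n + 1) u p‖ ≤
      ∑ i, ‖ContinuousLinearMap.toSpanSingleton ℝ (cf V i)‖ *
        ‖iteratedFDeriv ℝ n (fun q => fderiv ℝ u q (Module.finBasis ℝ V i)) p‖ := by
  have h1 : ContDiff ℝ ∞ (fderiv ℝ u) := hu.fderiv_right (by simp)
  have h2 : ∀ i, ContDiff ℝ ∞ (fun q => fderiv ℝ u q (Module.finBasis ℝ V i)) := fun i =>
    h1.clm_apply contDiff_const
  rw [← norm_iteratedFDeriv_fderiv]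
  have h3 : fderiv ℝ u = fun q => ∑ i, (ContinuousLinearMap.toSpanSingleton ℝ (cf V i))
      (fderiv ℝ u q (Module.finBasis ℝ V i)) := by
    ext1 q; exact clm_eq_sum _
  have h4 : iteratedFDeriv ℝ n (fun q => ∑ i, (ContinuousLinearMap.toSpanSingleton ℝ (cf V i))
      (fderiv ℝ u q (Module.finBasis ℝ V i))) p = ∑ i, iteratedFDeriv ℝ n (fun q =>
        (ContinuousLinearMap.toSpanSingleton ℝ (cf V i))
      (fderiv ℝ u q (Module.finBasis ℝ V i))) p := by
    have := iteratedFDeriv_sum (𝕜 := ℝ) (i := n) (u := Finset.univ) (f := fun i q =>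
      (ContinuousLinearMap.toSpanSingleton ℝ (cf V i)) (fderiv ℝ u q (Module.finBasis ℝ V i)))
      (fun i _ => ((ContinuousLinearMap.contDiff _).comp ((h2 i).of_le
        (by exact_mod_cast le_top : (n : WithTop ℕ∞) ≤ ∞))))
    have h5 := congrFun this p
    rw [Finset.sum_apply] at h5
    exact h5
  conv_lhs => rw [h3, h4]
  refine (norm_sum_le _ _).trans ?_
  apply Finset.sum_le_sum
  intro i _
  exact ContinuousLinearMap.norm_iteratedFDeriv_comp_left _ (h2 i).contDiffAt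
    (by exact_mod_cast le_top)

end basis

/-- the class `𝓐` -/
def AA (F : ℝ → ℝ × ℂ → ℝ) : Prop := ∀ k, TD k F

variable {F : ℝ → ℝ × ℂ → ℝ}

/-- time derivative -/
def dt (F : ℝ → ℝ × ℂ → ℝ) (t : ℝ) (x : ℝ × ℂ) : ℝ := deriv (fun τ => F τ x) t

lemma AA.hasDeriv (h : AA F) (t : ℝ) (x : ℝ × ℂ) : HasDerivAt (fun τ => F τ x) (dt F t x) t := by
  obtain ⟨_, F', _, h3⟩ := h 1
  exact (h3 t x).differentiableAt.hasDerivAt

lemma AA.dt (h : AA F) : AA (dt F) := by
  intro k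
  obtain ⟨_, F', h2, h3⟩ := h (k + 1)
  have : Pool.MP08d8de.dt F = F' := by
    ext t x
    exact (h3 t x).deriv
  rw [this]; exact h2

lemma AA.cls (h : AA F) : Cls F := h 0

lemma Cls.continuous_fderiv (h : Cls F) :
    Continuous fun q : ℝ × (ℝ × ℂ) => fderiv ℝ (F q.1) q.2 := by
  have h1 := h.jc 1
  have h2 : (fun q : ℝ × (ℝ × ℂ) => fderiv ℝ (F q.1) q.2) =
      fun q => (continuousMultilinearCurryFin1 ℝ (ℝ × ℂ) ℝ) (iteratedFDeriv ℝ 1 (F q.1) q.2) := by
    ext1 q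
    refine ContinuousLinearMap.ext fun v => ?_
    rw [continuousMultilinearCurryFin1_apply, iteratedFDeriv_one_apply]
    rfl
  rw [h2]
  exact (LinearIsometryEquiv.continuous _).comp h1

/-- joint function -/
def unc (F : ℝ → ℝ × ℂ → ℝ) (q : ℝ × (ℝ × ℂ)) : ℝ := F q.1 q.2

lemma joint_hasFDerivAt (hF : Cls F) {F' : ℝ → ℝ × ℂ → ℝ} (hF' : Cls F')
    (h : ∀ t x, HasDerivAt (fun τ => F τ x) (F' t x) t) (q : ℝ × (ℝ × ℂ)) :
    HasFDerivAt (unc F)
      ((ContinuousLinearMap.toSpanSingleton ℝ (F' q.1 q.2)).coprod (fderiv ℝ (F q.1) q.2)) q := by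
  have h1 := hasStrictFDerivAt_uncurry_coprod (𝕜 := ℝ) (u := q) (f := F)
    (f₁ := fun t x => ContinuousLinearMap.toSpanSingleton ℝ (F' t x))
    (f₂ := fun t x => fderiv ℝ (F t) x) ?_ ?_ ?_ ?_
  · exact h1.hasFDerivAt
  · refine Eventually.of_forall fun v => ?_
    exact (h v.1 v.2).hasFDerivAt
  · refine Eventually.of_forall fun v => ?_
    exact (((hF.smooth v.1).differentiable (by simp)) v.2).hasFDerivAt
  · have h2 : Continuous fun q : ℝ × (ℝ × ℂ) =>
        ContinuousLinearMap.toSpanSingleton ℝ (F' q.1 q.2) := by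
      have h3 : (fun q : ℝ × (ℝ × ℂ) => ContinuousLinearMap.toSpanSingleton ℝ (F' q.1 q.2)) =
          fun q => (ContinuousLinearMap.toSpanSingletonCLE (𝕜 := ℝ) (E := ℝ)) (F' q.1 q.2) := by
        ext1 q; rfl
      rw [h3]
      exact (ContinuousLinearEquiv.continuous _).comp hF'.continuous
    exact h2.continuousAt
  · exact hF.continuous_fderiv.continuousAt

lemma AA.fderiv_unc (h : AA F) (q w : ℝ × (ℝ × ℂ)) :
    fderiv ℝ (unc F) q w = unc (fun t x => w.1 * Pool.MP08d8de.dt F t x + fderiv ℝ (F t) x w.2) q := by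
  rw [(joint_hasFDerivAt h.cls h.dt.cls h.hasDeriv q).fderiv]
  simp [unc]

lemma AA.dirw (h : AA F) (w : ℝ × (ℝ × ℂ)) :
    AA (fun t x => w.1 * Pool.MP08d8de.dt F t x + fderiv ℝ (F t) x w.2) := by
  intro k
  exact ((h.dt k).smul contDiff_const).add ((h k).dir w.2)

theorem AA.contDiff (n : ℕ) (h : AA F) : ContDiff ℝ n (unc F) := by
  induction n generalizing F with
  | zero =>
    exact contDiff_zero.2 h.cls.continuous
  | succ n ih =>
    have h1 : ((n + 1 : ℕ) : WithTop ℕ∞) = (n : WithTop ℕ∞) + 1 := by push_cast; rfl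
    rw [h1, contDiff_succ_iff_fderiv]
    refine ⟨fun q => (joint_hasFDerivAt h.cls h.dt.cls h.hasDeriv q).differentiableAt, ?_, ?_⟩
    · intro h2; simp at h2
    · rw [contDiff_clm_apply_iff]
      intro w
      have : (fun q => fderiv ℝ (unc F) q w) =
          unc (fun t x => w.1 * Pool.MP08d8de.dt F t x + fderiv ℝ (F t) x w.2) := by
        ext1 q; exact h.fderiv_unc q w
      rw [this]
      exact ih (h.dirw w)

theorem AA.smooth (h : AA F) : ContDiff ℝ ∞ (unc F) :=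
  contDiff_infty.2 fun n => h.contDiff n

theorem AA.decay (n P : ℕ) (T : ℝ) (h : AA F) :
    ∃ C, 0 ≤ C ∧ ∀ q : ℝ × (ℝ × ℂ), q.1 ∈ Icc (-T) T →
      ‖iteratedFDeriv ℝ n (unc F) q‖ ≤ C * J P q.2.2 := by
  induction n generalizing F with
  | zero =>
    obtain ⟨A, hA, hFA⟩ := h.cls P
    obtain ⟨C, hC⟩ := hA.compact 0 (-T) T
    refine ⟨max C 0, le_max_right _ _, fun q hq => ?_⟩
    have h1 := hFA.bound q.1 0 q.2
    rw [norm_iteratedFDeriv_zero] at h1 ⊢
    refine h1.trans ?_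
    have h2 : wt P 0 (pr2 q.2) = J P q.2.2 := by simp [wt, pr2]
    rw [h2]
    apply mul_le_mul_of_nonneg_right _ (J_nonneg _ _)
    exact (hC q.1 hq).trans (le_max_left _ _)
  | succ n ih =>
    choose C hC0 hC using fun w : ℝ × (ℝ × ℂ) => ih (h.dirw w)
    refine ⟨∑ i, ‖ContinuousLinearMap.toSpanSingleton ℝ (cf (ℝ × (ℝ × ℂ)) i)‖ *
      C (Module.finBasis ℝ (ℝ × (ℝ × ℂ)) i), ?_, fun q hq => ?_⟩
    · apply Finset.sum_nonneg
      intro i _
      exact mul_nonneg (ContinuousLinearMap.opNorm_nonneg _) (hC0 _)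
    · refine (norm_iteratedFDeriv_succ_le n h.smooth q).trans ?_
      rw [Finset.sum_mul]
      apply Finset.sum_le_sum
      intro i _
      have : (fun q => fderiv ℝ (unc F) q (Module.finBasis ℝ (ℝ × (ℝ × ℂ)) i)) =
          unc (fun t x => (Module.finBasis ℝ (ℝ × (ℝ × ℂ)) i).1 * Pool.MP08d8de.dt F t x +
            fderiv ℝ (F t) x (Module.finBasis ℝ (ℝ × (ℝ × ℂ)) i).2) := by
        ext1 q; exact h.fderiv_unc q _
      rw [this, mul_assoc]
      exact mul_le_mul_of_nonneg_left (hC _ q hq) (ContinuousLinearMap.opNorm_nonneg _)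

end Pool.MP08d8de
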