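import Pool.Agent.MP_08d8de_an.Reg3

/-! From characteristic variables to physical variables. -/

open MeasureTheory Set Filter Topology
open scoped Real ContDiff

noncomputable section

namespace Pool.MP08d8de

lemma exp_poly_bound {κ : ℝ} (hκ : 0 < κ) (P : ℕ) : ∃ C : ℝ, 0 ≤ C ∧ ∀ r : ℝ, 0 ≤ r →
    (1 + r) ^ P * Real.exp (-(κ * r ^ 2)) ≤ C := by
  refine ⟨2 ^ P * ((κ ^ P)⁻¹ * (P.factorial * Real.exp κ)), by positivity, fun r hr => ?_⟩
  have h1 : (1 + r) ^ P ≤ 2 ^ P * (1 + r ^ 2) ^ P := by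
    rw [← mul_pow]
    apply pow_le_pow_left₀ (by positivity)
    nlinarith [sq_nonneg (r - 1)]
  have h2 := Real.pow_div_factorial_le_exp (κ * (1 + r ^ 2)) (by positivity) P
  rw [div_le_iff₀ (by positivity), mul_pow] at h2
  have h3 : Real.exp (κ * (1 + r ^ 2)) * Real.exp (-(κ * r ^ 2)) = Real.exp κ := by
    rw [← Real.exp_add]; congr 1; ring
  have hE := Real.exp_pos (-(κ * r ^ 2))
  have h4 : (1 + r ^ 2) ^ P ≤ (κ ^ P)⁻¹ * (Real.exp (κ * (1 + r ^ 2)) * P.factorial) := by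
    rw [inv_mul_eq_div, le_div_iff₀ (by positivity)]
    linarith
  calc (1 + r) ^ P * Real.exp (-(κ * r ^ 2))
      ≤ (2 ^ P * ((κ ^ P)⁻¹ * (Real.exp (κ * (1 + r ^ 2)) * P.factorial))) *
        Real.exp (-(κ * r ^ 2)) := by
        gcongr
        exact h1.trans (by gcongr)
    _ = 2 ^ P * ((κ ^ P)⁻¹ * (P.factorial *
        (Real.exp (κ * (1 + r ^ 2)) * Real.exp (-(κ * r ^ 2))))) := by ring
    _ = _ := by rw [h3]

lemma wt_le_rapid {κ : ℝ} (hκ : 0 < κ) (P P' : ℕ) : ∃ C : ℝ, 0 ≤ C ∧ ∀ v : ℂ,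
    wt P κ v ≤ C * wt P' 0 v := by
  obtain ⟨C, hC0, hC⟩ := exp_poly_bound hκ P'
  refine ⟨C, hC0, fun v => ?_⟩
  have h1 := hC ‖v‖ (norm_nonneg v)
  have h2 : wt P' 0 v = ((1 + ‖v‖) ^ P')⁻¹ := by simp [wt, J]
  rw [h2, ← div_eq_mul_inv, le_div_iff₀ (by positivity)]
  have h3 := J_le_one P v
  have h4 := J_pos P v
  have hE := Real.exp_pos (-(κ * ‖v‖ ^ 2))
  unfold wt
  calc J P v * Real.exp (-(κ * ‖v‖ ^ 2)) * (1 + ‖v‖) ^ P'
      ≤ 1 * Real.exp (-(κ * ‖v‖ ^ 2)) * (1 + ‖v‖) ^ P' := by gcongr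
    _ = (1 + ‖v‖) ^ P' * Real.exp (-(κ * ‖v‖ ^ 2)) := by ring
    _ ≤ C := h1

lemma Fam.toCls {P : ℕ} {κ : ℝ} (hκ : 0 < κ) {A : ℝ → ℕ → ℝ} {g : ℝ → ℝ × ℂ → ℝ}
    (hA : LocBdd A) (hg : Fam pr2 P κ A g) : Cls g := by
  intro P'
  obtain ⟨C, hC0, hC⟩ := wt_le_rapid hκ P P'
  refine ⟨fun t n => C * A t n, ?_, hg.smooth, hg.cont, fun t n x => ?_⟩
  · intro n t0
    obtain ⟨D, hD⟩ := hA n t0
    refine ⟨C * D, ?_⟩
    filter_upwards [hD] with t ht
    gcongr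
  · refine (hg.bound t n x).trans ?_
    have h1 := hg.nonneg t n
    calc _ ≤ A t n * (C * wt P' 0 (pr2 x)) := mul_le_mul_of_nonneg_left (hC _) h1
      _ = _ := by ring

/-- `Λ_t (y, v) = (y - t v₁, v)`. -/
def LamN : (ℝ × ℂ) →L[ℝ] (ℝ × ℂ) :=
  (-(Complex.reCLM.comp (ContinuousLinearMap.snd ℝ ℝ ℂ))).prod (0 : (ℝ × ℂ) →L[ℝ] ℂ)

def Lam (t : ℝ) : (ℝ × ℂ) →L[ℝ] (ℝ × ℂ) := ContinuousLinearMap.id ℝ (ℝ × ℂ) + t • LamN

lemma Lam_apply (t : ℝ) (x : ℝ × ℂ) : Lam t x = (x.1 - t * x.2.re, x.2) := by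
  ext1
  · simp [Lam, LamN]; ring
  · simp [Lam, LamN]

lemma continuous_Lam : Continuous Lam := by unfold Lam; fun_prop

lemma Lam_sig0 (t : ℝ) (w : ℂ) : Lam t (sig0 w) = sig t w := by
  rw [Lam_apply, sig_apply]
  simp [sig0]

/-- Physical variables. -/
def phys (g : ℝ → ℝ × ℂ → ℝ) (t : ℝ) (x : ℝ × ℂ) : ℝ := g t (Lam t x)

lemma iteratedFDeriv_comp_clm' {E₁ E₂ : Type*} [NormedAddCommGroup E₁] [NormedSpace ℝ E₁]
    [NormedAddCommGroup E₂] [NormedSpace ℝ E₂] (L : E₁ →L[ℝ] E₂)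
    {g : E₂ → ℝ} (hg : ContDiff ℝ ∞ g) (i : ℕ) (x : E₁) :
    iteratedFDeriv ℝ i (fun y => g (L y)) x =
      (iteratedFDeriv ℝ i g (L x)).compContinuousLinearMap (fun _ => L) :=
  L.iteratedFDeriv_comp_right hg x (i := i) (by exact_mod_cast le_top)

lemma Cls.phys {g : ℝ → ℝ × ℂ → ℝ} (hg : Cls g) : Cls (phys g) := by
  intro P
  obtain ⟨A, hA, hgA⟩ := hg P
  refine ⟨fun t n => |‖Lam t‖ ^ n| * A t n, ?_, ?_, ?_, ?_⟩
  · intro n t0
    obtain ⟨C, hC⟩ := hA n t0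
    refine ⟨(|‖Lam t0‖ ^ n| + 1) * C, ?_⟩
    have hc : Continuous fun t => ‖Lam t‖ ^ n := continuous_Lam.norm.pow n
    have h1 : ∀ᶠ t in 𝓝 t0, |‖Lam t‖ ^ n| < |‖Lam t0‖ ^ n| + 1 :=
      (hc.abs.tendsto t0).eventually_lt_const (lt_add_one _)
    filter_upwards [hC, h1] with t h1 h2
    have := hgA.nonneg t n
    have := abs_nonneg (‖Lam t‖ ^ n)
    gcongr
  · intro t
    exact (hg.smooth t).comp (Lam t).contDiff
  · intro n
    have h1 : (fun q : ℝ × (ℝ × ℂ) => iteratedFDeriv ℝ n (Pool.MP08d8de.phys g q.1) q.2) = fun q =>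
        (ContinuousMultilinearMap.compContinuousLinearMapContinuousMultilinear ℝ
          (fun _ : Fin n => ℝ × ℂ) (fun _ : Fin n => ℝ × ℂ) ℝ (fun _ => Lam q.1))
          (iteratedFDeriv ℝ n (g q.1) (Lam q.1 q.2)) := by
      ext1 q
      exact iteratedFDeriv_comp_clm' (Lam q.1) (hg.smooth q.1) n q.2
    rw [h1]
    have h2 : Continuous fun q : ℝ × (ℝ × ℂ) =>
        ContinuousMultilinearMap.compContinuousLinearMapContinuousMultilinear ℝ
          (fun _ : Fin n => ℝ × ℂ) (fun _ : Fin n => ℝ × ℂ) ℝ (fun _ => Lam q.1) := by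
      apply (ContinuousMultilinearMap.cont _).comp
      exact continuous_pi fun _ => continuous_Lam.comp continuous_fst
    have hL := continuous_Lam
    have h3 : Continuous fun q : ℝ × (ℝ × ℂ) => (q.1, Lam q.1 q.2) := by fun_prop
    exact h2.clm_apply ((hg.jc n).comp h3)
  · intro t n x
    have h1 := iteratedFDeriv_comp_clm' (Lam t) (hg.smooth t) n x
    have h2 : iteratedFDeriv ℝ n (Pool.MP08d8de.phys g t) x =
      (iteratedFDeriv ℝ n (g t) (Lam t x)).compContinuousLinearMap (fun _ => Lam t) := h1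
    rw [h2]
    refine (ContinuousMultilinearMap.norm_compContinuousLinearMap_le _ _).trans ?_
    rw [Finset.prod_const, Finset.card_univ, Fintype.card_fin, abs_of_nonneg (by positivity)]
    have h3 := hgA.bound t n (Lam t x)
    have h4 : pr2 (Lam t x) = pr2 x := by rw [Lam_apply]; rfl
    rw [h4] at h3
    calc _ ≤ (A t n * wt P 0 (pr2 x)) * ‖Lam t‖ ^ n := by gcongr
      _ = _ := by ring

lemma QQ_phys (ν : Measure (ℂ × ℝ)) (g : ℝ → ℝ × ℂ → ℝ) (t : ℝ) (x : ℝ × ℂ) :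
    QQ ν (sig t) (g t) (g t) (Lam t x) = QQ ν sig0 (phys g t) (phys g t) x := by
  unfold QQ
  congr 1
  ext p
  unfold qker phys
  simp only [map_add, Lam_sig0]

/-- The physical function solves the equation. -/
lemma phys_deriv {ν : Measure (ℂ × ℝ)} {c : ℝ → ℝ} {g : ℝ → ℝ × ℂ → ℝ} (hg : Cls g)
    (hg' : Cls (fun t x => c t * QQ ν (sig t) (g t) (g t) x))
    (h : ∀ t x, HasDerivAt (fun τ => g τ x) (c t * QQ ν (sig t) (g t) (g t) x) t)
    (t : ℝ) (x : ℝ × ℂ) :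
    HasDerivAt (fun τ => phys g τ x)
      (c t * QQ ν sig0 (phys g t) (phys g t) x +
        (-1) * (x.2.re * fderiv ℝ (phys g t) x (1, 0))) t := by
  have h1 := joint_hasFDerivAt hg hg' h (t, Lam t x)
  have h2 : HasDerivAt (fun τ : ℝ => (τ, Lam τ x)) (1, (-x.2.re, (0 : ℂ))) t := by
    apply (hasDerivAt_id t).prodMk
    have h3 : (fun τ : ℝ => Lam τ x) = fun τ => (x.1 - τ * x.2.re, x.2) := by
      ext1 τ; exact Lam_apply τ x
    rw [h3]
    apply HasDerivAt.prodMk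
    · have := ((hasDerivAt_id t).mul_const x.2.re).const_sub x.1
      simpa using this
    · exact hasDerivAt_const _ _
  have h3 := h1.comp_hasDerivAt t h2
  have h4 : fderiv ℝ (phys g t) x (1, 0) = fderiv ℝ (g t) (Lam t x) (1, 0) := by
    have h5 : HasFDerivAt (phys g t) ((fderiv ℝ (g t) (Lam t x)).comp (Lam t)) x :=
      (((hg.smooth t).differentiable (by simp)) (Lam t x)).hasFDerivAt.comp x (Lam t).hasFDerivAt
    rw [h5.fderiv, ContinuousLinearMap.comp_apply]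
    congr 1
    rw [Lam_apply]; simp
  have h5 : (fderiv ℝ (g t) (Lam t x)) (-x.2.re, 0) =
      -x.2.re * fderiv ℝ (g t) (Lam t x) (1, 0) := by
    rw [← smul_eq_mul, ← map_smul]
    congr 1
    ext1 <;> simp
  refine h3.congr_deriv ?_
  rw [h4, ← QQ_phys]
  simp only [ContinuousLinearMap.coprod_apply, ContinuousLinearMap.toSpanSingleton_apply]
  rw [h5]
  simp

end Pool.MP08d8de
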