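import Pool.Agent.MP_08d8de_an.QFam2

/-! Time integrals of families, and elementary operations on families. -/

open MeasureTheory Set Filter Topology
open scoped Real ENNReal ContDiff

noncomputable section

namespace Pool.MP08d8de

variable {E : Type*} [NormedAddCommGroup E] [NormedSpace ℝ E]

section general

variable {𝒯 : Type*} [TopologicalSpace 𝒯]
variable {pr : E →L[ℝ] ℂ} {P : ℕ} {κ : ℝ} {A B : 𝒯 → ℕ → ℝ} {g h : 𝒯 → E → ℝ}

lemma LocBdd.of_continuous (hA : ∀ n, Continuous fun t => A t n) : LocBdd A := by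
  intro n t0
  refine ⟨A t0 n + 1, ?_⟩
  filter_upwards [((hA n).tendsto t0).eventually_lt_const (lt_add_one _)] with t ht
  exact ht.le

lemma contDiffAt_nat {F : Type*} [NormedAddCommGroup F] [NormedSpace ℝ F] {f : E → F}
    (hf : ContDiff ℝ ∞ f) (n : ℕ) (x : E) : ContDiffAt ℝ n f x :=
  (hf.of_le (by exact_mod_cast le_top)).contDiffAt

lemma Fam.add (hg : Fam pr P κ A g) (hh : Fam pr P κ B h) :
    Fam pr P κ (fun t n => A t n + B t n) (fun t x => g t x + h t x) where
  smooth := fun t => (hg.smooth t).add (hh.smooth t)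
  cont := by
    intro n
    have : (fun q : 𝒯 × E => iteratedFDeriv ℝ n (fun x => g q.1 x + h q.1 x) q.2) =
        fun q => iteratedFDeriv ℝ n (g q.1) q.2 + iteratedFDeriv ℝ n (h q.1) q.2 := by
      ext1 q
      exact iteratedFDeriv_add_apply (contDiffAt_nat (hg.smooth _) _ _)
        (contDiffAt_nat (hh.smooth _) _ _)
    rw [this]
    exact (hg.cont n).add (hh.cont n)
  bound := by
    intro t n x
    have : iteratedFDeriv ℝ n (fun x => g t x + h t x) x =
        iteratedFDeriv ℝ n (g t) x + iteratedFDeriv ℝ n (h t) x :=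
      iteratedFDeriv_add_apply (contDiffAt_nat (hg.smooth _) _ _)
        (contDiffAt_nat (hh.smooth _) _ _)
    rw [this, add_mul]
    exact (norm_add_le _ _).trans (add_le_add (hg.bound t n x) (hh.bound t n x))

lemma Fam.sub (hg : Fam pr P κ A g) (hh : Fam pr P κ B h) :
    Fam pr P κ (fun t n => A t n + B t n) (fun t x => g t x - h t x) where
  smooth := fun t => (hg.smooth t).sub (hh.smooth t)
  cont := by
    intro n
    have : (fun q : 𝒯 × E => iteratedFDeriv ℝ n (fun x => g q.1 x - h q.1 x) q.2) =
        fun q => iteratedFDeriv ℝ n (g q.1) q.2 - iteratedFDeriv ℝ n (h q.1) q.2 := by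
      ext1 q
      exact iteratedFDeriv_sub_apply (contDiffAt_nat (hg.smooth _) _ _)
        (contDiffAt_nat (hh.smooth _) _ _)
    rw [this]
    exact (hg.cont n).sub (hh.cont n)
  bound := by
    intro t n x
    have : iteratedFDeriv ℝ n (fun x => g t x - h t x) x =
        iteratedFDeriv ℝ n (g t) x - iteratedFDeriv ℝ n (h t) x :=
      iteratedFDeriv_sub_apply (contDiffAt_nat (hg.smooth _) _ _)
        (contDiffAt_nat (hh.smooth _) _ _)
    rw [this, add_mul]
    exact (norm_sub_le _ _).trans (add_le_add (hg.bound t n x) (hh.bound t n x))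

lemma Fam.mono (hg : Fam pr P κ A g) (hAB : ∀ t n, A t n ≤ B t n) : Fam pr P κ B g where
  smooth := hg.smooth
  cont := hg.cont
  bound := fun t n x => (hg.bound t n x).trans
    (mul_le_mul_of_nonneg_right (hAB t n) (wt_pos _ _ _).le)

/-- multiplication by a function of time -/
lemma Fam.smul (hg : Fam pr P κ A g) {χ : 𝒯 → ℝ} (hχ : Continuous χ) :
    Fam pr P κ (fun t n => |χ t| * A t n) (fun t x => χ t * g t x) where
  smooth := fun t => contDiff_const.mul (hg.smooth t)
  cont := by
    intro n
    have : (fun q : 𝒯 × E => iteratedFDeriv ℝ n (fun x => χ q.1 * g q.1 x) q.2) =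
        fun q => χ q.1 • iteratedFDeriv ℝ n (g q.1) q.2 := by
      ext1 q
      have := iteratedFDeriv_const_smul_apply (a := χ q.1) (contDiffAt_nat (hg.smooth q.1) n q.2)
      exact this
    rw [this]
    exact (hχ.comp continuous_fst).smul (hg.cont n)
  bound := by
    intro t n x
    have h1 : iteratedFDeriv ℝ n (fun x => χ t * g t x) x =
        χ t • iteratedFDeriv ℝ n (g t) x :=
      iteratedFDeriv_const_smul_apply (a := χ t) (contDiffAt_nat (hg.smooth t) n x)
    rw [h1, norm_smul, Real.norm_eq_abs, mul_assoc]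
    exact mul_le_mul_of_nonneg_left (hg.bound t n x) (abs_nonneg _)

end general

section time

variable {pr : E →L[ℝ] ℂ} {P : ℕ} {κ : ℝ} {D : ℝ → ℕ → ℝ} {q : ℝ → E → ℝ}

lemma Fam.continuous_iter (hq : Fam pr P κ D q) (n : ℕ) (x : E) :
    Continuous fun t => iteratedFDeriv ℝ n (q t) x := by
  have h1 : Continuous fun t : ℝ => (t, x) := by fun_prop
  exact (hq.cont n).comp h1

lemma Fam.domInt_time (hκ : 0 ≤ κ) (hq : Fam pr P κ D q) (hD : ∀ n, Continuous fun t => D t n)
    (a b : ℝ) : DomInt (volume.restrict (uIoc a b)) (fun τ x => q τ x) where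
  smooth := hq.smooth
  meas := fun n x => (hq.continuous_iter n x).aestronglyMeasurable
  dom := by
    intro n x0
    refine ⟨1, one_pos, fun τ => D τ n, ?_, ?_⟩
    · have h := ((hD n).intervalIntegrable (μ := volume) a b)
      rw [intervalIntegrable_iff] at h
      exact h
    · refine Eventually.of_forall fun τ x _ => (hq.bound τ n x).trans ?_
      have := hq.nonneg τ n
      have h1 := wt_le_one (P := P) hκ (pr x)
      nlinarith

lemma Fam.iteratedFDeriv_time (hκ : 0 ≤ κ) (hq : Fam pr P κ D q)
    (hD : ∀ n, Continuous fun t => D t n) (a b : ℝ) (n : ℕ) (x : E) :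
    iteratedFDeriv ℝ n (fun x => ∫ τ in a..b, q τ x) x = ∫ τ in a..b, iteratedFDeriv ℝ n (q τ) x := by
  have h := (hq.domInt_time hκ hD a b).iteratedFDeriv_eq n
  simp_rw [intervalIntegral.intervalIntegral_eq_integral_uIoc]
  have h2 := (hq.domInt_time hκ hD a b).contDiff
  have h3 := iteratedFDeriv_const_smul_apply (a := (if a ≤ b then (1 : ℝ) else -1))
    (contDiffAt_nat h2 n x)
  rw [h] at h3
  exact h3

/-- Time integrals of families are families. -/
lemma Fam.timeInt [LocallyCompactSpace E] (hκ : 0 ≤ κ) (hq : Fam pr P κ D q)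
    (hD : ∀ n, Continuous fun t => D t n) (a : ℝ) :
    Fam pr P κ (fun t n => |∫ τ in a..t, D τ n|) (fun t x => ∫ τ in a..t, q τ x) where
  smooth := by
    intro t
    simp_rw [intervalIntegral.intervalIntegral_eq_integral_uIoc]
    exact (contDiff_const (c := (if a ≤ t then (1 : ℝ) else -1))).smul
      (hq.domInt_time hκ hD a t).contDiff
  cont := by
    intro n
    simp_rw [hq.iteratedFDeriv_time hκ hD]
    apply intervalIntegral.continuous_parametric_intervalIntegral_of_continuous
      (f := fun (p : ℝ × E) τ => iteratedFDeriv ℝ n (q τ) p.2) _ continuous_fst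
    have h1 : Continuous fun p : (ℝ × E) × ℝ => (p.2, p.1.2) := by fun_prop
    exact (hq.cont n).comp h1
  bound := by
    intro t n x
    rw [hq.iteratedFDeriv_time hκ hD]
    have h1 : ‖∫ τ in a..t, iteratedFDeriv ℝ n (q τ) x‖ ≤ |∫ τ in a..t, D τ n * wt P κ (pr x)| := by
      apply intervalIntegral.norm_integral_le_abs_of_norm_le
      · exact Eventually.of_forall fun τ => hq.bound τ n x
      · exact ((hD n).mul continuous_const).intervalIntegrable _ _
    rw [intervalIntegral.integral_mul_const, abs_mul, abs_of_pos (wt_pos P κ (pr x))] at h1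
    exact h1

end time

end Pool.MP08d8de
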